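import Pool.Agent.H557R2.FptDec

/-!
# Transfer of fixed-parameter tractability along fpt-reductions
-/

namespace Pool.Agent.X239.FptTrans

open Turing Pool.Agent.NPC Pool.Agent.H557R2.Fpt Pool.Agent.H642R2.TMSim

/-- From programs with raw output to machines. -/
theorem fptDecidable_of_raw {L : PProblem} {d : List Bool × ℕ → Bool}
    (h' : FT (fun b : Bool => [b]) d) (hd : ∀ y, y ∈ L ↔ d y = true) : FptDecidable L := by
  obtain ⟨c, B, ⟨f, p, hf, hB⟩, h⟩ := h'
  refine ⟨{ tm := (c.map (Fin.ofNat (c.bd + 1))).toTM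
            inputAlphabet := Equiv.refl Bool
            outputAlphabet := Equiv.refl Bool }, fun k => f k + 1, p + 1, d, ?_, hd, ?_⟩
  · exact comp_add hf (Computable.const 1)
  · intro x k
    obtain ⟨t, ht, hr⟩ := h x k
    have h1 := hr.restrict (n := c.bd) (by omega)
    have e : ∀ l : List Bool, (fun i : Fin (c.bd + 1) => (inp l : ℕ → List Bool) i) = inp l := by
      intro l
      funext i
      by_cases hi : i = 0
      · subst hi; simp [inp]
      · have : (i : ℕ) ≠ 0 := fun h => hi (Fin.ext h)
        simp [inp, hi, this]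
    have h2 : Nonempty (TM2OutputsInTime (c.map (Fin.ofNat (c.bd + 1))).toTM (pcode (x, k))
        (some [d (x, k)]) (t + 1)) := by
      refine toTM_outputs ?_
      have h3 := h1
      rw [e, e] at h3
      exact h3
    obtain ⟨h2⟩ := h2
    refine ⟨outputs_conv (List.map_id _).symm (List.map_id _).symm ?_ h2⟩
    have h3 := hB x k
    simp only [Polynomial.eval_add, Polynomial.eval_one]
    generalize p.eval x.length = P at *
    have : (f k + 1) * (P + 1) = f k * P + f k + P + 1 := by ring
    omega

/-- A problem fpt-reducible to a fixed-parameter tractable problem is fixed-parameter tractable. -/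
theorem FptDecidable.of_reduces {L L' : PProblem} (hR : FptReduces L L')
    (hL' : FptDecidable L') : FptDecidable L := by
  obtain ⟨R, hR, ⟨g, hg, hgk⟩, hiff⟩ := hR
  obtain ⟨M, f, p, d, hf, hd, hM⟩ := hL'
  have h0 := hR.toFT
  have hl := h0.length
  obtain ⟨c, B, hB, h⟩ := h0
  obtain ⟨prog, E, hE⟩ := sim M
  obtain ⟨f', hf', hmono, hle⟩ := exists_mono hf
  refine fptDecidable_of_raw (d := fun y => d (R y)) ⟨Cmd.seq c prog, fun x k => B x k +
    E * ((pcode (R (x, k))).length + f' (g k) * p.eval (pcode (R (x, k))).length + 1), ?_,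
    fun x k => ?_⟩ fun y => ?_
  · exact hB.add ((FB.const E).mul ((hl.add ((FB.par (hf'.comp hg)).mul (hl.eval p))).add
      (FB.const 1)))
  · refine (h x k).seq ((hE _ _ _ (hM (R (x, k)).1 (R (x, k)).2)).mono ?_)
    refine Nat.mul_le_mul_left _ ?_
    have h1 : f (R (x, k)).2 ≤ f' (g k) := (hle _).trans (hmono (hgk x k))
    have h3 : (R (x, k)).1.length ≤ (pcode (R (x, k))).length := by
      unfold pcode
      rw [bits_length, sz_pair]
      have := length_lt_sz (R (x, k)).1
      omega
    have h2 := Nat.mul_le_mul h1 (eval_mono p h3)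
    have e : pcode ((R (x, k)).1, (R (x, k)).2) = pcode (R (x, k)) := rfl
    rw [e]
    omega
  · obtain ⟨x, k⟩ := y
    rw [hiff, hd]

end Pool.Agent.X239.FptTrans
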