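import Pool.Agent.X239.BSPDefs
import Pool.Agent.H634R2.Clique
import Pool.Agent.H671R2.PolyAuto
import Pool.Agent.H673R2.Search

/-!
# Skew partitions with four large parts: combinatorics
-/

namespace Pool.Agent.X239.BSP

open Pool.Agent.NPC Pool.Agent.H692R2 Pool.Agent.NPC.H634R2

/-- A complete bipartite subgraph with at least `K` vertices on both sides. -/
def HasBi {N : ℕ} (G : SimpleGraph (Fin N)) (X Y : ℕ → Prop) (K : ℕ) : Prop :=
  ∃ C D : Finset (Fin N), (∀ u ∈ C, X u) ∧ (∀ v ∈ D, Y v) ∧ K ≤ C.card ∧ K ≤ D.card ∧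
    ∀ u ∈ C, ∀ v ∈ D, G.Adj u v

theorem bi_of_skew {N : ℕ} {G : SimpleGraph (Fin N)} {X Y : ℕ → Prop} {K : ℕ} {c : ℝ}
    (hXY : ∀ u, X u → ¬ Y u) (hadj : ∀ u v, G.Adj u v → (X u ∧ Y v) ∨ (Y u ∧ X v))
    (hK : ∀ s : ℕ, (N : ℝ) / c ≤ s → K ≤ s) (h : HasBalancedSkew c ⟨N, G⟩) : HasBi G X Y K := by
  obtain ⟨w, hw⟩ := h
  obtain ⟨c0, hc0⟩ := hw.nonempty 2 (by norm_num)
  obtain ⟨d0, hd0⟩ := hw.nonempty 3 (by norm_num)
  have h2 := hK _ (hw.size 2 (by norm_num))
  have h3 := hK _ (hw.size 3 (by norm_num))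
  have hcd : ∀ u ∈ part ⟨N, G⟩ w 2, ∀ v ∈ part ⟨N, G⟩ w 3, G.Adj u v := hw.complete
  rcases hadj _ _ (hcd c0 hc0 d0 hd0) with ⟨hc, hd⟩ | ⟨hc, hd⟩
  · refine ⟨part ⟨N, G⟩ w 2, part ⟨N, G⟩ w 3, ?_, ?_, h2, h3, hcd⟩
    · intro u hu
      rcases hadj _ _ (hcd u hu d0 hd0) with ⟨h4, -⟩ | ⟨-, h4⟩
      · exact h4
      · exact absurd hd (hXY _ h4)
    · intro v hv
      rcases hadj _ _ (hcd c0 hc0 v hv) with ⟨-, h4⟩ | ⟨h4, -⟩
      · exact h4
      · exact absurd h4 (hXY _ hc)
  · refine ⟨part ⟨N, G⟩ w 3, part ⟨N, G⟩ w 2, ?_, ?_, h3, h2, fun u hu v hv => (hcd v hv u hu).symm⟩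
    · intro v hv
      rcases hadj _ _ (hcd c0 hc0 v hv) with ⟨h4, -⟩ | ⟨-, h4⟩
      · exact absurd hc (hXY _ h4)
      · exact h4
    · intro u hu
      rcases hadj _ _ (hcd u hu d0 hd0) with ⟨-, h4⟩ | ⟨h4, -⟩
      · exact absurd h4 (hXY _ hd)
      · exact h4

theorem skew_of_bi {N : ℕ} {G : SimpleGraph (Fin N)} {X Y Z : ℕ → Prop} [DecidablePred Z] {K : ℕ}
    {c : ℝ}
    (hXY : ∀ u, X u → ¬ Y u) (hXZ : ∀ u, X u → ¬ Z u) (hYZ : ∀ u, Y u → ¬ Z u)
    (hadj : ∀ u v, G.Adj u v → (X u ∧ Y v) ∨ (Y u ∧ X v))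
    (hK : (N : ℝ) / c ≤ K) (hK1 : 1 ≤ K) (hN : 4 * K ≤ N)
    (hZ : K ≤ (Finset.univ.filter (fun v : Fin N => Z v)).card) (h : HasBi G X Y K) :
    HasBalancedSkew c ⟨N, G⟩ := by
  classical
  obtain ⟨C', D', hC', hD', hCK', hDK', hCD'⟩ := h
  obtain ⟨C, hCC, hCK⟩ := Finset.exists_subset_card_eq hCK'
  obtain ⟨D, hDD, hDK⟩ := Finset.exists_subset_card_eq hDK'
  obtain ⟨B, hBZ, hBK⟩ := Finset.exists_subset_card_eq hZ
  have hC : ∀ u ∈ C, X u := fun u hu => hC' u (hCC hu)
  have hD : ∀ u ∈ D, Y u := fun u hu => hD' u (hDD hu)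
  have hB : ∀ u ∈ B, Z u := fun u hu => (Finset.mem_filter.1 (hBZ hu)).2
  have hCD : ∀ u ∈ C, ∀ v ∈ D, G.Adj u v := fun u hu v hv => hCD' u (hCC hu) v (hDD hv)
  have dCD : Disjoint C D := Finset.disjoint_left.2 fun u h1 h2 => hXY u (hC u h1) (hD u h2)
  have dCB : Disjoint C B := Finset.disjoint_left.2 fun u h1 h2 => hXZ u (hC u h1) (hB u h2)
  have dDB : Disjoint D B := Finset.disjoint_left.2 fun u h1 h2 => hYZ u (hD u h1) (hB u h2)
  set lab : Fin N → ℕ := fun v => if v ∈ C then 2 else if v ∈ D then 3 else if v ∈ B then 1 else 0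
    with hlab
  set w : List ℕ := List.ofFn lab with hw
  have hget : ∀ v : Fin N, w[(v : ℕ)]? = some (lab v) := by
    intro v
    rw [hw, List.getElem?_ofFn]
    simp
  have hpart : ∀ j, part ⟨N, G⟩ w j = Finset.univ.filter (fun v => lab v = j) := by
    intro j
    ext v
    simp only [part, Finset.mem_filter, Finset.mem_univ, true_and]
    rw [hget v, Option.some_inj]
  have h2 : part ⟨N, G⟩ w 2 = C := by
    rw [hpart]
    ext v
    simp only [Finset.mem_filter, Finset.mem_univ, true_and, hlab]
    split_ifs with h1 h2 h3 <;> simp_all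
  have h3 : part ⟨N, G⟩ w 3 = D := by
    rw [hpart]
    ext v
    simp only [Finset.mem_filter, Finset.mem_univ, true_and, hlab]
    have h5 : v ∈ C → v ∉ D := fun h => Finset.disjoint_left.1 dCD h
    split_ifs with h1 h2 h3 <;> simp_all
  have h1 : part ⟨N, G⟩ w 1 = B := by
    rw [hpart]
    ext v
    simp only [Finset.mem_filter, Finset.mem_univ, true_and, hlab]
    have h5 : v ∈ C → v ∉ B := fun h => Finset.disjoint_left.1 dCB h
    have h6 : v ∈ D → v ∉ B := fun h => Finset.disjoint_left.1 dDB h
    split_ifs with h1 h2 h3 <;> simp_all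
  have h0 : part ⟨N, G⟩ w 0 = (C ∪ D ∪ B)ᶜ := by
    rw [hpart]
    ext v
    simp only [Finset.mem_filter, Finset.mem_univ, true_and, hlab, Finset.mem_compl,
      Finset.mem_union, not_or]
    split_ifs with h1 h2 h3 <;> simp_all
  have hcard0 : K ≤ ((C ∪ D ∪ B)ᶜ).card := by
    rw [Finset.card_compl, Fintype.card_fin]
    have h5 : (C ∪ D ∪ B).card ≤ 3 * K := by
      refine (Finset.card_union_le _ _).trans ?_
      have := Finset.card_union_le C D
      omega
    omega
  have hsz : ∀ j < 4, K ≤ (part ⟨N, G⟩ w j).card := by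
    intro j hj
    interval_cases j
    · rw [h0]; exact hcard0
    · rw [h1, hBK]
    · rw [h2, hCK]
    · rw [h3, hDK]
  refine ⟨w, ?_, ?_, ?_, ?_, ?_, ?_⟩
  · simp [hw]
  · intro j hj
    rw [hw, List.mem_ofFn] at hj
    obtain ⟨v, rfl⟩ := hj
    simp only [hlab]
    split_ifs <;> norm_num
  · intro j hj
    rw [← Finset.card_pos]
    have := hsz j hj
    omega
  · intro j hj
    refine le_trans hK ?_
    exact_mod_cast hsz j hj
  · intro u _ v hv huv
    rw [h1] at hv
    have h5 := hB v hv
    rcases hadj _ _ huv with ⟨-, h6⟩ | ⟨-, h6⟩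
    · exact hYZ _ h6 h5
    · exact hXZ _ h6 h5
  · intro u hu v hv
    rw [h2] at hu
    rw [h3] at hv
    exact hCD u hu v hv

/-! ### The graph of an instance of the clique problem -/

/-- Number of pairs. -/
def ch (k : ℕ) : ℕ := k * (k - 1) / 2

theorem ch_eq (k : ℕ) : ch k = k.choose 2 := by
  rw [ch, Nat.choose_two_right]

/-- Adjacency from the first side to the second. -/
def xb (V : List ℕ) (E : List (ℕ × ℕ)) (k K i j : ℕ) : Bool :=
  decide (i < K + k) && (decide (K + k ≤ j) && (decide (j < K + k + (E.length + (K - ch k))) &&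
    !(decide (i < V.length) && (decide (j < K + k + E.length) &&
      (decide (V.getD i 0 = (E.getD (j - (K + k)) (0, 0)).1) ||
        decide (V.getD i 0 = (E.getD (j - (K + k)) (0, 0)).2))))))

/-- The graph. -/
def gr (V : List ℕ) (E : List (ℕ × ℕ)) (k K N : ℕ) : SimpleGraph (Fin N) where
  Adj i j := xb V E k K i j = true ∨ xb V E k K j i = true
  symm := ⟨fun _ _ h => h.symm⟩
  loopless := ⟨by
    intro i h
    simp only [xb, Bool.and_eq_true, decide_eq_true_eq, or_self] at h
    omega⟩

/-- The first side. -/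
def SX (k K : ℕ) (i : ℕ) : Prop := i < K + k

/-- The second side. -/
def SY (m k K : ℕ) (i : ℕ) : Prop := K + k ≤ i ∧ i < K + k + (m + (K - ch k))

theorem gr_adj {V : List ℕ} {E : List (ℕ × ℕ)} {k K N : ℕ} (u v : Fin N)
    (h : (gr V E k K N).Adj u v) : (SX k K u ∧ SY E.length k K v) ∨ (SY E.length k K u ∧ SX k K v) := by
  have h : xb V E k K u v = true ∨ xb V E k K v u = true := h
  simp only [xb, Bool.and_eq_true, decide_eq_true_eq] at h
  unfold SX SY
  omega

theorem card_nd (S : Finset ℕ) :
    (S.sym2.filter (fun z => ¬ z.IsDiag)).card = S.card.choose 2 := by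
  rw [← Sym2.card_image_offDiag]
  congr 1
  ext z
  induction z with
  | h u v =>
    rw [Finset.mem_filter, Finset.mk_mem_sym2_iff, Sym2.mk_isDiag_iff, Finset.mem_image]
    constructor
    · rintro ⟨⟨h1, h2⟩, h3⟩
      exact ⟨(u, v), Finset.mem_offDiag.2 ⟨h1, h2, h3⟩, rfl⟩
    · rintro ⟨⟨a, b⟩, hab, he⟩
      rw [Finset.mem_offDiag] at hab
      simp only [Function.uncurry_apply_pair, Sym2.eq_iff] at he
      rcases he with ⟨rfl, rfl⟩ | ⟨rfl, rfl⟩
      · exact ⟨⟨hab.1, hab.2.1⟩, hab.2.2⟩
      · exact ⟨⟨hab.2.1, hab.1⟩, fun h => hab.2.2 h.symm⟩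

/-- A complete bipartite subgraph gives a clique. -/
theorem clique_of_bi {V : List ℕ} {E : List (ℕ × ℕ)} {k K N : ℕ} (hG : IsGraph V E) (hk : 2 ≤ k)
    (hVK : V.length ≤ K) (hkK : ch k ≤ K)
    (h : HasBi (gr V E k K N) (SX k K) (SY E.length k K) K) : HasClique V E k := by
  classical
  obtain ⟨C, D, hC, hD, hCK, hDK, hCD⟩ := h
  obtain ⟨hV, hE, hEn⟩ := hG
  -- the vertices outside `C`
  set S : Finset ℕ := ((Finset.range V.length).filter (fun i => ∀ u ∈ C, (u : ℕ) ≠ i)).image
    (fun i => V.getD i 0) with hS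
  have hScard : S.card ≤ k := by
    refine Finset.card_image_le.trans ?_
    have h1 : Disjoint ((Finset.range V.length).filter (fun i => ∀ u ∈ C, (u : ℕ) ≠ i))
        (C.image Fin.val) := by
      rw [Finset.disjoint_left]
      intro i hi hi'
      rw [Finset.mem_image] at hi'
      obtain ⟨u, hu, rfl⟩ := hi'
      exact (Finset.mem_filter.1 hi).2 u hu rfl
    have h2 : ((Finset.range V.length).filter (fun i => ∀ u ∈ C, (u : ℕ) ≠ i)) ∪
        (C.image Fin.val) ⊆ Finset.range (K + k) := by
      intro i hi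
      rw [Finset.mem_union] at hi
      rw [Finset.mem_range]
      rcases hi with hi | hi
      · rw [Finset.mem_filter, Finset.mem_range] at hi
        omega
      · rw [Finset.mem_image] at hi
        obtain ⟨u, hu, rfl⟩ := hi
        exact hC u hu
    have h3 := Finset.card_le_card h2
    rw [Finset.card_union_of_disjoint h1, Finset.card_range,
      Finset.card_image_of_injective _ Fin.val_injective] at h3
    omega
  -- the edges in `D`
  set T : Finset ℕ := (Finset.range E.length).filter (fun j => ∃ v ∈ D, (v : ℕ) = K + k + j) with hT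
  have hTcard : ch k ≤ T.card := by
    have h1 : D.image Fin.val ⊆ T.image (fun j => K + k + j) ∪
        (Finset.range (K - ch k)).image (fun j => K + k + E.length + j) := by
      intro i hi
      rw [Finset.mem_image] at hi
      obtain ⟨v, hv, rfl⟩ := hi
      have h2 := hD v hv
      unfold SY at h2
      rw [Finset.mem_union, Finset.mem_image, Finset.mem_image]
      by_cases h3 : (v : ℕ) < K + k + E.length
      · refine Or.inl ⟨v - (K + k), ?_, by omega⟩
        rw [hT, Finset.mem_filter, Finset.mem_range]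
        exact ⟨by omega, v, hv, by omega⟩
      · exact Or.inr ⟨v - (K + k + E.length), by rw [Finset.mem_range]; omega, by omega⟩
    have h4 := Finset.card_le_card h1
    rw [Finset.card_image_of_injective _ Fin.val_injective] at h4
    have h5 := h4.trans (Finset.card_union_le _ _)
    have h6 : (T.image (fun j => K + k + j)).card ≤ T.card := Finset.card_image_le
    have h7 : ((Finset.range (K - ch k)).image (fun j => K + k + E.length + j)).card ≤ K - ch k :=
      Finset.card_image_le.trans (by simp)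
    omega
  -- both ends of such an edge are in `S`
  have hends : ∀ j ∈ T, (E.getD j (0, 0)).1 ∈ S ∧ (E.getD j (0, 0)).2 ∈ S := by
    intro j hj
    rw [hT, Finset.mem_filter, Finset.mem_range] at hj
    obtain ⟨hj1, v, hv, hvj⟩ := hj
    have hjE : E.getD j (0, 0) ∈ E := by
      rw [List.getD_eq_getElem _ _ hj1]
      exact List.getElem_mem _
    have hkey : ∀ a ∈ V, (a = (E.getD j (0, 0)).1 ∨ a = (E.getD j (0, 0)).2) → a ∈ S := by
      intro a ha hae
      obtain ⟨i, hi, hia⟩ := List.getElem_of_mem ha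
      have hia' : V.getD i 0 = a := by rw [List.getD_eq_getElem _ _ hi, hia]
      rw [hS, Finset.mem_image]
      refine ⟨i, ?_, hia'⟩
      rw [Finset.mem_filter, Finset.mem_range]
      refine ⟨hi, fun u hu hui => ?_⟩
      have h1 : xb V E k K u v = true ∨ xb V E k K v u = true := hCD u hu v hv
      have h2 := hC u hu
      have h3 := hD v hv
      unfold SX at h2
      unfold SY at h3
      simp only [xb, Bool.and_eq_true, decide_eq_true_eq, Bool.not_eq_true', Bool.and_eq_false_iff,
        decide_eq_false_iff_not, Bool.or_eq_false_iff] at h1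
      rw [hui, hvj, hia', Nat.add_sub_cancel_left] at h1
      rcases h1 with ⟨-, -, -, h1 | h1 | h1⟩ | ⟨h1, -⟩
      · exact h1 hi
      · omega
      · rcases hae with h4 | h4
        · exact h1.1 h4
        · exact h1.2 h4
      · omega
    exact ⟨hkey _ (hE _ hjE).1 (Or.inl rfl), hkey _ (hE _ hjE).2.1 (Or.inr rfl)⟩
  -- the edges of `T` are distinct pairs of `S`
  set P : Finset (Sym2 ℕ) := T.image (fun j => s((E.getD j (0, 0)).1, (E.getD j (0, 0)).2)) with hP
  have hPcard : P.card = T.card := by
    apply Finset.card_image_of_injOn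
    intro i hi j hj hij
    rw [Finset.mem_coe, hT, Finset.mem_filter, Finset.mem_range] at hi hj
    have h1 : (E.map (fun e => s(e.1, e.2)))[i]'(by simpa using hi.1) =
        (E.map (fun e => s(e.1, e.2)))[j]'(by simpa using hj.1) := by
      rw [List.getElem_map, List.getElem_map]
      simp only at hij
      rw [List.getD_eq_getElem _ _ hi.1, List.getD_eq_getElem _ _ hj.1] at hij
      exact hij
    exact (List.Nodup.getElem_inj_iff hEn).1 h1
  have hPS : P ⊆ S.sym2.filter (fun z => ¬ z.IsDiag) := by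
    intro z hz
    rw [hP, Finset.mem_image] at hz
    obtain ⟨j, hj, rfl⟩ := hz
    have h1 := hends j hj
    rw [Finset.mem_filter, Finset.mk_mem_sym2_iff, Sym2.mk_isDiag_iff]
    refine ⟨h1, ?_⟩
    rw [hT, Finset.mem_filter, Finset.mem_range] at hj
    have hjE : E.getD j (0, 0) ∈ E := by
      rw [List.getD_eq_getElem _ _ hj.1]
      exact List.getElem_mem _
    exact (hE _ hjE).2.2
  have hSS : (S.sym2.filter (fun z => ¬ z.IsDiag)).card = S.card.choose 2 := by
    exact card_nd S
  have hle := Finset.card_le_card hPS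
  rw [hSS, hPcard] at hle
  have h8 : k.choose 2 ≤ S.card.choose 2 := by
    rw [← ch_eq]
    omega
  have hSk : S.card = k := by
    refine le_antisymm hScard ?_
    by_contra hlt
    push Not at hlt
    obtain ⟨k', rfl⟩ : ∃ k', k = k' + 1 := ⟨k - 1, by omega⟩
    have h9 : S.card.choose 2 ≤ k'.choose 2 := Nat.choose_le_choose 2 (by omega)
    have h10 : (k' + 1).choose 2 = k'.choose 1 + k'.choose 2 := Nat.choose_succ_succ k' 1
    rw [Nat.choose_one_right] at h10
    omega
  have hPeq : P = S.sym2.filter (fun z => ¬ z.IsDiag) := by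
    apply Finset.eq_of_subset_of_card_le hPS
    rw [hSS, hPcard, hSk, ← ch_eq]
    exact hTcard
  refine ⟨S, ?_, hSk, ?_⟩
  · intro v hv
    rw [hS, Finset.mem_image] at hv
    obtain ⟨i, hi, rfl⟩ := hv
    rw [Finset.mem_filter, Finset.mem_range] at hi
    rw [List.getD_eq_getElem _ _ hi.1]
    exact List.getElem_mem _
  · intro u hu v hv huv
    have h1 : s(u, v) ∈ P := by
      rw [hPeq, Finset.mem_filter, Finset.mk_mem_sym2_iff, Sym2.mk_isDiag_iff]
      exact ⟨⟨hu, hv⟩, huv⟩
    rw [hP, Finset.mem_image] at h1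
    obtain ⟨j, hj, hje⟩ := h1
    rw [hT, Finset.mem_filter, Finset.mem_range] at hj
    have hjE : E.getD j (0, 0) ∈ E := by
      rw [List.getD_eq_getElem _ _ hj.1]
      exact List.getElem_mem _
    rw [Sym2.eq_iff] at hje
    rcases hje with ⟨h2, h3⟩ | ⟨h2, h3⟩
    · refine Or.inl ?_
      rw [← h2, ← h3]
      exact hjE
    · refine Or.inr ?_
      rw [← h2, ← h3]
      exact hjE

/-- A clique gives a complete bipartite subgraph. -/
theorem bi_of_clique {V : List ℕ} {E : List (ℕ × ℕ)} {k K N : ℕ} (hG : IsGraph V E)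
    (hVK : V.length ≤ K) (hkK : ch k ≤ K) (hN : K + k + (E.length + (K - ch k)) ≤ N)
    (h : HasClique V E k) : HasBi (gr V E k K N) (SX k K) (SY E.length k K) K := by
  classical
  obtain ⟨S, hSV, hSk, hSE⟩ := h
  obtain ⟨hV, hE, hEn⟩ := hG
  set C : Finset (Fin N) := Finset.univ.filter
    (fun u => (u : ℕ) < K + k ∧ ((u : ℕ) < V.length → V.getD u 0 ∉ S)) with hC
  set D : Finset (Fin N) := Finset.univ.filter
    (fun v => SY E.length k K v ∧ ((v : ℕ) < K + k + E.length →
      (E.getD (v - (K + k)) (0, 0)).1 ∈ S ∧ (E.getD (v - (K + k)) (0, 0)).2 ∈ S)) with hD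
  refine ⟨C, D, ?_, ?_, ?_, ?_, ?_⟩
  · intro u hu
    rw [hC, Finset.mem_filter] at hu
    exact hu.2.1
  · intro v hv
    rw [hD, Finset.mem_filter] at hv
    exact hv.2.1
  · -- size of `C`
    have h1 : Finset.range (K + k) ⊆ C.image Fin.val ∪
        ((Finset.range V.length).filter (fun i => V.getD i 0 ∈ S)) := by
      intro i hi
      rw [Finset.mem_range] at hi
      rw [Finset.mem_union, Finset.mem_image, Finset.mem_filter, Finset.mem_range]
      by_cases h2 : i < V.length ∧ V.getD i 0 ∈ S
      · exact Or.inr h2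
      · refine Or.inl ⟨⟨i, by omega⟩, ?_, rfl⟩
        rw [hC, Finset.mem_filter]
        exact ⟨Finset.mem_univ _, hi, fun h3 h4 => h2 ⟨h3, h4⟩⟩
    have h2 : ((Finset.range V.length).filter (fun i => V.getD i 0 ∈ S)).card ≤ k := by
      rw [← hSk]
      apply Finset.card_le_card_of_injOn (fun i => V.getD i 0)
      · intro i hi
        rw [Finset.mem_coe, Finset.mem_filter] at hi
        exact hi.2
      · intro i hi j hj hij
        rw [Finset.mem_coe, Finset.mem_filter, Finset.mem_range] at hi hj
        simp only at hij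
        rw [List.getD_eq_getElem _ _ hi.1, List.getD_eq_getElem _ _ hj.1] at hij
        exact (List.Nodup.getElem_inj_iff hV).1 hij
    have h3 := (Finset.card_le_card h1).trans (Finset.card_union_le _ _)
    rw [Finset.card_range, Finset.card_image_of_injective _ Fin.val_injective] at h3
    omega
  · -- size of `D`
    set T : Finset ℕ := (Finset.range E.length).filter
      (fun j => (E.getD j (0, 0)).1 ∈ S ∧ (E.getD j (0, 0)).2 ∈ S) with hT
    have hTc : ch k ≤ T.card := by
      have h1 : S.sym2.filter (fun z => ¬ z.IsDiag) ⊆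
          T.image (fun j => s((E.getD j (0, 0)).1, (E.getD j (0, 0)).2)) := by
        intro z
        induction z with
        | h u v =>
          intro hz
          rw [Finset.mem_filter, Finset.mk_mem_sym2_iff, Sym2.mk_isDiag_iff] at hz
          rw [Finset.mem_image]
          rcases hSE u hz.1.1 v hz.1.2 hz.2 with h2 | h2
          · obtain ⟨j, hj, hje⟩ := List.getElem_of_mem h2
            have hje' : E.getD j (0, 0) = (u, v) := by rw [List.getD_eq_getElem _ _ hj, hje]
            refine ⟨j, ?_, by rw [hje']⟩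
            rw [hT, Finset.mem_filter, Finset.mem_range, hje']
            exact ⟨hj, hz.1⟩
          · obtain ⟨j, hj, hje⟩ := List.getElem_of_mem h2
            have hje' : E.getD j (0, 0) = (v, u) := by rw [List.getD_eq_getElem _ _ hj, hje]
            refine ⟨j, ?_, by rw [hje']; exact Sym2.eq_swap⟩
            rw [hT, Finset.mem_filter, Finset.mem_range, hje']
            exact ⟨hj, hz.1.symm⟩
      have h2 : (S.sym2.filter (fun z => ¬ z.IsDiag)).card = S.card.choose 2 := by
        exact card_nd S
      have h3 := (Finset.card_le_card h1).trans Finset.card_image_le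
      rw [h2, hSk, ← ch_eq] at h3
      exact h3
    have h1 : T.image (fun j => K + k + j) ∪
        (Finset.range (K - ch k)).image (fun j => K + k + E.length + j) ⊆
        D.image Fin.val := by
      intro i hi
      rw [Finset.mem_union, Finset.mem_image, Finset.mem_image] at hi
      rw [Finset.mem_image]
      rcases hi with ⟨j, hj, rfl⟩ | ⟨j, hj, rfl⟩
      · rw [hT, Finset.mem_filter, Finset.mem_range] at hj
        refine ⟨⟨K + k + j, by omega⟩, ?_, rfl⟩
        rw [hD, Finset.mem_filter]
        refine ⟨Finset.mem_univ _, ?_, fun _ => ?_⟩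
        · unfold SY
          simp only
          omega
        · simp only
          rw [Nat.add_sub_cancel_left]
          exact hj.2
      · rw [Finset.mem_range] at hj
        refine ⟨⟨K + k + E.length + j, by omega⟩, ?_, rfl⟩
        rw [hD, Finset.mem_filter]
        refine ⟨Finset.mem_univ _, ?_, fun h2 => ?_⟩
        · unfold SY
          simp only
          omega
        · simp only at h2
          omega
    have h2 := Finset.card_le_card h1
    rw [Finset.card_union_of_disjoint (by
      rw [Finset.disjoint_left]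
      intro i hi hi'
      rw [Finset.mem_image] at hi hi'
      obtain ⟨j, hj, rfl⟩ := hi
      obtain ⟨j', hj', he⟩ := hi'
      rw [hT, Finset.mem_filter, Finset.mem_range] at hj
      omega), Finset.card_image_of_injective _ (fun a b h => by simpa using h),
      Finset.card_image_of_injective _ (fun a b h => by simpa using h), Finset.card_range,
      Finset.card_image_of_injective _ Fin.val_injective] at h2
    omega
  · intro u hu v hv
    rw [hC, Finset.mem_filter] at hu
    rw [hD, Finset.mem_filter] at hv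
    have h1 := hv.2.1
    unfold SY at h1
    left
    simp only [xb, Bool.and_eq_true, decide_eq_true_eq, Bool.not_eq_true', Bool.and_eq_false_iff,
      decide_eq_false_iff_not, Bool.or_eq_false_iff]
    refine ⟨hu.2.1, h1.1, h1.2, ?_⟩
    by_cases h2 : (u : ℕ) < V.length
    · by_cases h3 : (v : ℕ) < K + k + E.length
      · refine Or.inr (Or.inr ⟨fun h4 => ?_, fun h4 => ?_⟩)
        · apply hu.2.2 h2
          rw [h4]
          exact (hv.2.2 h3).1
        · apply hu.2.2 h2
          rw [h4]
          exact (hv.2.2 h3).2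
      · exact Or.inr (Or.inl h3)
    · exact Or.inl h2

theorem gr_bipartite (V : List ℕ) (E : List (ℕ × ℕ)) (k K N : ℕ) :
    (gr V E k K N).IsBipartite := by
  refine ⟨SimpleGraph.Coloring.mk (fun u => if (u : ℕ) < K + k then 0 else 1) ?_⟩
  intro u v huv
  have := gr_adj u v huv
  unfold SX SY at this
  rcases this with ⟨h1, h2⟩ | ⟨h1, h2⟩
  · rw [if_pos h1, if_neg (by omega)]
    exact zero_ne_one
  · rw [if_neg (by omega), if_pos h2]
    exact one_ne_zero

theorem gr_iff {V : List ℕ} {E : List (ℕ × ℕ)} {k K N : ℕ} {c : ℝ} (hG : IsGraph V E)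
    (hk : 2 ≤ k) (hVK : V.length + E.length + k + ch k ≤ K) (hN : 4 * K ≤ N)
    (hK : ∀ s : ℕ, (N : ℝ) / c ≤ s ↔ K ≤ s) :
    HasClique V E k ↔ HasBalancedSkew c ⟨N, gr V E k K N⟩ := by
  have hXY : ∀ u, SX k K u → ¬ SY E.length k K u := by
    intro u h1 h2
    unfold SX at h1
    unfold SY at h2
    omega
  constructor
  · intro h
    have hb := bi_of_clique (N := N) (K := K) hG (by omega) (by omega) (by omega) h
    refine skew_of_bi (Z := fun i => K + k + (E.length + (K - ch k)) ≤ i) hXY ?_ ?_
      (fun u v => gr_adj u v) ((hK K).2 le_rfl) (by omega) hN ?_ hb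
    · intro u h1
      unfold SX at h1
      omega
    · intro u h1
      unfold SY at h1
      omega
    · have h1 : (Finset.range K).image (fun j => K + k + (E.length + (K - ch k)) + j) ⊆
          (Finset.univ.filter (fun v : Fin N => K + k + (E.length + (K - ch k)) ≤ (v : ℕ))).image
            Fin.val := by
        intro i hi
        rw [Finset.mem_image] at hi
        obtain ⟨j, hj, rfl⟩ := hi
        rw [Finset.mem_range] at hj
        rw [Finset.mem_image]
        refine ⟨⟨K + k + (E.length + (K - ch k)) + j, by omega⟩, ?_, rfl⟩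
        rw [Finset.mem_filter]
        exact ⟨Finset.mem_univ _, by simp⟩
      have h2 := Finset.card_le_card h1
      rw [Finset.card_image_of_injective _ (fun a b h => by simpa using h), Finset.card_range,
        Finset.card_image_of_injective _ Fin.val_injective] at h2
      exact h2
  · intro h
    exact clique_of_bi hG hk (by omega) (by omega)
      (bi_of_skew hXY (fun u v => gr_adj u v) (fun s hs => (hK s).1 hs) h)

/-! ### The test graphs -/

/-- Adjacency in the test graph. -/
def tb (q i j : ℕ) : Bool := decide (i < q) && (decide (q ≤ j) && decide (j < q + q))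

/-- The complete bipartite graph `K_{q,q}` with isolated vertices. -/
def tg (q N : ℕ) : SimpleGraph (Fin N) where
  Adj i j := tb q i j = true ∨ tb q j i = true
  symm := ⟨fun _ _ h => h.symm⟩
  loopless := ⟨by
    intro i h
    simp only [tb, Bool.and_eq_true, decide_eq_true_eq, or_self] at h
    omega⟩

theorem tg_adj {q N : ℕ} (u v : Fin N) (h : (tg q N).Adj u v) :
    ((u : ℕ) < q ∧ (q ≤ (v : ℕ) ∧ (v : ℕ) < q + q)) ∨
      ((q ≤ (u : ℕ) ∧ (u : ℕ) < q + q) ∧ (v : ℕ) < q) := by
  have h : tb q u v = true ∨ tb q v u = true := h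
  simp only [tb, Bool.and_eq_true, decide_eq_true_eq] at h
  omega

theorem tg_bipartite (q N : ℕ) : (tg q N).IsBipartite := by
  refine ⟨SimpleGraph.Coloring.mk (fun u => if (u : ℕ) < q then 0 else 1) ?_⟩
  intro u v huv
  rcases tg_adj u v huv with ⟨h1, h2⟩ | ⟨h1, h2⟩
  · rw [if_pos h1, if_neg (by omega)]
    exact zero_ne_one
  · rw [if_neg (by omega), if_pos h2]
    exact one_ne_zero

theorem tg_iff {q N : ℕ} {c : ℝ} (hc : 0 < c) (hN : 4 * q ≤ N) (hN0 : 1 ≤ N) :
    HasBalancedSkew c ⟨N, tg q N⟩ ↔ (N : ℝ) / c ≤ q := by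
  constructor
  · intro h
    have h1 : HasBi (tg q N) (fun i => i < q) (fun i => q ≤ i ∧ i < q + q) ⌈(N : ℝ) / c⌉₊ := by
      refine bi_of_skew ?_ (fun u v => tg_adj u v) ?_ h
      · intro u h1 h2
        omega
      · intro s hs
        exact Nat.ceil_le.2 hs
    obtain ⟨C, D, hC, -, hCK, -, -⟩ := h1
    have h2 : C.image Fin.val ⊆ Finset.range q := by
      intro i hi
      rw [Finset.mem_image] at hi
      obtain ⟨u, hu, rfl⟩ := hi
      rw [Finset.mem_range]
      exact hC u hu
    have h3 := Finset.card_le_card h2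
    rw [Finset.card_range, Finset.card_image_of_injective _ Fin.val_injective] at h3
    exact Nat.ceil_le.1 (hCK.trans h3)
  · intro h
    have hq : 1 ≤ q := by
      by_contra h0
      have h1 : q = 0 := by omega
      subst h1
      have h2 : (0 : ℝ) < N / c := by
        have : (0 : ℝ) < N := by exact_mod_cast hN0
        positivity
      push_cast at h
      linarith
    have hcard : ∀ (a b : ℕ), b ≤ N → b - a ≤
        (Finset.univ.filter (fun v : Fin N => a ≤ (v : ℕ) ∧ (v : ℕ) < b)).card := by
      intro a b hb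
      have h1 : Finset.Ico a b ⊆
          (Finset.univ.filter (fun v : Fin N => a ≤ (v : ℕ) ∧ (v : ℕ) < b)).image
            Fin.val := by
        intro i hi
        rw [Finset.mem_Ico] at hi
        rw [Finset.mem_image]
        refine ⟨⟨i, by omega⟩, ?_, rfl⟩
        rw [Finset.mem_filter]
        exact ⟨Finset.mem_univ _, hi⟩
      have h2 := Finset.card_le_card h1
      rw [Nat.card_Ico, Finset.card_image_of_injective _ Fin.val_injective] at h2
      exact h2
    refine skew_of_bi (X := fun i => i < q) (Y := fun i => q ≤ i ∧ i < q + q)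
      (Z := fun i => q + q ≤ i ∧ i < N) ?_ ?_ ?_
      (fun u v => tg_adj u v) h hq hN ?_ ?_
    · intro u h1 h2
      omega
    · intro u h1 h2
      omega
    · intro u h1 h2
      omega
    · have := hcard (q + q) N le_rfl
      omega
    · refine ⟨Finset.univ.filter (fun v : Fin N => 0 ≤ (v : ℕ) ∧ (v : ℕ) < q),
        Finset.univ.filter (fun v : Fin N => q ≤ (v : ℕ) ∧ (v : ℕ) < q + q), ?_, ?_, ?_, ?_, ?_⟩
      · intro u hu
        exact (Finset.mem_filter.1 hu).2.2
      · intro u hu
        exact (Finset.mem_filter.1 hu).2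
      · have := hcard 0 q (by omega)
        omega
      · have := hcard q (q + q) (by omega)
        omega
      · intro u hu v hv
        rw [Finset.mem_filter] at hu hv
        left
        simp only [tb, Bool.and_eq_true, decide_eq_true_eq]
        omega

end Pool.Agent.X239.BSP
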