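import Pool.Agent.H692R2.FinGraph
import Pool.Agent.W982.HoleDefs

/-!
# Skew partitions with four large parts: definitions
-/

namespace Pool.Agent.X239.BSP

open Pool.Agent.NPC Pool.Agent.H692R2

/-- The vertices of `G` with label `j`, when the `v`-th entry of the list `w` is the label of the
vertex `v`. -/
def part (G : FinGraph) (w : List ℕ) (j : ℕ) : Finset (Fin G.n) :=
  Finset.univ.filter (fun v => w[(v : ℕ)]? = some j)

/-- The list `w` of labels `0, 1, 2, 3` describes a skew partition `(A, B, C, D)` of `G` (the
vertices labelled `0`, `1`, `2`, `3`) of balanced size with constant `c`: the four parts are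
nonempty and have at least `n / c` vertices, no vertex of `A` is adjacent to a vertex of `B`, and
every vertex of `C` is adjacent to every vertex of `D`. -/
structure IsBalancedSkew (c : ℝ) (G : FinGraph) (w : List ℕ) : Prop where
  length_eq : w.length = G.n
  labels : ∀ j ∈ w, j < 4
  nonempty : ∀ j < 4, (part G w j).Nonempty
  size : ∀ j < 4, (G.n : ℝ) / c ≤ (part G w j).card
  anticomplete : ∀ u ∈ part G w 0, ∀ v ∈ part G w 1, ¬ G.graph.Adj u v
  complete : ∀ u ∈ part G w 2, ∀ v ∈ part G w 3, G.graph.Adj u v

/-- The graph has a skew partition of balanced size with constant `c`. -/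
def HasBalancedSkew (c : ℝ) (G : FinGraph) : Prop := ∃ w, IsBalancedSkew c G w

end Pool.Agent.X239.BSP
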