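import Pool.Agent.X239.BSP

/-!
# Skew partitions with four large parts: the reductions
-/

namespace Pool.Agent.X239.BSP

open Pool.Agent.NPC Pool.Agent.H692R2 Pool.Agent.NPC.H634R2 Pool.Agent.H673R2

/-- Instances of the clique problem. -/
abbrev CI : Type := (List ℕ × List (ℕ × ℕ)) × ℕ

/-- The size of the clique, bounded by the number of vertices. -/
def kk (I : CI) : ℕ := max 2 (min I.2 (I.1.1.length + 1))

theorem kk_iff (I : CI) (hk : 2 ≤ I.2) : HasClique I.1.1 I.1.2 I.2 ↔ HasClique I.1.1 I.1.2 (kk I) := by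
  have hno : ∀ k, I.1.1.length < k → ¬ HasClique I.1.1 I.1.2 k := by
    rintro k hk' ⟨S, hS, hSk, -⟩
    have h1 : S ⊆ I.1.1.toFinset := fun v hv => List.mem_toFinset.2 (hS v hv)
    have h2 := (Finset.card_le_card h1).trans (List.toFinset_card_le _)
    omega
  by_cases h : I.2 ≤ I.1.1.length
  · have : kk I = I.2 := by unfold kk; omega
    rw [this]
  · refine iff_of_false (hno _ (by omega)) (hno _ ?_)
    unfold kk
    omega

/-- The basic size. -/
def K0 (I : CI) : ℕ :=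
  I.1.1.length + I.1.2.length + (I.1.1.length + 2) + (I.1.1.length + 2) * (I.1.1.length + 2)

theorem K0_pos (I : CI) : 1 ≤ K0 I := by unfold K0; omega

theorem K0_ge (I : CI) : I.1.1.length + I.1.2.length + kk I + ch (kk I) ≤ K0 I := by
  have h1 : kk I ≤ I.1.1.length + 2 := by unfold kk; omega
  have h2 : ch (kk I) ≤ (I.1.1.length + 2) * (I.1.1.length + 2) := by
    unfold ch
    refine (Nat.div_le_self _ _).trans ?_
    exact Nat.mul_le_mul h1 (by omega)
  unfold K0
  omega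

theorem kk_ge (I : CI) : 2 ≤ kk I := by unfold kk; omega

theorem iff_of_K (I : CI) (hI : IsGraph I.1.1 I.1.2 ∧ 2 ≤ I.2) {K N : ℕ} {c : ℝ} (hK0 : K0 I ≤ K)
    (hN : 4 * K ≤ N) (hK : ∀ s : ℕ, (N : ℝ) / c ≤ s ↔ K ≤ s) :
    CLIQUE I ↔ HasBalancedSkew c ⟨N, gr I.1.1 I.1.2 (kk I) K N⟩ := by
  have h1 := K0_ge I
  rw [← gr_iff hI.1 (kk_ge I) (by omega) hN hK, ← kk_iff I hI.2]
  exact ⟨fun h => h.2, fun h => ⟨hI.1, h⟩⟩

/-! ### Polynomial time -/

theorem poly_ch {α : Type} [TEnc α] {f : α → ℕ} (hf : Poly f) : Poly (fun a => ch (f a)) := by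
  unfold ch
  fun_prop

theorem poly_kk : Poly kk := by
  unfold kk
  fun_prop

attribute [local fun_prop] poly_ch poly_kk

theorem uPoly_K0 : UPoly K0 := by
  have h1 : UPoly (fun I : CI => I.1.1.length) := UPoly.length (by fun_prop)
  have h2 : UPoly (fun I : CI => I.1.2.length) := UPoly.length (by fun_prop)
  have h3 : UPoly (fun I : CI => I.1.1.length + 2) := h1.add (UPoly.const 2)
  exact ((h1.add h2).add h3).add (h3.mul h3)

theorem poly_xb {α : Type} [TEnc α] {V : α → List ℕ} {E : α → List (ℕ × ℕ)} {k K i j : α → ℕ}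
    (hV : Poly V) (hE : Poly E) (hk : Poly k) (hK : Poly K) (hi : Poly i) (hj : Poly j) :
    Poly (fun a => xb (V a) (E a) (k a) (K a) (i a) (j a)) := by
  unfold xb
  fun_prop

theorem poly_gr {K N : CI → ℕ} (hK : Poly K) (hN : UPoly N) :
    Poly (fun I : CI => (⟨N I, gr I.1.1 I.1.2 (kk I) (K I) (N I)⟩ : FinGraph)) := by
  refine poly_finGraph (b := fun I i j => xb I.1.1 I.1.2 (kk I) (K I) i j ||
    xb I.1.1 I.1.2 (kk I) (K I) j i) hN ?_ ?_
  · have h1 : Poly (fun p : (CI × ℕ) × ℕ => p.1.1) := by fun_prop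
    have hK' : Poly (fun p : (CI × ℕ) × ℕ => K p.1.1) := hK.comp h1
    have hk' : Poly (fun p : (CI × ℕ) × ℕ => kk p.1.1) := poly_kk.comp h1
    refine Poly.or ?_ ?_
    · exact poly_xb (by fun_prop) (by fun_prop) hk' hK' (by fun_prop) (by fun_prop)
    · exact poly_xb (by fun_prop) (by fun_prop) hk' hK' (by fun_prop) (by fun_prop)
  · intro I i j
    rw [Bool.or_eq_true]
    exact Iff.rfl

theorem poly_tg {N : CI → ℕ} (hN : UPoly N) :
    Poly (fun p : CI × ℕ => (⟨N p.1, tg p.2 (N p.1)⟩ : FinGraph)) := by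
  refine poly_finGraph (α := CI × ℕ) (N := fun p => N p.1) (G := fun p => tg p.2 (N p.1))
    (b := fun p i j => tb p.2 i j || tb p.2 j i) (hN.comp (by fun_prop)) ?_ ?_
  · unfold tb
    fun_prop
  · intro I i j
    rw [Bool.or_eq_true]
    exact Iff.rfl

/-! ### Rational thresholds -/

theorem floor_spec {c : ℝ} (hc : 4 ≤ c) (K : ℕ) :
    4 * K ≤ ⌊c * K⌋₊ ∧ ∀ s : ℕ, ((⌊c * K⌋₊ : ℕ) : ℝ) / c ≤ s ↔ K ≤ s := by
  have hK : (0 : ℝ) ≤ K := Nat.cast_nonneg K
  have hc0 : 0 < c := by linarith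
  have h0 : 0 ≤ c * K := by positivity
  have h1 := Nat.floor_le h0
  have h2 := Nat.lt_floor_add_one (c * (K : ℝ))
  refine ⟨?_, fun s => ?_⟩
  · rw [Nat.le_floor_iff h0]
    push_cast
    nlinarith
  · rw [div_le_iff₀ hc0]
    constructor
    · intro h
      by_contra hlt
      push Not at hlt
      have h3 : (s : ℝ) + 1 ≤ K := by exact_mod_cast hlt
      nlinarith
    · intro h
      have h3 : (K : ℝ) ≤ s := by exact_mod_cast h
      nlinarith

theorem hard_rat (c : ℚ) (hc : 4 ≤ c) :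
    HardPr (fun G : FinGraph => G.graph.IsBipartite) (HasBalancedSkew (c : ℝ)) := by
  have hcR : (4 : ℝ) ≤ (c : ℝ) := by exact_mod_cast hc
  have hnum : 0 ≤ c.num := Rat.num_nonneg.2 (by linarith)
  -- the number of vertices
  have hfl : ∀ K : ℕ, ⌊(c : ℝ) * K⌋₊ = c.num.toNat * K / c.den := by
    intro K
    have h1 : (c : ℝ) * K = ((c.num.toNat * K : ℕ) : ℝ) / (c.den : ℝ) := by
      have h2 : (c : ℝ) = (c.num : ℝ) / (c.den : ℝ) := by exact_mod_cast (Rat.num_div_den c).symm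
      have h3 : ((c.num.toNat : ℕ) : ℝ) = (c.num : ℝ) := by
        have : ((c.num.toNat : ℕ) : ℤ) = c.num := Int.toNat_of_nonneg hnum
        exact_mod_cast this
      rw [h2]
      push_cast
      rw [h3]
      ring
    rw [h1, Nat.floor_div_natCast, Nat.floor_natCast]
  have hu : UPoly (fun I : CI => c.num.toNat * K0 I / c.den) := by
    refine UPoly.of_le (n := fun I => c.num.toNat * K0 I) ?_ ((UPoly.const _).mul uPoly_K0)
      (fun I => Nat.div_le_self _ _)
    have := uPoly_K0.toPoly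
    exact NPC.Poly.div (NPC.Poly.mul (NPC.Poly.const _) this) (NPC.Poly.const _)
  refine hardPr_CLIQUE.trans (f := fun I => (⟨c.num.toNat * K0 I / c.den,
    gr I.1.1 I.1.2 (kk I) (K0 I) (c.num.toNat * K0 I / c.den)⟩ : FinGraph))
    (poly_gr uPoly_K0.toPoly hu) (fun I _ => gr_bipartite _ _ _ _ _) (fun I hI => ?_)
  have h1 := floor_spec hcR (K0 I)
  rw [hfl] at h1
  exact iff_of_K I hI le_rfl h1.1 h1.2

/-! ### Real thresholds -/

theorem decide_clique {c : ℝ} (hc : 4 ≤ c) {D : FinGraph → Bool} (hD : Poly D)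
    (hDc : ∀ G : FinGraph, G.graph.IsBipartite → (D G = true ↔ HasBalancedSkew c G)) :
    ∃ Q : CI → Bool, Poly Q ∧ ∀ I : CI, IsGraph I.1.1 I.1.2 ∧ 2 ≤ I.2 →
      (CLIQUE I ↔ Q I = true) := by
  obtain ⟨L, hL⟩ := exists_nat_ge c
  have hc0 : 0 < c := by linarith
  set N : CI → ℕ := fun I => 4 * (L * K0 I) with hN
  have hNu : UPoly N := (UPoly.const 4).mul ((UPoly.const L).mul uPoly_K0)
  set KK : CI → ℕ := fun I => ((List.range (L * K0 I + 1)).filter
    (fun q => D ⟨N I, tg q (N I)⟩)).head?.getD 0 with hKK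
  have hKKp : Poly KK := by
    have h1 : UPoly (fun I : CI => L * K0 I + 1) := ((UPoly.const L).mul uPoly_K0).add (UPoly.const 1)
    refine Poly.optGetD (Poly.head? (Poly.filter (p := fun I q => D ⟨N I, tg q (N I)⟩) h1.range ?_))
      (NPC.Poly.const 0)
    exact hD.comp (poly_tg hNu)
  refine ⟨fun I => D ⟨N I, gr I.1.1 I.1.2 (kk I) (KK I) (N I)⟩, hD.comp (poly_gr hKKp hNu),
    fun I hI => ?_⟩
  rw [hDc _ (gr_bipartite _ _ _ _ _)]
  have hL1 : (4 : ℝ) ≤ L := hc.trans hL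
  have hL1' : 4 ≤ L := by exact_mod_cast hL1
  have hK0 := K0_pos I
  have hLK : 1 ≤ L * K0 I := Nat.mul_pos (by omega) (by omega)
  -- the tests
  have htest : ∀ q ≤ L * K0 I, (D ⟨N I, tg q (N I)⟩ = true ↔ (N I : ℝ) / c ≤ q) := by
    intro q hq
    rw [hDc _ (tg_bipartite _ _)]
    refine tg_iff hc0 ?_ ?_
    · simp only [hN]
      omega
    · simp only [hN]
      omega
  have hlast : (N I : ℝ) / c ≤ ((L * K0 I : ℕ) : ℝ) := by
    rw [div_le_iff₀ hc0]
    simp only [hN]
    push_cast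
    have : (0 : ℝ) ≤ (L : ℝ) * K0 I := by positivity
    nlinarith
  -- the specification of `KK`
  have hex : ∃ q, q ≤ L * K0 I ∧ (N I : ℝ) / c ≤ q := ⟨_, le_rfl, hlast⟩
  have hspec : KK I ≤ L * K0 I ∧ (N I : ℝ) / c ≤ KK I ∧ ∀ s : ℕ, (N I : ℝ) / c ≤ s → KK I ≤ s := by
    classical
    set q := Nat.find hex with hq
    have h1 := Nat.find_spec hex
    have h2 : ∀ s < q, ¬ (s ≤ L * K0 I ∧ (N I : ℝ) / c ≤ s) := fun s hs => Nat.find_min hex hs
    have h3 : KK I = q := by
      simp only [hKK]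
      rw [List.head?_filter]
      have : List.find? (fun q => D ⟨N I, tg q (N I)⟩) (List.range (L * K0 I + 1)) = some q := by
        rw [List.find?_range_eq_some]
        refine ⟨(htest q h1.1).2 h1.2, List.mem_range.2 (by omega), ?_⟩
        intro j hj
        rw [Bool.not_eq_true', ← Bool.not_eq_true, htest j (by omega)]
        intro h
        exact h2 j hj ⟨by omega, h⟩
      rw [this]
      rfl
    rw [h3]
    refine ⟨h1.1, h1.2, fun s hs => ?_⟩
    by_contra hlt
    push Not at hlt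
    exact h2 s hlt ⟨by omega, hs⟩
  obtain ⟨h1, h2, h3⟩ := hspec
  refine iff_of_K I hI ?_ ?_ ?_
  · -- `K0 ≤ KK`
    have h4 : ((K0 I : ℕ) : ℝ) ≤ KK I := by
      refine le_trans ?_ h2
      rw [le_div_iff₀ hc0]
      simp only [hN]
      push_cast
      have : (0 : ℝ) ≤ K0 I := Nat.cast_nonneg _
      nlinarith
    exact_mod_cast h4
  · simp only [hN]
    omega
  · intro s
    refine ⟨h3 s, fun h => h2.trans ?_⟩
    exact_mod_cast h

/-- `P = NP`. -/
def PEqNP : Prop := ∀ L : Set (List Bool), InNP L → InP L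

theorem collapse {c : ℝ} (hc : 4 ≤ c) {V : List Bool → List Bool} (hV : PolyTime V)
    {g : List Bool → Bool} (hg : Poly g)
    (h : ∀ G : FinGraph, G.graph.IsBipartite → (g (V (bits G)) = true ↔ HasBalancedSkew c G)) :
    PEqNP := by
  have h0 : PC (bits : FinGraph → List Bool) (fun x : List Bool => x) (fun G => bits G) := by
    obtain ⟨c, p, h⟩ := (PC.id : PC (bits : FinGraph → List Bool) bits (fun G => G))
    exact ⟨c, p, h⟩
  have h1 : PC (fun x : List Bool => x) (fun x : List Bool => x) V := H642R2.TMSim.polyTime_toPC hV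
  have h2 : PC (fun x : List Bool => x) (bits : List Bool → List Bool) V :=
    PC.comp (g := fun x => x) (f := V) PC.rawIn h1
  have h3 : Poly (fun G : FinGraph => V (bits G)) := PC.comp (g := V) (f := fun G => bits G) h2 h0
  obtain ⟨Q, hQ, hQc⟩ := decide_clique hc (hg.comp h3) h
  intro L hL
  obtain ⟨f, hf, hfp, hfL⟩ := hardPr_CLIQUE L hL
  refine ⟨fun x => [Q (f x)], ?_, fun x => ?_⟩
  · have h4 : PC (fun x : List Bool => x) (bits : Bool → List Bool) (fun x => Q (f x)) :=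
      PC.comp (g := Q) (f := f) hQ hf
    exact PC.toPolyTime (PC.comp (g := fun b => [b]) (f := fun x => Q (f x)) PC.rawBool h4)
  · rw [hfL x, hQc _ (hfp x)]
    simp

end Pool.Agent.X239.BSP
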