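import Pool.Agent.X239.DSDefs
import Pool.Agent.H557R2.Mve.Core

/-!
# Dual separators: the construction and its correctness
-/

namespace Pool.Agent.X239.DS

open Pool.Agent.NPC Pool.Agent.H557R2.Fpt
open Pool.Agent.H557R2.Mve (adjB)

/-- Labels of vertices: `(type, i, j, u, v)`. -/
abbrev VL : Type := ℕ × ℕ × ℕ × ℕ × ℕ

def sL : VL := (0, 0, 0, 0, 0)
def tL : VL := (1, 0, 0, 0, 0)

/-- The pairs allowed in the cell `(i, j)`. -/
def okB (n : ℕ) (x : List Bool) (i j u v : ℕ) : Bool :=
  bif decide (i = j) then decide (u = v) else adjB n x u v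

/-- The range of the vertices. -/
def rg (n : ℕ) (x : List Bool) : List ℕ := List.range (min n x.length)

/-- No allowed pair `(u, w)` with `p ≤ w < q`. -/
def gap (n : ℕ) (x : List Bool) (i j u p q : ℕ) : Bool :=
  (rg n x).all fun w => !(decide (p ≤ w) && (decide (w < q) && okB n x i j u w))

/-- Blue edges, directed away from `s`. -/
def bd (n k : ℕ) (x : List Bool) (a b : VL) : Bool :=
  (decide (a = sL) && (decide (b.1 = 3) && decide (b.2.2.1 = 0))) ||
  ((decide (b = tL) && (decide (a.1 = 3) && decide (a.2.2.1 = n))) ||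
  ((decide (a.1 = 3) && (decide (b.1 = 2) && (decide (a.2.1 = b.2.1) &&
    (decide (a.2.2.1 = b.2.2.2.1) && gap n x b.2.1 b.2.2.1 b.2.2.2.1 0 b.2.2.2.2)))) ||
  ((decide (a.1 = 2) && (decide (b.1 = 3) && (decide (a.2.1 = b.2.1) &&
    (decide (b.2.2.1 = a.2.2.2.1 + 1) &&
      gap n x a.2.1 a.2.2.1 a.2.2.2.1 (a.2.2.2.2 + 1) n)))) ||
  ((decide (a.1 = 2) && (decide (b.1 = 2) && (decide (a.2.1 = b.2.1) &&
    (decide (a.2.2.1 = b.2.2.1) && (decide (a.2.2.2.1 = b.2.2.2.1) &&
      (decide (a.2.2.2.2 < b.2.2.2.2) &&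
        gap n x a.2.1 a.2.2.1 a.2.2.2.1 (a.2.2.2.2 + 1) b.2.2.2.2)))))) ||
  (decide (a.1 = 3) && (decide (b.1 = 3) && (decide (a.2.1 = b.2.1) &&
    (decide (b.2.2.1 = a.2.2.1 + 1) &&
      (List.range k).any (fun j => gap n x a.2.1 j a.2.2.1 0 n)))))))))

/-- Blue edges. -/
def bs (n k : ℕ) (x : List Bool) (a b : VL) : Bool := bd n k x a b || bd n k x b a

/-- The exchange of the two colours. -/
def tw (a : VL) : VL :=
  if a.1 = 2 then (2, a.2.2.1, a.2.1, a.2.2.2.2, a.2.2.2.1)
  else if a.1 = 3 then (4, a.2) else if a.1 = 4 then (3, a.2) else a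

/-- The labels of the vertices. -/
def Val (n k : ℕ) (x : List Bool) (a : VL) : Prop :=
  a = sL ∨ a = tL ∨ (∃ i < k, ∃ j < k, ∃ u < n, ∃ v < n, okB n x i j u v = true ∧ a = (2, i, j, u, v)) ∨
    (∃ i < k, ∃ c ≤ n, ∃ r ≤ k * k, a = (3, i, c, r, 0)) ∨
    ∃ i < k, ∃ c ≤ n, ∃ r ≤ k * k, a = (4, i, c, r, 0)

theorem adjB_comm (n : ℕ) (x : List Bool) (u v : ℕ) : adjB n x u v = adjB n x v u := by
  unfold adjB
  rw [min_comm, max_comm]
  congr 2
  rw [decide_eq_decide]
  exact eq_comm

theorem okB_comm (n : ℕ) (x : List Bool) (i j u v : ℕ) : okB n x i j u v = okB n x j i v u := by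
  unfold okB
  rw [adjB_comm, show decide (i = j) = decide (j = i) by rw [decide_eq_decide]; exact eq_comm,
    show decide (u = v) = decide (v = u) by rw [decide_eq_decide]; exact eq_comm]

theorem tw_tw {n k : ℕ} {x : List Bool} {a : VL} (h : Val n k x a) : tw (tw a) = a := by
  rcases h with rfl | rfl | ⟨i, -, j, -, u, -, v, -, -, rfl⟩ | ⟨i, -, c, -, r, -, rfl⟩ |
    ⟨i, -, c, -, r, -, rfl⟩ <;> simp [tw, sL, tL]

theorem Val.tw {n k : ℕ} {x : List Bool} {a : VL} (h : Val n k x a) : Val n k x (tw a) := by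
  rcases h with rfl | rfl | ⟨i, hi, j, hj, u, hu, v, hv, h, rfl⟩ | ⟨i, hi, c, hc, r, hr, rfl⟩ |
    ⟨i, hi, c, hc, r, hr, rfl⟩
  · exact Or.inl rfl
  · exact Or.inr (Or.inl rfl)
  · refine Or.inr (Or.inr (Or.inl ⟨j, hj, i, hi, v, hv, u, hu, ?_, by simp [DS.tw]⟩))
    rw [okB_comm]
    exact h
  · exact Or.inr (Or.inr (Or.inr (Or.inr ⟨i, hi, c, hc, r, hr, by simp [DS.tw]⟩)))
  · exact Or.inr (Or.inr (Or.inr (Or.inl ⟨i, hi, c, hc, r, hr, by simp [DS.tw]⟩)))

theorem gap_iff {n : ℕ} {x : List Bool} (hx : x.length = n * n) {i j u p q : ℕ} :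
    gap n x i j u p q = true ↔ ∀ w < n, p ≤ w → w < q → okB n x i j u w = false := by
  unfold gap rg
  have : min n x.length = n := by
    rw [hx]
    exact min_eq_left (Nat.le_mul_self n)
  rw [this]
  simp only [List.all_eq_true, List.mem_range, Bool.not_eq_true', Bool.and_eq_false_iff,
    decide_eq_false_iff_not]
  constructor
  · intro h w hw h1 h2
    rcases h w hw with h3 | h3 | h3
    · exact absurd h1 h3
    · exact absurd h2 h3
    · exact h3
  · intro h w hw
    by_cases h1 : p ≤ w
    · by_cases h2 : w < q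
      · exact Or.inr (Or.inr (h w hw h1 h2))
      · exact Or.inr (Or.inl h2)
    · exact Or.inl h1

/-! ### Half of the construction: one colour -/

theorem reach_const {V : Type} {G : SimpleGraph V} (f : V → Prop)
    (h : ∀ a b, G.Adj a b → (f a ↔ f b)) {a b : V} (hab : G.Reachable a b) : f a ↔ f b := by
  obtain ⟨p⟩ := hab
  induction p with
  | nil => exact Iff.rfl
  | cons hadj _ ih => exact (h _ _ hadj).trans ih

section Half

variable {V : Type} [Fintype V] [DecidableEq V] {n k : ℕ} {x : List Bool} (hx : x.length = n * n)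
  {lab : V → VL} (hinj : Function.Injective lab) (hval : ∀ a, Val n k x a ↔ ∃ v, lab v = a)
  {G : SimpleGraph V} (hG : ∀ a b, G.Adj a b ↔ bs n k x (lab a) (lab b) = true)

include hx hinj hval hG in
/-- A separator cuts every row at some place. -/
theorem row_cut {s t : V} (hs : lab s = sL) (ht : lab t = tL) {S : Finset V} (hS : S.card ≤ k * k)
    (hsS : s ∉ S) (htS : t ∉ S) (hsep : ¬ (G.induce {v | v ∉ S}).Reachable ⟨s, hsS⟩ ⟨t, htS⟩)
    {i : ℕ} (hi : i < k) :
    ∃ c < n, ∀ j < k, ∃ v < n, okB n x i j c v = true ∧ ∃ z ∈ S, lab z = (2, i, j, c, v) := by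
  classical
  by_contra hcon
  push Not at hcon
  -- surviving backbone vertices
  have hsurv : ∀ c ≤ n, ∃ z, z ∉ S ∧ ∃ r, lab z = (3, i, c, r, 0) := by
    intro c hc
    have h1 : ∀ r : Fin (k * k + 1), ∃ z, lab z = (3, i, c, r.1, 0) := fun r =>
      (hval _).1 (Or.inr (Or.inr (Or.inr (Or.inl ⟨i, hi, c, hc, r.1, by omega, rfl⟩))))
    choose f hf using h1
    have hfi : Function.Injective f := by
      intro r r' h
      have h2 := (hf r).symm.trans ((congrArg lab h).trans (hf r'))
      simp only [Prod.mk.injEq] at h2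
      exact Fin.ext (by omega)
    by_contra hall
    push Not at hall
    have h3 : (Finset.univ : Finset (Fin (k * k + 1))).image f ⊆ S := by
      intro z hz
      rw [Finset.mem_image] at hz
      obtain ⟨r, -, rfl⟩ := hz
      by_contra hz
      exact hall _ hz r.1 (hf r)
    have h4 := Finset.card_le_card h3
    rw [Finset.card_image_of_injective _ hfi, Finset.card_univ, Fintype.card_fin] at h4
    omega
  have hne : Nonempty V := ⟨s⟩
  choose! g hgS r hgr using hsurv
  set H := G.induce {v | v ∉ S} with hH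
  have hadj : ∀ (a b : V) (ha : a ∉ S) (hb : b ∉ S), bd n k x (lab a) (lab b) = true →
      H.Reachable ⟨a, ha⟩ ⟨b, hb⟩ := by
    intro a b ha hb h
    apply SimpleGraph.Adj.reachable
    rw [hH, SimpleGraph.comap_adj]
    simp only [Function.Embedding.subtype_apply]
    rw [hG]
    unfold bs
    rw [h]
    rfl
  -- along one group
  have hgroup : ∀ c < n, ∀ (h1 : g c ∉ S) (h2 : g (c + 1) ∉ S), H.Reachable ⟨g c, h1⟩ ⟨g (c + 1), h2⟩ := by
    intro c hc h1 h2
    obtain ⟨j, hj, hno⟩ := hcon c hc
    have hl1 := hgr c hc.le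
    have hl2 := hgr (c + 1) (by omega)
    have hex : ∀ v < n, okB n x i j c v = true → ∃ z, z ∉ S ∧ lab z = (2, i, j, c, v) := by
      intro v hv hok
      obtain ⟨z, hz⟩ := (hval (2, i, j, c, v)).1
        (Or.inr (Or.inr (Or.inl ⟨i, hi, j, hj, c, hc, v, hv, hok, rfl⟩)))
      exact ⟨z, fun hzS => hno v hv hok z hzS hz, hz⟩
    have key : ∀ v ≤ n, (∀ w < v, okB n x i j c w = false) ∨
        ∃ w < v, okB n x i j c w = true ∧ (∀ w', w < w' → w' < v → okB n x i j c w' = false) ∧
          ∃ (z : V) (hz : z ∉ S), lab z = (2, i, j, c, w) ∧ H.Reachable ⟨g c, h1⟩ ⟨z, hz⟩ := by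
      intro v
      induction v with
      | zero => intro _; exact Or.inl (fun w hw => absurd hw (by omega))
      | succ v ih =>
        intro hv
        by_cases hok : okB n x i j c v = true
        · obtain ⟨z, hz, hzl⟩ := hex v (by omega) hok
          refine Or.inr ⟨v, by omega, hok, fun w' h1 h2 => by omega, z, hz, hzl, ?_⟩
          rcases ih (by omega) with h3 | ⟨w, hw, -, h4, y, hy, hyl, h5⟩
          · apply hadj
            rw [hl1, hzl]
            have h6 : gap n x i j c 0 v = true := (gap_iff hx).2 (fun w _ _ hw => h3 w hw)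
            simp [bd, h6]
          · refine h5.trans (hadj _ _ _ _ ?_)
            rw [hyl, hzl]
            have h6 : gap n x i j c (w + 1) v = true :=
              (gap_iff hx).2 (fun w' _ h7 h8 => h4 w' (by omega) h8)
            simp [bd, h6, hw]
        · have hok' : okB n x i j c v = false := by simpa using hok
          rcases ih (by omega) with h3 | ⟨w, hw, h0, h4, h5⟩
          · refine Or.inl fun w hw => ?_
            by_cases hwv : w = v
            · rw [hwv]; exact hok'
            · exact h3 w (by omega)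
          · refine Or.inr ⟨w, by omega, h0, fun w' h6 h7 => ?_, h5⟩
            by_cases hwv : w' = v
            · rw [hwv]; exact hok'
            · exact h4 w' h6 (by omega)
    rcases key n le_rfl with h3 | ⟨w, hw, -, h4, y, hy, hyl, h5⟩
    · apply hadj
      rw [hl1, hl2]
      have h6 : gap n x i j c 0 n = true := (gap_iff hx).2 (fun w _ _ hw => h3 w hw)
      have h7 : (List.range k).any (fun j => gap n x i j c 0 n) = true :=
        List.any_eq_true.2 ⟨j, List.mem_range.2 hj, h6⟩
      simp only [bd, h7]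
      simp
    · refine h5.trans (hadj _ _ _ _ ?_)
      rw [hyl, hl2]
      have h6 : gap n x i j c (w + 1) n = true :=
        (gap_iff hx).2 (fun w' _ h7 h8 => h4 w' (by omega) h8)
      simp [bd, h6]
  have hall : ∀ c, ∀ hc : c ≤ n, H.Reachable ⟨g 0, hgS 0 (by omega)⟩ ⟨g c, hgS c hc⟩ := by
    intro c
    induction c with
    | zero => intro _; exact SimpleGraph.Reachable.refl _
    | succ c ih =>
      intro hc
      exact (ih (by omega)).trans (hgroup c (by omega) _ _)
  apply hsep
  refine (hadj s (g 0) hsS (hgS 0 (by omega)) ?_).trans ((hall n le_rfl).trans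
    (hadj (g n) t (hgS n le_rfl) htS ?_))
  · rw [hs, hgr 0 (by omega)]
    simp [bd]
  · rw [ht, hgr n le_rfl]
    simp [bd]

include hx hval hG in
/-- The choice of a pair in each cell cuts one colour. -/
theorem half_sep {s t : V} (hs : lab s = sL) (ht : lab t = tL) {c : ℕ → ℕ} (hc : ∀ i < k, c i < n)
    (hok : ∀ i < k, ∀ j < k, okB n x i j (c i) (c j) = true) {S : Finset V}
    (hS : ∀ z, (∃ i < k, ∃ j < k, lab z = (2, i, j, c i, c j)) → z ∈ S)
    (hsS : s ∉ S) (htS : t ∉ S) : ¬ (G.induce {v | v ∉ S}).Reachable ⟨s, hsS⟩ ⟨t, htS⟩ := by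
  -- the side of `s`
  set f : VL → Prop := fun a => a = sL ∨ (a.1 = 3 ∧ a.2.2.1 ≤ c a.2.1) ∨
    (a.1 = 2 ∧ (a.2.2.2.1 < c a.2.1 ∨ (a.2.2.2.1 = c a.2.1 ∧ a.2.2.2.2 < c a.2.2.1))) with hf
  have hdir : ∀ a b : VL, Val n k x a → Val n k x b → (∀ i < k, ∀ j < k, a ≠ (2, i, j, c i, c j)) →
      (∀ i < k, ∀ j < k, b ≠ (2, i, j, c i, c j)) → bd n k x a b = true → (f a ↔ f b) := by
    intro a b ha hb ha' hb' hab
    have hgap : ∀ {i j u p q : ℕ}, gap n x i j u p q = true →
      ∀ w < n, p ≤ w → w < q → okB n x i j u w = false := fun h => (gap_iff hx).1 h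
    rcases ha with rfl | rfl | ⟨i, hi, j, hj, u, hu, v, hv, h, rfl⟩ | ⟨i, hi, d, hd, r, hr, rfl⟩ |
      ⟨i, hi, d, hd, r, hr, rfl⟩ <;>
    rcases hb with rfl | rfl | ⟨i', hi', j', hj', u', hu', v', hv', h', rfl⟩ |
      ⟨i', hi', d', hd', r', hr', rfl⟩ | ⟨i', hi', d', hd', r', hr', rfl⟩ <;>
    simp [bd, sL, tL] at hab <;> simp only [hf, sL, tL, Prod.mk.injEq]
    · -- s to backbone
      simp [hab]
    · -- cell to cell
      obtain ⟨rfl, rfl, rfl, h1, h2⟩ := hab
      have h2 := hgap h2
      have h3 := hok i hi j hj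
      have h4 := hc j hj
      simp only [show ¬ ((2 : ℕ) = 0) by norm_num, show ¬ ((2 : ℕ) = 3) by norm_num, false_and,
        false_or, true_and]
      by_cases hu' : u = c i
      · subst hu'
        have h5 : v ≠ c j := fun h => ha' i hi j hj (by rw [h])
        have h6 : v' ≠ c j := fun h => hb' i hi j hj (by rw [h])
        constructor
        · rintro (h7 | ⟨-, h7⟩)
          · omega
          · refine Or.inr ⟨rfl, ?_⟩
            by_contra h8
            have := h2 (c j) h4 (by omega) (by omega)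
            rw [h3] at this
            cases this
        · rintro (h7 | ⟨-, h7⟩)
          · omega
          · exact Or.inr ⟨rfl, by omega⟩
      · omega
    · -- cell to backbone
      obtain ⟨rfl, rfl, h2⟩ := hab
      have h2 := hgap h2
      have h3 := hok i hi j hj
      have h4 := hc j hj
      simp only [show ¬ ((2 : ℕ) = 0) by norm_num, show ¬ ((2 : ℕ) = 3) by norm_num,
        show ¬ ((3 : ℕ) = 0) by norm_num, show ¬ ((3 : ℕ) = 2) by norm_num, false_and,
        false_or, true_and, or_false]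
      by_cases hu' : u = c i
      · have h5 : v ≠ c j := fun h => ha' i hi j hj (by rw [h, hu'])
        constructor
        · rintro (h7 | ⟨-, h7⟩)
          · omega
          · exfalso
            have := h2 (c j) h4 (by omega) (by omega)
            rw [hu', h3] at this
            cases this
        · intro h7
          omega
      · omega
    · -- backbone to t
      simp only [show ¬ ((3 : ℕ) = 0) by norm_num, show ¬ ((3 : ℕ) = 2) by norm_num,
        show ¬ ((1 : ℕ) = 0) by norm_num, show ¬ ((1 : ℕ) = 2) by norm_num,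
        show ¬ ((1 : ℕ) = 3) by norm_num, false_and, false_or, true_and, or_false, iff_false]
      have := hc i hi
      omega
    · -- backbone to cell
      obtain ⟨rfl, rfl, h2⟩ := hab
      have h2 := hgap h2
      have h3 := hok i hi j' hj'
      have h4 := hc j' hj'
      simp only [show ¬ ((2 : ℕ) = 0) by norm_num, show ¬ ((2 : ℕ) = 3) by norm_num,
        show ¬ ((3 : ℕ) = 0) by norm_num, show ¬ ((3 : ℕ) = 2) by norm_num, false_and,
        false_or, true_and, or_false]
      by_cases hu' : d = c i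
      · have h5 : v' ≠ c j' := fun h => hb' i hi j' hj' (by rw [h, hu'])
        constructor
        · intro _
          refine Or.inr ⟨hu', ?_⟩
          by_contra h8
          have := h2 (c j') h4 (by omega) (by omega)
          rw [hu', h3] at this
          cases this
        · intro _
          omega
      · omega
    · -- backbone to backbone
      obtain ⟨rfl, rfl, j, hj, h2⟩ := hab
      have h2 := hgap h2
      have h3 := hok i hi j hj
      have h4 := hc j hj
      simp only [show ¬ ((3 : ℕ) = 0) by norm_num, show ¬ ((3 : ℕ) = 2) by norm_num, false_and,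
        false_or, true_and, or_false]
      have h5 : d ≠ c i := by
        rintro rfl
        have := h2 (c j) h4 (by omega) (by omega)
        rw [h3] at this
        cases this
      omega
  intro hreach
  have hcell : ∀ z : V, z ∉ S → ∀ i < k, ∀ j < k, lab z ≠ (2, i, j, c i, c j) :=
    fun z hz i hi j hj h => hz (hS z ⟨i, hi, j, hj, h⟩)
  have h1 := reach_const (G := G.induce {v | v ∉ S}) (fun z => f (lab z.1)) (by
    rintro ⟨a, ha⟩ ⟨b, hb⟩ hab
    rw [SimpleGraph.comap_adj] at hab
    simp only [Function.Embedding.subtype_apply] at hab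
    rw [hG] at hab
    unfold bs at hab
    rw [Bool.or_eq_true] at hab
    have hva := (hval (lab a)).2 ⟨a, rfl⟩
    have hvb := (hval (lab b)).2 ⟨b, rfl⟩
    rcases hab with hab | hab
    · exact hdir _ _ hva hvb (hcell a ha) (hcell b hb) hab
    · exact (hdir _ _ hvb hva (hcell b hb) (hcell a ha) hab).symm) hreach
  simp only [hs, ht] at h1
  have h2 : f sL := Or.inl rfl
  have h3 : ¬ f tL := by
    simp [hf, sL, tL]
  exact h3 (h1.1 h2)

end Half

/-! ### Both colours -/

theorem core {V : Type} [Fintype V] [DecidableEq V] {n k : ℕ} {x : List Bool}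
    (hx : x.length = n * n)
    {lab : V → VL} (hinj : Function.Injective lab) (hval : ∀ a, Val n k x a ↔ ∃ v, lab v = a)
    {Gb Gr : SimpleGraph V} (hb : ∀ a b, Gb.Adj a b ↔ bs n k x (lab a) (lab b) = true)
    (hr : ∀ a b, Gr.Adj a b ↔ bs n k x (tw (lab a)) (tw (lab b)) = true)
    {s t : V} (hs : lab s = sL) (ht : lab t = tL) :
    (∃ S : Finset V, S.card ≤ k * k ∧ IsDualSeparator Gb Gr s t S) ↔
      ∃ u : ℕ → ℕ, (∀ i < k, u i < n) ∧ ∀ i < k, ∀ j < k, i ≠ j → adjB n x (u i) (u j) = true := by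
  classical
  have hVal : ∀ v, Val n k x (lab v) := fun v => (hval _).2 ⟨v, rfl⟩
  -- the labels seen by the other colour
  have hinj' : Function.Injective (fun v => tw (lab v)) := by
    intro a b h
    simp only at h
    apply hinj
    rw [← tw_tw (hVal a), ← tw_tw (hVal b), h]
  have hval' : ∀ a, Val n k x a ↔ ∃ v, tw (lab v) = a := by
    intro a
    constructor
    · intro h
      obtain ⟨v, hv⟩ := (hval _).1 h.tw
      exact ⟨v, by rw [hv, tw_tw h]⟩
    · rintro ⟨v, rfl⟩
      exact (hVal v).tw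
  have hs' : tw (lab s) = sL := by rw [hs]; rfl
  have ht' : tw (lab t) = tL := by rw [ht]; rfl
  have htw2 : ∀ v i j a b, tw (lab v) = (2, i, j, a, b) → lab v = (2, j, i, b, a) := by
    intro v i j a b h
    rw [← tw_tw (hVal v), h]
    simp [tw]
  constructor
  · rintro ⟨S, hScard, hsS, htS, h1, h2⟩
    have hB : ∀ i : ℕ, ∃ c, i < k → c < n ∧ ∀ j < k, ∃ v < n, okB n x i j c v = true ∧
        ∃ z ∈ S, lab z = (2, i, j, c, v) := by
      intro i
      by_cases hi : i < k
      · obtain ⟨c, hc, h⟩ := row_cut hx hinj hval hb hs ht hScard hsS htS h1 hi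
        exact ⟨c, fun _ => ⟨hc, h⟩⟩
      · exact ⟨0, fun h => absurd h hi⟩
    have hR : ∀ i : ℕ, ∃ c, i < k → c < n ∧ ∀ j < k, ∃ v < n, okB n x i j c v = true ∧
        ∃ z ∈ S, tw (lab z) = (2, i, j, c, v) := by
      intro i
      by_cases hi : i < k
      · obtain ⟨c, hc, h⟩ := row_cut hx hinj' hval' hr hs' ht' hScard hsS htS h2 hi
        exact ⟨c, fun _ => ⟨hc, h⟩⟩
      · exact ⟨0, fun h => absurd h hi⟩
    choose c hc using hB
    choose d hd using hR
    have hB2 : ∀ i j : Fin k, ∃ v z, okB n x i j (c i) v = true ∧ z ∈ S ∧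
        lab z = (2, i.1, j.1, c i, v) := by
      intro i j
      obtain ⟨v, -, h3, z, hz, h4⟩ := (hc i.1 i.2).2 j.1 j.2
      exact ⟨v, z, h3, hz, h4⟩
    choose v z hok hzS hzl using hB2
    set Φ : Fin k × Fin k → V := fun p => z p.1 p.2 with hΦ
    have hΦi : Function.Injective Φ := by
      rintro ⟨i, j⟩ ⟨i', j'⟩ h
      have h3 := congrArg lab h
      simp only [hΦ, hzl, Prod.mk.injEq] at h3
      exact Prod.ext (Fin.ext h3.2.1) (Fin.ext h3.2.2.1)
    have himg : (Finset.univ : Finset (Fin k × Fin k)).image Φ = S := by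
      apply Finset.eq_of_subset_of_card_le
      · intro y hy
        rw [Finset.mem_image] at hy
        obtain ⟨p, -, rfl⟩ := hy
        exact hzS _ _
      · rw [Finset.card_image_of_injective _ hΦi, Finset.card_univ, Fintype.card_prod,
          Fintype.card_fin]
        exact hScard
    have hkey : ∀ i j : Fin k, v i j = d j := by
      intro i j
      obtain ⟨u, -, h3, y, hy, h4⟩ := (hd j.1 j.2).2 i.1 i.2
      have h5 := htw2 _ _ _ _ _ h4
      rw [← himg, Finset.mem_image] at hy
      obtain ⟨⟨i', j'⟩, -, rfl⟩ := hy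
      simp only [hΦ, hzl, Prod.mk.injEq] at h5
      obtain ⟨-, h6, h7, h8, h9⟩ := h5
      have h10 : i' = i := Fin.ext h6
      have h11 : j' = j := Fin.ext h7
      subst h10 h11
      exact h9
    have hdiag : ∀ i : Fin k, c i = d i := by
      intro i
      have h3 := hok i i
      rw [hkey] at h3
      unfold okB at h3
      simpa using h3
    refine ⟨c, fun i hi => (hc i hi).1, fun i hi j hj hij => ?_⟩
    have h3 := hok ⟨i, hi⟩ ⟨j, hj⟩
    rw [hkey, ← hdiag] at h3
    unfold okB at h3
    simpa [hij] using h3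
  · rintro ⟨c, hc, hadj⟩
    have hok : ∀ i < k, ∀ j < k, okB n x i j (c i) (c j) = true := by
      intro i hi j hj
      unfold okB
      by_cases hij : i = j
      · subst hij
        simp
      · simpa [hij] using hadj i hi j hj hij
    have hex : ∀ p : Fin k × Fin k, ∃ z, lab z = (2, p.1.1, p.2.1, c p.1, c p.2) := fun p =>
      (hval _).1 (Or.inr (Or.inr (Or.inl ⟨p.1, p.1.2, p.2, p.2.2, _, hc _ p.1.2, _, hc _ p.2.2,
        hok _ p.1.2 _ p.2.2, rfl⟩)))
    choose Z hZ using hex
    set S : Finset V := Finset.univ.image Z with hS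
    have hsS : s ∉ S := by
      intro h
      rw [hS, Finset.mem_image] at h
      obtain ⟨p, -, h3⟩ := h
      have h4 := hZ p
      rw [h3, hs] at h4
      simp [sL] at h4
    have htS : t ∉ S := by
      intro h
      rw [hS, Finset.mem_image] at h
      obtain ⟨p, -, h3⟩ := h
      have h4 := hZ p
      rw [h3, ht] at h4
      simp [tL] at h4
    refine ⟨S, ?_, hsS, htS, ?_, ?_⟩
    · refine Finset.card_image_le.trans ?_
      rw [Finset.card_univ, Fintype.card_prod, Fintype.card_fin]
    · apply half_sep hx hval hb hs ht hc hok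
      rintro y ⟨i, hi, j, hj, h⟩
      have h3 := hZ (⟨i, hi⟩, ⟨j, hj⟩)
      have h4 : y = Z (⟨i, hi⟩, ⟨j, hj⟩) := hinj (h.trans h3.symm)
      rw [h4, hS]
      exact Finset.mem_image_of_mem _ (Finset.mem_univ _)
    · apply half_sep hx hval' hr hs' ht' hc hok
      rintro y ⟨i, hi, j, hj, h⟩
      have h3 := hZ (⟨j, hj⟩, ⟨i, hi⟩)
      have h4 : y = Z (⟨j, hj⟩, ⟨i, hi⟩) := hinj ((htw2 _ _ _ _ _ h).trans h3.symm)
      rw [h4, hS]
      exact Finset.mem_image_of_mem _ (Finset.mem_univ _)

end Pool.Agent.X239.DS
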