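import Pool.Agent.H557R2.FptDefs

/-!
# Dual separators in edge-bicolored graphs: definitions
-/

namespace Pool.Agent.X239.DS

open Pool.Agent.NPC Pool.Agent.H557R2.Fpt

/-- The entry of a matrix given as a list of rows (`0` if it is missing). -/
def ent (M : List (List ℕ)) (a b : ℕ) : ℕ := (M.getD a []).getD b 0

/-- The edges of colour `c` of the edge-colored graph given by the matrix `M`: the vertices are
`0, ..., M.length - 1`, and for `a < b` the entry `(a, b)` of `M` is `1` if `ab` is a blue edge, `2`
if it is a red edge, and another number if it is not an edge. -/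
def colGraph (M : List (List ℕ)) (c : ℕ) : SimpleGraph (Fin M.length) where
  Adj a b := a ≠ b ∧ ent M (min a.1 b.1) (max a.1 b.1) = c
  symm := ⟨fun a b h => ⟨h.1.symm, by rw [min_comm, max_comm]; exact h.2⟩⟩
  loopless := ⟨fun _ h => h.1 rfl⟩

/-- `S` is a dual `(s, t)`-separator: it contains neither `s` nor `t`, and `s` and `t` lie in
different components of the blue graph minus `S` and also of the red graph minus `S`. -/
def IsDualSeparator {V : Type} (Gb Gr : SimpleGraph V) (s t : V) (S : Finset V) : Prop :=
  ∃ (hs : s ∉ S) (ht : t ∉ S),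
    ¬ (Gb.induce {v | v ∉ S}).Reachable ⟨s, hs⟩ ⟨t, ht⟩ ∧
    ¬ (Gr.induce {v | v ∉ S}).Reachable ⟨s, hs⟩ ⟨t, ht⟩

/-- Dual Separator for Two Terminals, parameterized by the size `k` of the separator. An instance
is (the code of) `(M, s, t)`: an edge-bicolored graph given by its matrix, and two different
vertices. -/
def dualSeparator : PProblem :=
  {y | ∃ (M : List (List ℕ)) (s t : ℕ) (hs : s < M.length) (ht : t < M.length), s ≠ t ∧
    bits (M, s, t) = y.1 ∧ ∃ S : Finset (Fin M.length), S.card ≤ y.2 ∧
      IsDualSeparator (colGraph M 1) (colGraph M 2) ⟨s, hs⟩ ⟨t, ht⟩ S}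

end Pool.Agent.X239.DS
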