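import Pool.Agent.X239.DSCore
import Pool.Agent.H557R2.Mve.Red
import Pool.Agent.H557R2.FptDec

/-!
# Dual separators: the fpt-reduction from Clique
-/

namespace Pool.Agent.X239.DS

open Pool.Agent.NPC Pool.Agent.H557R2.Fpt
open Pool.Agent.H557R2.Mve (adjB findn findn_some findn_none poly_findn poly_bits mem_pClique_iff
  bits_ne_nil not_cliqueFree_iff' poly_adjB Inp)

/-- The list of the labels. -/
def vs (n k : ℕ) (x : List Bool) : List VL :=
  sL :: tL :: ((List.range k).flatMap fun i =>
    ((List.range k).flatMap fun j => (rg n x).flatMap fun u =>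
      ((rg n x).filter fun v => okB n x i j u v).map fun v => ((2, i, j, u, v) : VL)) ++
    ((List.range (min n x.length + 1)).flatMap fun c => (List.range (k * k + 1)).flatMap fun r =>
      [((3, i, c, r, 0) : VL), (4, i, c, r, 0)]))

theorem rg_eq {n : ℕ} {x : List Bool} (hx : x.length = n * n) : rg n x = List.range n := by
  unfold rg
  rw [hx, min_eq_left (Nat.le_mul_self n)]

theorem mem_vs {n k : ℕ} {x : List Bool} (hx : x.length = n * n) (a : VL) :
    a ∈ vs n k x ↔ Val n k x a := by
  have hmin : min n x.length = n := by rw [hx]; exact min_eq_left (Nat.le_mul_self n)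
  unfold vs Val
  rw [rg_eq hx, hmin]
  simp only [List.mem_cons, List.mem_flatMap, List.mem_append, List.mem_range, List.mem_map,
    List.mem_filter, List.not_mem_nil, or_false]
  constructor
  · rintro (h | h | ⟨i, hi, ⟨j, hj, u, hu, v, ⟨hv, hok⟩, h⟩ | ⟨c, hc, r, hr, h | h⟩⟩)
    · exact Or.inl h
    · exact Or.inr (Or.inl h)
    · exact Or.inr (Or.inr (Or.inl ⟨i, hi, j, hj, u, hu, v, hv, hok, h.symm⟩))
    · exact Or.inr (Or.inr (Or.inr (Or.inl ⟨i, hi, c, by omega, r, by omega, h⟩)))
    · exact Or.inr (Or.inr (Or.inr (Or.inr ⟨i, hi, c, by omega, r, by omega, h⟩)))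
  · rintro (h | h | ⟨i, hi, j, hj, u, hu, v, hv, hok, h⟩ | ⟨i, hi, c, hc, r, hr, h⟩ |
      ⟨i, hi, c, hc, r, hr, h⟩)
    · exact Or.inl h
    · exact Or.inr (Or.inl h)
    · exact Or.inr (Or.inr ⟨i, hi, Or.inl ⟨j, hj, u, hu, v, ⟨hv, hok⟩, h.symm⟩⟩)
    · exact Or.inr (Or.inr ⟨i, hi, Or.inr ⟨c, by omega, r, by omega, Or.inl h⟩⟩)
    · exact Or.inr (Or.inr ⟨i, hi, Or.inr ⟨c, by omega, r, by omega, Or.inr h⟩⟩)

theorem vs_nodup (n k : ℕ) (x : List Bool) : (vs n k x).Nodup := by
  have h2 : ∀ i j u, (((rg n x).filter fun v => okB n x i j u v).map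
      fun v => ((2, i, j, u, v) : VL)).Nodup := by
    intro i j u
    refine (List.Nodup.filter _ (List.nodup_range)).map ?_
    intro v v' h
    simp only [Prod.mk.injEq] at h
    exact h.2.2.2.2
  unfold vs
  rw [List.nodup_cons, List.nodup_cons, List.nodup_flatMap]
  refine ⟨?_, ?_, ?_, ?_⟩
  · simp only [List.mem_cons, List.mem_flatMap, List.mem_append, List.mem_range, List.mem_map,
      List.mem_filter, List.not_mem_nil, or_false, sL, tL, Prod.mk.injEq, zero_ne_one, false_and,
      false_or, not_exists, not_and, not_or]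
    intro i _
    refine ⟨fun j _ u _ v _ h => absurd h (by norm_num), fun c _ r _ => ⟨fun h => absurd h (by
      norm_num), fun h => absurd h (by norm_num)⟩⟩
  · simp only [List.mem_cons, List.mem_flatMap, List.mem_append, List.mem_range, List.mem_map,
      List.mem_filter, List.not_mem_nil, or_false, tL, Prod.mk.injEq, not_exists, not_and, not_or]
    intro i _
    refine ⟨fun j _ u _ v _ h => absurd h (by norm_num), fun c _ r _ => ⟨fun h => absurd h (by
      norm_num), fun h => absurd h (by norm_num)⟩⟩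
  · intro i _
    rw [List.nodup_append]
    refine ⟨?_, ?_, ?_⟩
    · rw [List.nodup_flatMap]
      refine ⟨fun j _ => ?_, ?_⟩
      · rw [List.nodup_flatMap]
        refine ⟨fun u _ => h2 i j u, ?_⟩
        refine List.Pairwise.imp ?_ (List.nodup_range)
        intro u u' hne a ha ha'
        rw [List.mem_map] at ha ha'
        obtain ⟨v, -, rfl⟩ := ha
        obtain ⟨v', -, h⟩ := ha'
        simp only [Prod.mk.injEq] at h
        exact hne h.2.2.2.1.symm
      · refine List.Pairwise.imp ?_ (List.nodup_range)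
        intro j j' hne a ha ha'
        rw [List.mem_flatMap] at ha ha'
        obtain ⟨u, -, ha⟩ := ha
        obtain ⟨u', -, ha'⟩ := ha'
        rw [List.mem_map] at ha ha'
        obtain ⟨v, -, rfl⟩ := ha
        obtain ⟨v', -, h⟩ := ha'
        simp only [Prod.mk.injEq] at h
        exact hne h.2.2.1.symm
    · rw [List.nodup_flatMap]
      refine ⟨fun c _ => ?_, ?_⟩
      · rw [List.nodup_flatMap]
        refine ⟨fun r _ => by simp, ?_⟩
        refine List.Pairwise.imp ?_ (List.nodup_range)
        intro r r' hne a ha ha'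
        simp only [List.mem_cons, List.not_mem_nil, or_false] at ha ha'
        rcases ha with rfl | rfl <;> rcases ha' with h | h <;> simp only [Prod.mk.injEq] at h
        · exact hne h.2.2.2.1
        · omega
        · omega
        · exact hne h.2.2.2.1
      · refine List.Pairwise.imp ?_ (List.nodup_range)
        intro c c' hne a ha ha'
        rw [List.mem_flatMap] at ha ha'
        obtain ⟨r, -, ha⟩ := ha
        obtain ⟨r', -, ha'⟩ := ha'
        simp only [List.mem_cons, List.not_mem_nil, or_false] at ha ha'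
        rcases ha with rfl | rfl <;> rcases ha' with h | h <;> simp only [Prod.mk.injEq] at h
        · exact hne h.2.2.1
        · omega
        · omega
        · exact hne h.2.2.1
    · intro a ha b hb
      simp only [List.mem_flatMap, List.mem_map, List.mem_cons, List.not_mem_nil, or_false] at ha hb
      obtain ⟨j, -, u, -, v, -, rfl⟩ := ha
      obtain ⟨c, -, r, -, rfl | rfl⟩ := hb <;> simp
  · refine List.Pairwise.imp ?_ (List.nodup_range)
    intro i i' hne a ha ha'
    simp only [List.mem_append, List.mem_flatMap, List.mem_map, List.mem_cons, List.not_mem_nil,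
      or_false] at ha ha'
    have h1 : a.2.1 = i := by
      rcases ha with ⟨j, -, u, -, v, -, rfl⟩ | ⟨c, -, r, -, rfl | rfl⟩ <;> rfl
    have h2 : a.2.1 = i' := by
      rcases ha' with ⟨j, -, u, -, v, -, rfl⟩ | ⟨c, -, r, -, rfl | rfl⟩ <;> rfl
    exact hne (h1.symm.trans h2)

/-- The colour of a pair. -/
def clr (n k : ℕ) (x : List Bool) (a b : VL) : ℕ :=
  if bs n k x a b then 1 else if bs n k x (tw a) (tw b) then 2 else 0

/-- The matrix. -/
def mtx (n k : ℕ) (x : List Bool) : List (List ℕ) :=
  (vs n k x).map fun a => (vs n k x).map fun b => clr n k x a b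

theorem mtx_length (n k : ℕ) (x : List Bool) : (mtx n k x).length = (vs n k x).length := by
  simp [mtx]

theorem ent_mtx {n k : ℕ} {x : List Bool} {a b : ℕ} (ha : a < (vs n k x).length)
    (hb : b < (vs n k x).length) :
    ent (mtx n k x) a b = clr n k x ((vs n k x)[a]) ((vs n k x)[b]) := by
  unfold ent mtx
  rw [List.getD_eq_getElem?_getD (l := List.map _ _), List.getElem?_map,
    List.getElem?_eq_getElem ha]
  simp only [Option.map_some, Option.getD_some]
  rw [List.getD_eq_getElem?_getD, List.getElem?_map, List.getElem?_eq_getElem hb]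
  simp

theorem bs_comm (n k : ℕ) (x : List Bool) (a b : VL) : bs n k x a b = bs n k x b a := by
  unfold bs
  rw [Bool.or_comm]

theorem clr_comm (n k : ℕ) (x : List Bool) (a b : VL) : clr n k x a b = clr n k x b a := by
  unfold clr
  rw [bs_comm n k x a b, bs_comm n k x (tw a) (tw b)]

/-- No edge has both colours. -/
theorem bs_excl {n k : ℕ} {x : List Bool} {a b : VL} (ha : Val n k x a) (hb : Val n k x b)
    (h : bs n k x a b = true) : bs n k x (tw a) (tw b) = false := by
  have key : ∀ a b : VL, Val n k x a → Val n k x b → bd n k x a b = true →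
      bd n k x (tw a) (tw b) = false ∧ bd n k x (tw b) (tw a) = false := by
    intro a b ha hb h
    rcases ha with rfl | rfl | ⟨i, hi, j, hj, u, hu, v, hv, h, rfl⟩ | ⟨i, hi, d, hd, r, hr, rfl⟩ |
      ⟨i, hi, d, hd, r, hr, rfl⟩ <;>
    rcases hb with rfl | rfl | ⟨i', hi', j', hj', u', hu', v', hv', h', rfl⟩ |
      ⟨i', hi', d', hd', r', hr', rfl⟩ | ⟨i', hi', d', hd', r', hr', rfl⟩ <;>
    simp [bd, sL, tL] at h <;> simp [bd, tw, sL, tL]
    obtain ⟨rfl, rfl, rfl, h1, h2⟩ := h
    exact ⟨fun _ _ h => absurd h (by omega), fun _ _ h => absurd h.symm (by omega)⟩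
  unfold bs at h ⊢
  rw [Bool.or_eq_true] at h
  rw [Bool.or_eq_false_iff]
  rcases h with h | h
  · exact key a b ha hb h
  · exact (key b a hb ha h).symm

theorem bs_irrefl (n k : ℕ) (x : List Bool) (a : VL) : bs n k x a a = false := by
  obtain ⟨t, i, j, u, v⟩ := a
  simp only [bs, bd, sL, tL, Bool.or_self, Prod.mk.injEq, lt_self_iff_false, decide_false,
    Bool.false_and, Bool.and_false, Bool.or_false]
  rw [Bool.or_eq_false_iff, Bool.or_eq_false_iff, Bool.or_eq_false_iff, Bool.or_eq_false_iff]
  refine ⟨?_, ?_, ?_, ?_, ?_⟩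
  · by_cases h : t = 0
    · subst h; simp
    · simp [h]
  · by_cases h : t = 1
    · subst h; simp
    · simp [h]
  · by_cases h : t = 3
    · subst h; simp
    · simp [h]
  · by_cases h : t = 2
    · subst h; simp
    · simp [h]
  · simp

theorem clr_one {n k : ℕ} {x : List Bool} {a b : VL} : clr n k x a b = 1 ↔ bs n k x a b = true := by
  unfold clr
  by_cases h : bs n k x a b = true
  · simp [h]
  · rw [if_neg h]
    split_ifs <;> simp_all

theorem clr_two {n k : ℕ} {x : List Bool} {a b : VL} (ha : Val n k x a) (hb : Val n k x b) :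
    clr n k x a b = 2 ↔ bs n k x (tw a) (tw b) = true := by
  unfold clr
  by_cases h : bs n k x a b = true
  · rw [if_pos h, bs_excl ha hb h]
    simp
  · rw [if_neg h]
    split_ifs with h' <;> simp_all

/-- The graphs of the matrix. -/
theorem mtx_iff {n k : ℕ} {x : List Bool} (hx : x.length = n * n)
    (h0 : 0 < (mtx n k x).length) (h1 : 1 < (mtx n k x).length) :
    (∃ S : Finset (Fin (mtx n k x).length), S.card ≤ k * k ∧
      IsDualSeparator (colGraph (mtx n k x) 1) (colGraph (mtx n k x) 2) ⟨0, h0⟩ ⟨1, h1⟩ S) ↔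
      ∃ u : ℕ → ℕ, (∀ i < k, u i < n) ∧ ∀ i < k, ∀ j < k, i ≠ j → adjB n x (u i) (u j) = true := by
  have hlt : ∀ a : Fin (mtx n k x).length, a.1 < (vs n k x).length := fun a =>
    lt_of_lt_of_eq a.2 (mtx_length n k x)
  set lab : Fin (mtx n k x).length → VL := fun a => (vs n k x)[a.1]'(hlt a) with hlab
  have hVal : ∀ a, Val n k x (lab a) := fun a => (mem_vs hx _).1 (List.getElem_mem _)
  have hinj : Function.Injective lab := by
    intro a b h
    exact Fin.ext ((List.Nodup.getElem_inj_iff (vs_nodup n k x)).1 h)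
  refine core hx hinj ?_ ?_ ?_ (s := ⟨0, h0⟩) (t := ⟨1, h1⟩) ?_ ?_
  · intro a
    constructor
    · intro h
      obtain ⟨i, hi, hia⟩ := List.getElem_of_mem ((mem_vs hx a).2 h)
      exact ⟨⟨i, by rw [mtx_length]; exact hi⟩, hia⟩
    · rintro ⟨v, rfl⟩
      exact hVal v
  · intro a b
    change (a ≠ b ∧ _) ↔ _
    have hclr : ent (mtx n k x) (min a.1 b.1) (max a.1 b.1) = clr n k x (lab a) (lab b) := by
      rcases le_total a.1 b.1 with h | h
      · rw [min_eq_left h, max_eq_right h, ent_mtx (hlt a) (hlt b)]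
      · rw [min_eq_right h, max_eq_left h, ent_mtx (hlt b) (hlt a), clr_comm]
    rw [hclr, clr_one]
    constructor
    · exact fun h => h.2
    · intro h
      refine ⟨?_, h⟩
      rintro rfl
      rw [bs_irrefl] at h
      cases h
  · intro a b
    change (a ≠ b ∧ _) ↔ _
    have hclr : ent (mtx n k x) (min a.1 b.1) (max a.1 b.1) = clr n k x (lab a) (lab b) := by
      rcases le_total a.1 b.1 with h | h
      · rw [min_eq_left h, max_eq_right h, ent_mtx (hlt a) (hlt b)]
      · rw [min_eq_right h, max_eq_left h, ent_mtx (hlt b) (hlt a), clr_comm]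
    rw [hclr, clr_two (hVal a) (hVal b)]
    constructor
    · exact fun h => h.2
    · intro h
      refine ⟨?_, h⟩
      rintro rfl
      rw [bs_irrefl] at h
      cases h
  · rfl
  · rfl

/-! ### Polynomial time -/

section

variable {α : Type} [TEnc α]

theorem poly_okB {n i j u v : α → ℕ} {x : α → List Bool} (hn : Poly n) (hx : Poly x) (hi : Poly i)
    (hj : Poly j) (hu : Poly u) (hv : Poly v) :
    Poly (fun a => okB (n a) (x a) (i a) (j a) (u a) (v a)) := by
  unfold okB
  have h := poly_adjB hn hx hu hv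
  fun_prop

theorem poly_rg {n : α → ℕ} {x : α → List Bool} (hn : Poly n) (hx : Poly x) :
    Poly (fun a => rg (n a) (x a)) := by
  unfold rg
  have h : UPoly (fun a => min (n a) (x a).length) :=
    UPoly.of_le (Poly.min hn (Poly.length hx)) (UPoly.length hx) (fun a => min_le_right _ _)
  exact h.range

theorem poly_gap {n i j u p q : α → ℕ} {x : α → List Bool} (hn : Poly n) (hx : Poly x)
    (hi : Poly i) (hj : Poly j) (hu : Poly u) (hp : Poly p) (hq : Poly q) :
    Poly (fun a => gap (n a) (x a) (i a) (j a) (u a) (p a) (q a)) := by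
  unfold gap
  refine Poly.all (p := fun a w => !(decide (p a ≤ w) && (decide (w < q a) &&
    okB (n a) (x a) (i a) (j a) (u a) w))) (poly_rg hn hx) ?_
  have h := poly_okB (hn.comp (Poly.fst NPC.Poly.id)) (hx.comp (Poly.fst NPC.Poly.id))
    (hi.comp (Poly.fst NPC.Poly.id)) (hj.comp (Poly.fst NPC.Poly.id))
    (hu.comp (Poly.fst NPC.Poly.id)) (Poly.snd (NPC.Poly.id (α := α × ℕ)))
  fun_prop

theorem poly_bd {n : α → ℕ} {kk : α → List Unit} {x : α → List Bool} {a b : α → VL} (hn : Poly n)
    (hk : Poly kk) (hx : Poly x) (ha : Poly a) (hb : Poly b) :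
    Poly (fun t => bd (n t) (kk t).length (x t) (a t) (b t)) := by
  unfold bd
  have g1 := poly_gap (n := n) (x := x) (i := fun t => (b t).2.1) (j := fun t => (b t).2.2.1)
    (u := fun t => (b t).2.2.2.1) (p := fun _ => 0) (q := fun t => (b t).2.2.2.2) hn hx
    (by fun_prop) (by fun_prop) (by fun_prop) (by fun_prop) (by fun_prop)
  have g2 := poly_gap (n := n) (x := x) (i := fun t => (a t).2.1) (j := fun t => (a t).2.2.1)
    (u := fun t => (a t).2.2.2.1) (p := fun t => (a t).2.2.2.2 + 1) (q := n) hn hx
    (by fun_prop) (by fun_prop) (by fun_prop) (by fun_prop) (by fun_prop)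
  have g3 := poly_gap (n := n) (x := x) (i := fun t => (a t).2.1) (j := fun t => (a t).2.2.1)
    (u := fun t => (a t).2.2.2.1) (p := fun t => (a t).2.2.2.2 + 1)
    (q := fun t => (b t).2.2.2.2) hn hx
    (by fun_prop) (by fun_prop) (by fun_prop) (by fun_prop) (by fun_prop)
  have g4 : Poly (fun t => (List.range (kk t).length).any
      (fun j => gap (n t) (x t) (a t).2.1 j (a t).2.2.1 0 (n t))) := by
    refine Poly.any (p := fun t j => gap (n t) (x t) (a t).2.1 j (a t).2.2.1 0 (n t))
      (Poly.range_length hk) ?_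
    exact poly_gap (hn.comp (Poly.fst NPC.Poly.id)) (hx.comp (Poly.fst NPC.Poly.id))
      (by fun_prop) (by fun_prop) (by fun_prop) (by fun_prop) (by fun_prop)
  fun_prop

theorem poly_bs {n : α → ℕ} {kk : α → List Unit} {x : α → List Bool} {a b : α → VL} (hn : Poly n)
    (hk : Poly kk) (hx : Poly x) (ha : Poly a) (hb : Poly b) :
    Poly (fun t => bs (n t) (kk t).length (x t) (a t) (b t)) := by
  unfold bs
  exact Poly.or (poly_bd hn hk hx ha hb) (poly_bd hn hk hx hb ha)

theorem poly_tw {a : α → VL} (ha : Poly a) : Poly (fun t => tw (a t)) := by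
  unfold tw
  fun_prop

theorem poly_clr {n : α → ℕ} {kk : α → List Unit} {x : α → List Bool} {a b : α → VL} (hn : Poly n)
    (hk : Poly kk) (hx : Poly x) (ha : Poly a) (hb : Poly b) :
    Poly (fun t => clr (n t) (kk t).length (x t) (a t) (b t)) := by
  unfold clr
  have h1 := poly_bs hn hk hx ha hb
  have h2 := poly_bs hn hk hx (poly_tw ha) (poly_tw hb)
  fun_prop

end

theorem poly_vs : Poly (fun p : Inp => vs p.1 p.2.2.length p.2.1) := by
  unfold vs
  have hr : Poly (fun p : Inp => List.range p.2.2.length) :=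
    Poly.range_length (Poly.snd (Poly.snd NPC.Poly.id))
  have hrg : Poly (fun p : Inp => rg p.1 p.2.1) := poly_rg (by fun_prop) (by fun_prop)
  have hrg1 : Poly (fun p : Inp => List.range (min p.1 p.2.1.length + 1)) := by
    have h : UPoly (fun a : Inp => min a.1 a.2.1.length) :=
      UPoly.of_le (Poly.min (by fun_prop) (by fun_prop)) (UPoly.length (by fun_prop))
        (fun a => min_le_right _ _)
    exact (h.add (UPoly.const 1)).range
  have hrk : Poly (fun p : Inp => List.range (p.2.2.length * p.2.2.length + 1)) := by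
    have h1 : UPoly (fun p : Inp => p.2.2.length) := UPoly.length (by fun_prop)
    exact ((h1.mul h1).add (UPoly.const 1)).range
  refine Poly.cons (NPC.Poly.const _) (Poly.cons (NPC.Poly.const _) (Poly.flatMap hr
    (Poly.append ?_ ?_)))
  · refine Poly.flatMap (hr.comp (Poly.fst NPC.Poly.id)) (Poly.flatMap
      ((hrg.comp (Poly.fst NPC.Poly.id)).comp (Poly.fst NPC.Poly.id)) (NPC.Poly.map
        (Poly.filter (((hrg.comp (Poly.fst NPC.Poly.id)).comp (Poly.fst NPC.Poly.id)).comp
          (Poly.fst NPC.Poly.id)) ?_) ?_))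
    · exact poly_okB (by fun_prop) (by fun_prop) (by fun_prop) (by fun_prop) (by fun_prop)
        (by fun_prop)
    · fun_prop
  · refine Poly.flatMap (hrg1.comp (Poly.fst NPC.Poly.id)) (Poly.flatMap
      ((hrk.comp (Poly.fst NPC.Poly.id)).comp (Poly.fst NPC.Poly.id)) ?_)
    fun_prop

theorem poly_mtx : Poly (fun p : Inp => mtx p.1 p.2.2.length p.2.1) := by
  unfold mtx
  refine NPC.Poly.map poly_vs (NPC.Poly.map (poly_vs.comp (Poly.fst NPC.Poly.id)) ?_)
  exact poly_clr (by fun_prop) (by fun_prop) (by fun_prop) (by fun_prop) (by fun_prop)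

/-- The reduction, with the parameters in unary. -/
def redF (y : List Bool × List Unit) : List Bool × List Unit :=
  (findn y.1).elim (([], []) : List Bool × List Unit) fun n =>
    (bits ((mtx n y.2.length y.1, 0, 1) : List (List ℕ) × ℕ × ℕ),
      List.replicate (y.2.length * y.2.length) ())

theorem poly_redF : Poly redF := by
  unfold redF
  refine Poly.optElim (poly_findn.comp (Poly.fst NPC.Poly.id)) (NPC.Poly.const _) (Poly.pair
    (poly_bits ?_) ?_)
  · have h1 : Poly (fun p : (List Bool × List Unit) × ℕ => mtx p.2 p.1.2.length p.1.1) :=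
      poly_mtx.comp (f := fun p : (List Bool × List Unit) × ℕ => (p.2, p.1.1, p.1.2))
        (by fun_prop)
    fun_prop
  · have h1 : UPoly (fun p : (List Bool × List Unit) × ℕ => p.1.2.length) :=
      UPoly.length (by fun_prop)
    exact h1.mul h1

/-- The reduction. -/
def redP (y : List Bool × ℕ) : List Bool × ℕ :=
  ((redF (y.1, List.replicate y.2 ())).1, (redF (y.1, List.replicate y.2 ())).2.length)

theorem pc_redP : PC pcode pcode redP := by
  have h : PC (bits : List Bool × List Unit → List Bool) (bits : List Bool × List Unit → List Bool)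
    redF := poly_redF
  obtain ⟨c, p, h⟩ := h
  refine ⟨c, p, fun y => ?_⟩
  have h1 := h (y.1, List.replicate y.2 ())
  have e : pcode (redP y) = bits (redF (y.1, List.replicate y.2 ())) := by
    unfold pcode redP
    simp only
    congr 1
    refine Prod.ext rfl ?_
    simp only
    rw [eq_comm, List.eq_replicate_iff]
    exact ⟨rfl, fun _ _ => rfl⟩
  rw [e]
  exact h1

theorem redP_of_some {x : List Bool} {k n : ℕ} (h : findn x = some n) :
    redP (x, k) = (bits ((mtx n k x, 0, 1) : List (List ℕ) × ℕ × ℕ), k * k) := by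
  unfold redP redF
  simp only [h, Option.elim]
  simp

theorem redP_of_none {x : List Bool} {k : ℕ} (h : findn x = none) : redP (x, k) = ([], 0) := by
  unfold redP redF
  simp [h]

theorem redP_snd_le (x : List Bool) (k : ℕ) : (redP (x, k)).2 ≤ k * k := by
  cases h : findn x with
  | none => rw [redP_of_none h]; exact Nat.zero_le _
  | some n => rw [redP_of_some h]

theorem mem_iff {M : List (List ℕ)} {s t k : ℕ} (hs : s < M.length) (ht : t < M.length)
    (hst : s ≠ t) : ((bits (M, s, t), k) : List Bool × ℕ) ∈ dualSeparator ↔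
      ∃ S : Finset (Fin M.length), S.card ≤ k ∧
        IsDualSeparator (colGraph M 1) (colGraph M 2) ⟨s, hs⟩ ⟨t, ht⟩ S := by
  constructor
  · rintro ⟨M', s', t', hs', ht', -, h, h1⟩
    have h2 := bits_injective h
    simp only [Prod.mk.injEq] at h2
    obtain ⟨rfl, rfl, rfl⟩ := h2
    exact h1
  · intro h
    exact ⟨M, s, t, hs, ht, hst, rfl, h⟩

theorem redP_iff (x : List Bool) (k : ℕ) : (x, k) ∈ pClique ↔ redP (x, k) ∈ dualSeparator := by
  cases h : findn x with
  | none =>
    rw [redP_of_none h]
    constructor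
    · rintro ⟨n, hn, -⟩
      exact absurd hn (findn_none h n)
    · rintro ⟨M, s, t, hs, ht, -, h1, -⟩
      exact absurd h1 (bits_ne_nil _)
  | some n =>
    have h0 : 0 < (mtx n k x).length := by rw [mtx_length]; simp [vs]
    have h1 : 1 < (mtx n k x).length := by rw [mtx_length]; simp [vs]
    rw [redP_of_some h, mem_iff h0 h1 (by norm_num), mem_pClique_iff (findn_some h),
      mtx_iff (findn_some h) h0 h1, not_cliqueFree_iff']

theorem monotone_kk : Monotone fun k : ℕ => k * k := fun _ _ h => Nat.mul_le_mul h h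

theorem w1Hard : W1Hard dualSeparator :=
  w1Hard_of pc_redP (comp_mul Computable.id Computable.id) monotone_kk redP_snd_le redP_iff

end Pool.Agent.X239.DS
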