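import Pool.Agent.NPC.Defs
import Pool.Agent.NPC.Classes

/-!
# Even-nearly conservative arc weights: definitions
-/

namespace Pool.Agent.X239.ENC

/-- A weighted digraph, presented by the list of its vertices (natural numbers, in binary) and the
list of its weighted arcs: the entry `(u, v, c)` is the arc from `u` to `v`, of weight `c`. -/
abbrev WDigraph : Type := List ℕ × List (ℕ × ℕ × ℚ)

/-- The presentation is well formed: no vertex is listed twice, every arc joins two different
vertices, and there is at most one arc (hence one weight) for every ordered pair of vertices. -/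
def WellFormed (D : WDigraph) : Prop :=
  D.1.Nodup ∧ (∀ a ∈ D.2, a.1 ∈ D.1 ∧ a.2.1 ∈ D.1 ∧ a.1 ≠ a.2.1) ∧
    ∀ a ∈ D.2, ∀ b ∈ D.2, a.1 = b.1 → a.2.1 = b.2.1 → a = b

/-- The directed cycle with `m` arcs through the vertices `x 0, x 1, ..., x (m - 1), x m = x 0`,
where `c i` is the weight of the arc from `x i` to `x (i + 1)`. -/
def IsCycle (D : WDigraph) (m : ℕ) (x : ℕ → ℕ) (c : ℕ → ℚ) : Prop :=
  2 ≤ m ∧ x m = x 0 ∧ (∀ i < m, ∀ j < m, x i = x j → i = j) ∧
    ∀ i < m, (x i, x (i + 1), c i) ∈ D.2

/-- The arc weights are even-nearly conservative: every directed cycle of negative weight has an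
even number of arcs. -/
def EvenNearlyConservative (D : WDigraph) : Prop :=
  ∀ m x c, IsCycle D m x c → ∑ i ∈ Finset.range m, c i < 0 → Even m

/-- The digraph and its weights are symmetric: with every arc, the opposite arc is present and has
the same weight. -/
def SymmetricWeights (D : WDigraph) : Prop := ∀ u v c, (u, v, c) ∈ D.2 → (v, u, c) ∈ D.2

/-- All arcs have weight `-1` and join the two classes of a bipartition of the vertices, except one
arc `(s, t)` and its opposite `(t, s)`, whose weight is a natural number less than twice the number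
of vertices. -/
def NearlyUniform (D : WDigraph) : Prop :=
  ∃ (s t N : ℕ) (X : ℕ → Bool), N < 2 * D.1.length ∧ (s, t, (N : ℚ)) ∈ D.2 ∧
    ∀ u v c, (u, v, c) ∈ D.2 → (u = s ∧ v = t) ∨ (u = t ∧ v = s) ∨ (X u ≠ X v ∧ c = -1)

end Pool.Agent.X239.ENC
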