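import Pool.Agent.X239.HamFun
import Pool.Agent.X239.ENCDefs
import Pool.Agent.H820R2.MS.T7

/-!
# Even-nearly conservative arc weights: the reduction
-/

namespace Pool.Agent.X239.ENC

open Pool.Agent.NPC Pool.Agent.H679R2 Pool.Agent.NPC.H679

/-- The code of the edge `{a, b}`. -/
def ec (a b : ℕ) : ℕ := 2 * Nat.pair (min a b) (max a b) + 1

theorem ec_comm (a b : ℕ) : ec a b = ec b a := by
  unfold ec
  rw [min_comm, max_comm]

theorem ec_inj {a b a' b' : ℕ} (h : ec a b = ec a' b') :
    (a = a' ∧ b = b') ∨ (a = b' ∧ b = a') := by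
  unfold ec at h
  have h1 : Nat.pair (min a b) (max a b) = Nat.pair (min a' b') (max a' b') := by omega
  rw [Nat.pair_eq_pair] at h1
  omega

/-- The ordered pairs of adjacent vertices. -/
def nb (I : List ℕ × List (ℕ × ℕ)) : List (ℕ × ℕ) :=
  (I.1.dedup ×ˢ I.1.dedup).filter (fun p => adjb I p.1 p.2)

theorem mem_nb (I : List ℕ × List (ℕ × ℕ)) (a b : ℕ) :
    (a, b) ∈ nb I ↔ a ∈ I.1 ∧ b ∈ I.1 ∧ GAdj I a b := by
  unfold nb
  have h : (a, b) ∈ I.1.dedup ×ˢ I.1.dedup ↔ a ∈ I.1.dedup ∧ b ∈ I.1.dedup :=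
    List.pair_mem_product
  rw [List.mem_filter, h, List.mem_dedup, List.mem_dedup, adjb_iff']
  tauto

/-- The arcs, when the chosen vertex is `s` and the weight of the special arcs is `N`. -/
def arcs (I : List ℕ × List (ℕ × ℕ)) (s N : ℕ) : List (ℕ × ℕ × ℚ) :=
  (nb I).flatMap (fun p => (2 * p.1 + 2, ec p.1 p.2, -1) :: (ec p.1 p.2, 2 * p.1 + 2, -1) ::
    (if p.1 = s then [(0, ec p.1 p.2, -1), (ec p.1 p.2, 0, -1)] else [])) ++
    [(2 * s + 2, 0, (((N : ℕ) : ℤ) : ℚ)), (0, 2 * s + 2, (((N : ℕ) : ℤ) : ℚ))]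

/-- The vertices. -/
def verts (I : List ℕ × List (ℕ × ℕ)) : List ℕ :=
  0 :: (I.1.dedup.map (fun v => 2 * v + 2) ++ ((nb I).map (fun p => ec p.1 p.2)).dedup)

/-- The reduction. -/
def red (I : List ℕ × List (ℕ × ℕ)) : WDigraph :=
  if I.1 = [] then ([0, 1], [(0, 1, 0), (1, 0, 0)])
  else (verts I, arcs I (I.1.head?.getD 0) (2 * I.1.dedup.length - 1))

/-- The vertex of `G` under a vertex of the digraph. -/
def pr (s u : ℕ) : ℕ := if u = 0 then s else u / 2 - 1

/-- The vertices coming from vertices. -/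
def IsV (I : List ℕ × List (ℕ × ℕ)) (u : ℕ) : Prop := u = 0 ∨ ∃ a ∈ I.1, u = 2 * a + 2

/-- Incidence of (the code of) an edge and a vertex. -/
def Inc (I : List ℕ × List (ℕ × ℕ)) (e a : ℕ) : Prop := a ∈ I.1 ∧ ∃ b ∈ I.1, GAdj I a b ∧ e = ec a b

theorem mem_arcs {I : List ℕ × List (ℕ × ℕ)} {s N : ℕ} (hs : s ∈ I.1) (u v : ℕ) (c : ℚ) :
    (u, v, c) ∈ arcs I s N ↔ (c = -1 ∧ IsV I u ∧ Inc I v (pr s u)) ∨
      (c = -1 ∧ IsV I v ∧ Inc I u (pr s v)) ∨
      (c = (N : ℚ) ∧ ((u = 2 * s + 2 ∧ v = 0) ∨ (u = 0 ∧ v = 2 * s + 2))) := by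
  have hpr : ∀ a, pr s (2 * a + 2) = a := by
    intro a
    unfold pr
    rw [if_neg (by omega)]
    omega
  have hpr0 : pr s 0 = s := by simp [pr]
  simp only [arcs, List.mem_append, List.mem_flatMap, Prod.exists, mem_nb]
  constructor
  · rintro (⟨a, b, ⟨ha, hb, hab⟩, h⟩ | h)
    · rw [List.mem_cons, List.mem_cons] at h
      rcases h with h | h | h
      · simp only [Prod.mk.injEq] at h
        obtain ⟨rfl, rfl, rfl⟩ := h
        refine Or.inl ⟨rfl, Or.inr ⟨a, ha, rfl⟩, ?_⟩
        rw [hpr]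
        exact ⟨ha, b, hb, hab, rfl⟩
      · simp only [Prod.mk.injEq] at h
        obtain ⟨rfl, rfl, rfl⟩ := h
        refine Or.inr (Or.inl ⟨rfl, Or.inr ⟨a, ha, rfl⟩, ?_⟩)
        rw [hpr]
        exact ⟨ha, b, hb, hab, rfl⟩
      · split_ifs at h with hc
        · rw [List.mem_cons, List.mem_singleton] at h
          rcases h with h | h
          · simp only [Prod.mk.injEq] at h
            obtain ⟨rfl, rfl, rfl⟩ := h
            refine Or.inl ⟨rfl, Or.inl rfl, ?_⟩
            rw [hpr0]
            subst hc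
            exact ⟨ha, b, hb, hab, rfl⟩
          · simp only [Prod.mk.injEq] at h
            obtain ⟨rfl, rfl, rfl⟩ := h
            refine Or.inr (Or.inl ⟨rfl, Or.inl rfl, ?_⟩)
            rw [hpr0]
            subst hc
            exact ⟨ha, b, hb, hab, rfl⟩
        · simp at h
    · rw [List.mem_cons, List.mem_singleton] at h
      rcases h with h | h
      · simp only [Prod.mk.injEq, Int.cast_natCast] at h
        exact Or.inr (Or.inr ⟨h.2.2, Or.inl ⟨h.1, h.2.1⟩⟩)
      · simp only [Prod.mk.injEq, Int.cast_natCast] at h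
        exact Or.inr (Or.inr ⟨h.2.2, Or.inr ⟨h.1, h.2.1⟩⟩)
  · rintro (⟨rfl, hu | ⟨a, ha, hu⟩, h1, b, hb, hab, he⟩ | ⟨rfl, hu | ⟨a, ha, hu⟩, h1, b, hb, hab, he⟩ |
      ⟨rfl, h | h⟩)
    · subst hu
      rw [hpr0] at h1 hab he
      exact Or.inl ⟨s, b, ⟨hs, hb, hab⟩, by simp [he]⟩
    · subst hu
      rw [hpr] at h1 hab he
      exact Or.inl ⟨a, b, ⟨ha, hb, hab⟩, by simp [he]⟩
    · subst hu
      rw [hpr0] at h1 hab he
      exact Or.inl ⟨s, b, ⟨hs, hb, hab⟩, by simp [he]⟩
    · subst hu
      rw [hpr] at h1 hab he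
      exact Or.inl ⟨a, b, ⟨ha, hb, hab⟩, by simp [he]⟩
    · obtain ⟨rfl, rfl⟩ := h
      exact Or.inr (by simp)
    · obtain ⟨rfl, rfl⟩ := h
      exact Or.inr (by simp)

theorem Inc.odd {I : List ℕ × List (ℕ × ℕ)} {e a : ℕ} (h : Inc I e a) : e % 2 = 1 := by
  obtain ⟨-, b, -, -, rfl⟩ := h
  unfold ec
  omega

theorem IsV.even {I : List ℕ × List (ℕ × ℕ)} {u : ℕ} (h : IsV I u) : u % 2 = 0 := by
  rcases h with rfl | ⟨a, -, rfl⟩ <;> omega

theorem Inc.adj {I : List ℕ × List (ℕ × ℕ)} {e a a' : ℕ} (h : Inc I e a) (h' : Inc I e a')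
    (hne : a ≠ a') : GAdj I a a' ∧ e = ec a a' := by
  obtain ⟨-, b, -, hab, rfl⟩ := h
  obtain ⟨-, b', -, hab', he⟩ := h'
  rcases ec_inj he with ⟨h1, -⟩ | ⟨h1, h2⟩
  · exact absurd h1 hne
  · subst h2
    exact ⟨hab, rfl⟩

theorem GAdj.symm' {I : List ℕ × List (ℕ × ℕ)} {a b : ℕ} (h : GAdj I a b) : GAdj I b a :=
  ⟨h.1.symm, h.2.symm⟩

theorem pr_inj {I : List ℕ × List (ℕ × ℕ)} {s u v : ℕ} (hu : IsV I u) (hv : IsV I v)
    (h : pr s u = pr s v) : u = v ∨ (u = 0 ∧ v = 2 * s + 2) ∨ (u = 2 * s + 2 ∧ v = 0) := by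
  unfold pr at h
  rcases hu with rfl | ⟨a, -, rfl⟩ <;> rcases hv with rfl | ⟨b, -, rfl⟩ <;> simp at h ⊢ <;> omega

/-! ### From Hamiltonian cycles to odd negative cycles -/

theorem HamFun.card {I : List ℕ × List (ℕ × ℕ)} {n : ℕ} {y : ℕ → ℕ} (h : HamFun I n y) :
    n = I.1.dedup.length := by
  obtain ⟨-, -, h3, h4, h5, -⟩ := h
  have h6 : I.1.toFinset = (Finset.range n).image y := by
    ext v
    simp only [List.mem_toFinset, Finset.mem_image, Finset.mem_range]
    constructor
    · exact fun hv => h5 v hv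
    · rintro ⟨i, hi, rfl⟩
      exact h4 i hi
  have h7 : I.1.toFinset.card = I.1.dedup.length := List.card_toFinset _
  rw [← h7, h6, Finset.card_image_of_injOn, Finset.card_range]
  intro i hi j hj he
  exact h3 i (by simpa using hi) j (by simpa using hj) he

theorem ham_to_cycle {I : List ℕ × List (ℕ × ℕ)} {n : ℕ} {y : ℕ → ℕ} (h : HamFun I n y) :
    ∃ x c, (IsCycle (verts I, arcs I (y 0) (2 * n - 1)) (2 * n + 1) x c) ∧
      ∑ i ∈ Finset.range (2 * n + 1), c i < 0 := by
  obtain ⟨h1, h2, h3, h4, h5, h6⟩ := h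
  have hs : y 0 ∈ I.1 := h4 0 (by omega)
  have hy : ∀ i ≤ n, y i ∈ I.1 := by
    intro i hi
    rcases Nat.lt_or_eq_of_le hi with h | h
    · exact h4 i h
    · rw [h, h2]
      exact hs
  have hinj2 : ∀ a < n, ∀ b < n, ec (y a) (y (a + 1)) = ec (y b) (y (b + 1)) → a = b := by
    intro a ha b hb he
    rcases ec_inj he with ⟨h7, -⟩ | ⟨h7, h8⟩
    · exact h3 a ha b hb h7
    · exfalso
      have h9 : a = b + 1 ∨ (a = 0 ∧ b + 1 = n) := by
        by_cases hb' : b + 1 < n
        · exact Or.inl (h3 a ha _ hb' h7)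
        · have : b + 1 = n := by omega
          rw [this, h2] at h7
          exact Or.inr ⟨h3 a ha 0 (by omega) h7, this⟩
      have h10 : a + 1 = b ∨ (b = 0 ∧ a + 1 = n) := by
        by_cases ha' : a + 1 < n
        · exact Or.inl (h3 _ ha' b hb h8)
        · have : a + 1 = n := by omega
          rw [this, h2] at h8
          exact Or.inr ⟨(h3 0 (by omega) b hb h8).symm, this⟩
      omega
  set x : ℕ → ℕ := fun i => if i = 2 * n + 1 then 2 * y 0 + 2 else
    if i % 2 = 1 then ec (y (i / 2)) (y (i / 2 + 1)) else if i = 2 * n then 0 else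
      2 * y (i / 2) + 2 with hx
  set c : ℕ → ℚ := fun i => if i = 2 * n then ((2 * n - 1 : ℕ) : ℚ) else -1 with hc
  have hxo : ∀ j < n, x (2 * j + 1) = ec (y j) (y (j + 1)) := by
    intro j hj
    simp only [hx]
    rw [if_neg (by omega), if_pos (by omega), show (2 * j + 1) / 2 = j by omega]
  have hxe : ∀ j < n, x (2 * j) = 2 * y j + 2 := by
    intro j hj
    simp only [hx]
    rw [if_neg (by omega), if_neg (by omega), if_neg (by omega), show (2 * j) / 2 = j by omega]
  have hxn : x (2 * n) = 0 := by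
    simp only [hx]
    rw [if_neg (by omega), if_neg (by omega), if_pos trivial]
  have hxm : x (2 * n + 1) = 2 * y 0 + 2 := by
    simp [hx]
  have hx0 : x 0 = 2 * y 0 + 2 := hxe 0 (by omega)
  have hecodd : ∀ a b, ec a b % 2 = 1 := by
    intro a b
    unfold ec
    omega
  refine ⟨x, c, ⟨by omega, by rw [hxm, hx0], ?_, ?_⟩, ?_⟩
  · -- injectivity
    intro i hi j hj he
    rcases Nat.even_or_odd' i with ⟨a, rfl | rfl⟩ <;> rcases Nat.even_or_odd' j with ⟨b, rfl | rfl⟩
    · by_cases ha : a = n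
      · by_cases hb : b = n
        · omega
        · rw [ha, hxn, hxe b (by omega)] at he
          omega
      · by_cases hb : b = n
        · rw [hb, hxn, hxe a (by omega)] at he
          omega
        · rw [hxe a (by omega), hxe b (by omega)] at he
          have := h3 a (by omega) b (by omega) (by omega)
          omega
    · exfalso
      rw [hxo b (by omega)] at he
      have h7 := hecodd (y b) (y (b + 1))
      by_cases ha : a = n
      · rw [ha, hxn] at he
        omega
      · rw [hxe a (by omega)] at he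
        omega
    · exfalso
      rw [hxo a (by omega)] at he
      have h7 := hecodd (y a) (y (a + 1))
      by_cases hb : b = n
      · rw [hb, hxn] at he
        omega
      · rw [hxe b (by omega)] at he
        omega
    · rw [hxo a (by omega), hxo b (by omega)] at he
      have := hinj2 a (by omega) b (by omega) he
      omega
  · intro i hi
    simp only
    rw [mem_arcs hs]
    rcases Nat.even_or_odd' i with ⟨a, rfl | rfl⟩
    · by_cases ha : a = n
      · subst ha
        refine Or.inr (Or.inr ⟨by simp [hc], Or.inr ⟨hxn, hxm⟩⟩)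
      · refine Or.inl ⟨?_, ?_, ?_⟩
        · simp only [hc]
          rw [if_neg (by omega)]
        · exact Or.inr ⟨y a, h4 a (by omega), hxe a (by omega)⟩
        · rw [hxe a (by omega), hxo a (by omega)]
          have : pr (y 0) (2 * y a + 2) = y a := by
            unfold pr
            rw [if_neg (by omega)]
            omega
          rw [this]
          exact ⟨h4 a (by omega), y (a + 1), hy _ (by omega), h6 a (by omega), rfl⟩
    · refine Or.inr (Or.inl ⟨?_, ?_, ?_⟩)
      · simp only [hc]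
        rw [if_neg (by omega)]
      · by_cases ha : a + 1 = n
        · refine Or.inl ?_
          rw [show 2 * a + 1 + 1 = 2 * n by omega, hxn]
        · exact Or.inr ⟨y (a + 1), h4 _ (by omega), by
            rw [show 2 * a + 1 + 1 = 2 * (a + 1) by ring]; exact hxe _ (by omega)⟩
      · have h7 : pr (y 0) (x (2 * a + 1 + 1)) = y (a + 1) := by
          by_cases ha : a + 1 = n
          · rw [show 2 * a + 1 + 1 = 2 * n by omega, hxn, ha, h2]
            simp [pr]
          · rw [show 2 * a + 1 + 1 = 2 * (a + 1) by ring, hxe _ (by omega)]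
            unfold pr
            rw [if_neg (by omega)]
            omega
        rw [h7, hxo a (by omega), ec_comm]
        exact ⟨hy _ (by omega), y a, h4 a (by omega), GAdj.symm' (h6 a (by omega)), rfl⟩
  · rw [Finset.sum_range_succ]
    have h7 : ∑ i ∈ Finset.range (2 * n), c i = ∑ i ∈ Finset.range (2 * n), (-1 : ℚ) := by
      apply Finset.sum_congr rfl
      intro i hi
      rw [Finset.mem_range] at hi
      simp only [hc]
      rw [if_neg (by omega)]
    rw [h7]
    simp only [hc, if_true, Finset.sum_const, Finset.card_range, nsmul_eq_mul]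
    have h8 : ((2 * n - 1 : ℕ) : ℚ) = 2 * n - 1 := by
      have : 2 * n - 1 + 1 = 2 * n := by omega
      have h9 : ((2 * n - 1 : ℕ) : ℚ) + 1 = ((2 * n : ℕ) : ℚ) := by
        rw [← this]
        push_cast
        ring
      push_cast at h9
      linarith
    rw [h8]
    push_cast
    linarith

/-! ### From odd negative cycles to Hamiltonian cycles -/

theorem cycle_to_ham {I : List ℕ × List (ℕ × ℕ)} {s n m : ℕ} (hs : s ∈ I.1)
    (hn : n = I.1.dedup.length) {x : ℕ → ℕ} {c : ℕ → ℚ}
    (h : IsCycle (verts I, arcs I s (2 * n - 1)) m x c)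
    (hc : ∑ i ∈ Finset.range m, c i < 0) (hm : ¬ Even m) : ∃ y, HamFun I n y := by
  obtain ⟨h1, h2, h3, h4⟩ := h
  simp only at h4
  have hn1 : 1 ≤ n := by
    rw [hn]
    exact List.length_pos_of_mem (List.mem_dedup.2 hs)
  have hm3 : 3 ≤ m := by
    rcases Nat.lt_or_eq_of_le h1 with h | h
    · omega
    · exfalso
      apply hm
      rw [← h]
      exact even_two
  -- special arcs
  set Sp : ℕ → Prop := fun i => (x i = 2 * s + 2 ∧ x (i + 1) = 0) ∨ (x i = 0 ∧ x (i + 1) = 2 * s + 2)
    with hSp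
  have harc : ∀ i < m, (c i = -1 ∧ ((IsV I (x i) ∧ Inc I (x (i + 1)) (pr s (x i))) ∨
      (IsV I (x (i + 1)) ∧ Inc I (x i) (pr s (x (i + 1)))))) ∨
      (c i = ((2 * n - 1 : ℕ) : ℚ) ∧ Sp i) := by
    intro i hi
    have := (mem_arcs hs _ _ _).1 (h4 i hi)
    rcases this with ⟨h5, h6, h7⟩ | ⟨h5, h6, h7⟩ | ⟨h5, h6⟩
    · exact Or.inl ⟨h5, Or.inl ⟨h6, h7⟩⟩
    · exact Or.inl ⟨h5, Or.inr ⟨h6, h7⟩⟩
    · exact Or.inr ⟨h5, h6⟩
  have hpar : ∀ i < m, ¬ Sp i → (x i + x (i + 1)) % 2 = 1 := by
    intro i hi hn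
    rcases harc i hi with ⟨-, ⟨h5, h6⟩ | ⟨h5, h6⟩⟩ | ⟨-, h5⟩
    · have := h5.even
      have := h6.odd
      omega
    · have := h5.even
      have := h6.odd
      omega
    · exact absurd h5 hn
  have hex : ∃ k < m, Sp k := by
    by_contra hno
    push Not at hno
    have h5 : ∀ i ≤ m, (x i + x 0 + i) % 2 = 0 := by
      intro i
      induction i with
      | zero => intro _; omega
      | succ i ih =>
        intro hi
        have h6 := ih (by omega)
        have h7 := hpar i (by omega) (hno i (by omega))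
        omega
    have h6 := h5 m le_rfl
    rw [h2] at h6
    apply hm
    rw [Nat.even_iff]
    omega
  obtain ⟨k, hk, hkS⟩ := hex
  have huniq : ∀ j < m, j ≠ k → ¬ Sp j := by
    intro j hj hjk hjS
    have e1 : x j ≠ x k := fun h => hjk (h3 j hj k hk h)
    have e2 : x (j + 1) = x k ∧ x (k + 1) = x j := by
      rcases hjS with ⟨a1, a2⟩ | ⟨a1, a2⟩ <;> rcases hkS with ⟨b1, b2⟩ | ⟨b1, b2⟩
      · exact absurd (a1.trans b1.symm) e1
      · exact ⟨a2.trans b1.symm, b2.trans a1.symm⟩
      · exact ⟨a2.trans b1.symm, b2.trans a1.symm⟩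
      · exact absurd (a1.trans b1.symm) e1
    have e3 : j + 1 = k ∨ (j + 1 = m ∧ k = 0) := by
      by_cases hc : j + 1 < m
      · exact Or.inl (h3 _ hc k hk e2.1)
      · have : j + 1 = m := by omega
        refine Or.inr ⟨this, ?_⟩
        have e4 := e2.1
        rw [this, h2] at e4
        exact (h3 0 (by omega) k hk e4).symm
    have e4 : k + 1 = j ∨ (k + 1 = m ∧ j = 0) := by
      by_cases hc : k + 1 < m
      · exact Or.inl (h3 _ hc j hj e2.2)
      · have : k + 1 = m := by omega
        refine Or.inr ⟨this, ?_⟩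
        have e4 := e2.2
        rw [this, h2] at e4
        exact (h3 0 (by omega) j hj e4).symm
    omega
  -- the total weight
  have hck : c k = ((2 * n - 1 : ℕ) : ℚ) := by
    rcases harc k hk with ⟨-, ⟨h5, h6⟩ | ⟨h5, h6⟩⟩ | ⟨h5, -⟩
    · have := h6.odd
      rcases hkS with ⟨h7, h8⟩ | ⟨h7, h8⟩ <;> omega
    · have := h6.odd
      rcases hkS with ⟨h7, h8⟩ | ⟨h7, h8⟩ <;> omega
    · exact h5
  have hcj : ∀ j < m, j ≠ k → c j = -1 := by
    intro j hj hjk
    rcases harc j hj with ⟨h5, -⟩ | ⟨-, h5⟩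
    · exact h5
    · exact absurd h5 (huniq j hj hjk)
  have hm1 : 2 * n + 1 ≤ m := by
    have h5 : ∑ i ∈ Finset.range m, c i = ((2 * n - 1 : ℕ) : ℚ) - ((m : ℚ) - 1) := by
      rw [← Finset.add_sum_erase (Finset.range m) c (Finset.mem_range.2 hk), hck]
      have h6 : ∑ i ∈ (Finset.range m).erase k, c i = ∑ i ∈ (Finset.range m).erase k, (-1 : ℚ) := by
        apply Finset.sum_congr rfl
        intro i hi
        rw [Finset.mem_erase, Finset.mem_range] at hi
        exact hcj i hi.2 hi.1
      rw [h6, Finset.sum_const, Finset.card_erase_of_mem (Finset.mem_range.2 hk),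
        Finset.card_range, nsmul_eq_mul, Nat.cast_sub (show 1 ≤ m by omega), Nat.cast_one]
      ring
    rw [h5] at hc
    have h6 : ((2 * n - 1 : ℕ) : ℚ) + 1 < (m : ℚ) := by linarith
    have h7 : (2 * n - 1) + 1 < m := by exact_mod_cast h6
    omega
  -- the rotated cycle
  set z : ℕ → ℕ := fun i => x ((k + 1 + i) % m) with hz
  have hzinj : ∀ i < m, ∀ j < m, z i = z j → i = j := by
    intro i hi j hj he
    have h5 := h3 _ (Nat.mod_lt _ (by omega)) _ (Nat.mod_lt _ (by omega)) he
    have h8 : i ≡ j [MOD m] := Nat.ModEq.add_left_cancel' (k + 1) h5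
    rwa [Nat.ModEq, Nat.mod_eq_of_lt hi, Nat.mod_eq_of_lt hj] at h8
  have hzs : ∀ i, x ((k + 1 + i) % m + 1) = z (i + 1) := by
    intro i
    have h9 := Nat.mod_add_mod (k + 1 + i) m 1
    simp only [hz]
    by_cases hc : (k + 1 + i) % m + 1 = m
    · rw [hc, h2]
      rw [hc, Nat.mod_self] at h9
      rw [show k + 1 + (i + 1) = k + 1 + i + 1 by ring, ← h9]
    · have h10 := Nat.mod_lt (k + 1 + i) (show 0 < m by omega)
      rw [Nat.mod_eq_of_lt (by omega)] at h9
      rw [show k + 1 + (i + 1) = k + 1 + i + 1 by ring, ← h9]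
  have hidx : ∀ i < m - 1, (k + 1 + i) % m ≠ k := by
    intro i hi he
    have h5 : (k + 1 + i) % m = (k + 1 + (m - 1)) % m := by
      rw [he, show k + 1 + (m - 1) = k + m by omega, Nat.add_mod_right, Nat.mod_eq_of_lt hk]
    have h8 : i ≡ m - 1 [MOD m] := Nat.ModEq.add_left_cancel' (k + 1) h5
    rw [Nat.ModEq, Nat.mod_eq_of_lt (by omega), Nat.mod_eq_of_lt (by omega)] at h8
    omega
  have hzarc : ∀ i < m - 1, (IsV I (z i) ∧ Inc I (z (i + 1)) (pr s (z i))) ∨
      (IsV I (z (i + 1)) ∧ Inc I (z i) (pr s (z (i + 1)))) := by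
    intro i hi
    have h5 := Nat.mod_lt (k + 1 + i) (show 0 < m by omega)
    rcases harc _ h5 with ⟨-, h6⟩ | ⟨-, h6⟩
    · rw [hzs i] at h6
      exact h6
    · exact absurd h6 (huniq _ h5 (hidx i hi))
  have hz0 : z 0 = x (k + 1) := by
    have h5 := hzs (m - 1)
    have h6 : (k + 1 + (m - 1)) % m = k := by
      rw [show k + 1 + (m - 1) = k + m by omega, Nat.add_mod_right, Nat.mod_eq_of_lt hk]
    rw [h6, show m - 1 + 1 = m by omega] at h5
    rw [h5]
    simp [hz]
  have hzm : z (m - 1) = x k := by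
    simp only [hz]
    rw [show k + 1 + (m - 1) = k + m by omega, Nat.add_mod_right, Nat.mod_eq_of_lt hk]
  have hends : (z 0 = 0 ∧ z (m - 1) = 2 * s + 2) ∨ (z 0 = 2 * s + 2 ∧ z (m - 1) = 0) := by
    rw [hz0, hzm]
    rcases hkS with ⟨h5, h6⟩ | ⟨h5, h6⟩
    · exact Or.inl ⟨h6, h5⟩
    · exact Or.inr ⟨h6, h5⟩
  have hzpar : ∀ i ≤ m - 1, z i % 2 = i % 2 := by
    intro i
    induction i with
    | zero =>
      intro _
      rcases hends with ⟨h5, -⟩ | ⟨h5, -⟩ <;> omega
    | succ i ih =>
      intro hi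
      have h5 := ih (by omega)
      rcases hzarc i (by omega) with ⟨h6, h7⟩ | ⟨h6, h7⟩
      · have := h6.even
        have := h7.odd
        omega
      · have := h6.even
        have := h7.odd
        omega
  obtain ⟨h, hh⟩ : ∃ h, m = 2 * h + 1 := by
    rw [Nat.not_even_iff_odd] at hm
    exact hm
  have hzV : ∀ j ≤ h, IsV I (z (2 * j)) := by
    intro j hj
    have h5 := hzpar (2 * j) (by omega)
    rcases Nat.lt_or_eq_of_le hj with h6 | h6
    · rcases hzarc (2 * j) (by omega) with ⟨h7, -⟩ | ⟨h7, h8⟩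
      · exact h7
      · have := h8.odd
        omega
    · rw [h6, show 2 * h = m - 1 by omega]
      rcases hends with ⟨-, h7⟩ | ⟨-, h7⟩
      · exact Or.inr ⟨s, hs, h7⟩
      · exact Or.inl h7
  have hzI : ∀ j < h, Inc I (z (2 * j + 1)) (pr s (z (2 * j))) ∧
      Inc I (z (2 * j + 1)) (pr s (z (2 * (j + 1)))) := by
    intro j hj
    constructor
    · rcases hzarc (2 * j) (by omega) with ⟨-, h7⟩ | ⟨-, h7⟩
      · exact h7
      · have := h7.odd
        have := hzpar (2 * j) (by omega)
        omega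
    · rcases hzarc (2 * j + 1) (by omega) with ⟨h6, -⟩ | ⟨-, h7⟩
      · have := h6.even
        have := hzpar (2 * j + 1) (by omega)
        omega
      · exact h7
  -- counting
  have hhn : h = n := by
    have h5 : ((Finset.range (h + 1)).image (fun j => z (2 * j))) ⊆
        insert 0 (I.1.toFinset.image (fun a => 2 * a + 2)) := by
      intro u hu
      rw [Finset.mem_image] at hu
      obtain ⟨j, hj, rfl⟩ := hu
      rw [Finset.mem_range] at hj
      rw [Finset.mem_insert, Finset.mem_image]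
      rcases hzV j (by omega) with h6 | ⟨a, ha, h6⟩
      · exact Or.inl h6
      · exact Or.inr ⟨a, List.mem_toFinset.2 ha, h6.symm⟩
    have h6 := Finset.card_le_card h5
    rw [Finset.card_image_of_injOn (by
      intro i hi j hj he
      simp only [Finset.coe_range, Set.mem_Iio] at hi hj
      have := hzinj (2 * i) (by omega) (2 * j) (by omega) he
      omega), Finset.card_range] at h6
    have h7 : (insert 0 (I.1.toFinset.image (fun a => 2 * a + 2))).card ≤ n + 1 := by
      refine (Finset.card_insert_le _ _).trans ?_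
      have h8 : (I.1.toFinset.image (fun a => 2 * a + 2)).card ≤ I.1.toFinset.card :=
        Finset.card_image_le
      have h9 : I.1.toFinset.card = I.1.dedup.length := List.card_toFinset _
      omega
    omega
  subst hhn
  set y : ℕ → ℕ := fun j => pr s (z (2 * j)) with hy
  have hy0 : y 0 = s := by
    simp only [hy]
    rcases hends with ⟨h5, -⟩ | ⟨h5, -⟩
    · rw [Nat.mul_zero, h5]; simp [pr]
    · rw [Nat.mul_zero, h5]
      unfold pr
      rw [if_neg (by omega)]
      omega
  have hyh : y h = s := by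
    simp only [hy]
    rw [show 2 * h = m - 1 by omega]
    rcases hends with ⟨-, h5⟩ | ⟨-, h5⟩
    · rw [h5]
      unfold pr
      rw [if_neg (by omega)]
      omega
    · rw [h5]; simp [pr]
  have hyinj : ∀ i < h, ∀ j < h, y i = y j → i = j := by
    intro i hi j hj he
    have h5 := pr_inj (hzV i (by omega)) (hzV j (by omega)) he
    have hlast : ∀ i < h, z (2 * i) ≠ z (m - 1) := by
      intro i hi he
      have := hzinj (2 * i) (by omega) (m - 1) (by omega) he
      omega
    rcases h5 with h5 | ⟨h5, h6⟩ | ⟨h5, h6⟩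
    · have := hzinj _ (by omega) _ (by omega) h5
      omega
    · exfalso
      rcases hends with ⟨-, h7⟩ | ⟨-, h7⟩
      · exact hlast j hj (h6.trans h7.symm)
      · exact hlast i hi (h5.trans h7.symm)
    · exfalso
      rcases hends with ⟨-, h7⟩ | ⟨-, h7⟩
      · exact hlast i hi (h5.trans h7.symm)
      · exact hlast j hj (h6.trans h7.symm)
  have hymem : ∀ i ≤ h, y i ∈ I.1 := by
    intro i hi
    rcases Nat.lt_or_eq_of_le hi with h5 | h5
    · exact (hzI i h5).1.1
    · rw [h5, hyh]
      exact hs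
  have hh2 : 2 ≤ h := by
    by_contra hcon
    have h5 : h = 1 := by omega
    obtain ⟨h6, b, hb, hab, -⟩ := (hzI 0 (by omega)).1
    have h7 : I.1.dedup.length = 1 := by omega
    obtain ⟨w, hw⟩ := List.length_eq_one_iff.1 h7
    have h8 := List.mem_dedup.2 h6
    have h9 := List.mem_dedup.2 hb
    rw [hw, List.mem_singleton] at h8 h9
    exact hab.1 (h8.trans h9.symm)
  have hyne : ∀ i < h, y i ≠ y (i + 1) := by
    intro i hi he
    by_cases h5 : i + 1 < h
    · have := hyinj i hi _ h5 he
      omega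
    · have h6 : i + 1 = h := by omega
      rw [h6, hyh, ← hy0] at he
      have := hyinj i hi 0 (by omega) he
      omega
  have hadj : ∀ i < h, GAdj I (y i) (y (i + 1)) ∧ z (2 * i + 1) = ec (y i) (y (i + 1)) :=
    fun i hi => (hzI i hi).1.adj (hzI i hi).2 (hyne i hi)
  have hh3 : 3 ≤ h := by
    by_contra hcon
    have h5 : h = 2 := by omega
    have h6 := (hadj 0 (by omega)).2
    have h7 := (hadj 1 (by omega)).2
    have h8 : y 2 = y 0 := by
      rw [hy0, ← hyh, h5]
    rw [h8, ec_comm] at h7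
    have := hzinj (2 * 0 + 1) (by omega) (2 * 1 + 1) (by omega) (h6.trans h7.symm)
    omega
  refine ⟨y, hh3, by rw [hy0, hyh], hyinj, fun i hi => hymem i (by omega), ?_,
    fun i hi => (hadj i hi).1⟩
  intro v hv
  have h5 : (Finset.range h).image y = I.1.toFinset := by
    apply Finset.eq_of_subset_of_card_le
    · intro u hu
      rw [Finset.mem_image] at hu
      obtain ⟨i, hi, rfl⟩ := hu
      rw [Finset.mem_range] at hi
      exact List.mem_toFinset.2 (hymem i (by omega))
    · rw [Finset.card_image_of_injOn (by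
        intro i hi j hj he
        simp only [Finset.coe_range, Set.mem_Iio] at hi hj
        exact hyinj i hi j hj he), Finset.card_range, List.card_toFinset]
      omega
  have h6 : v ∈ (Finset.range h).image y := by
    rw [h5]
    exact List.mem_toFinset.2 hv
  rw [Finset.mem_image] at h6
  obtain ⟨i, hi, rfl⟩ := h6
  exact ⟨i, by simpa using hi, rfl⟩

/-! ### The reduction -/

theorem red_iff (I : List ℕ × List (ℕ × ℕ)) :
    HasHamCycle I ↔ ¬ EvenNearlyConservative (red I) := by
  by_cases hI : I.1 = []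
  · have h1 : ¬ HasHamCycle I := by
      intro h
      obtain ⟨n, y, hy⟩ := hamFun_of I h
      have := hy.2.2.2.1 0 (by have := hy.1; omega)
      rw [hI] at this
      simp at this
    refine iff_of_false h1 (not_not.2 ?_)
    unfold red
    rw [if_pos hI]
    intro m x c hmx hneg
    exfalso
    obtain ⟨-, -, -, h4⟩ := hmx
    have h5 : ∑ i ∈ Finset.range m, c i = 0 := by
      apply Finset.sum_eq_zero
      intro i hi
      have h6 := h4 i (Finset.mem_range.1 hi)
      simp only [List.mem_cons, Prod.mk.injEq, List.not_mem_nil, or_false] at h6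
      rcases h6 with h6 | h6
      · exact h6.2.2
      · exact h6.2.2
    rw [h5] at hneg
    exact absurd hneg (lt_irrefl _)
  · obtain ⟨s, l, hl⟩ := List.exists_cons_of_ne_nil hI
    have hs : s ∈ I.1 := by rw [hl]; simp
    have hhd : I.1.head?.getD 0 = s := by rw [hl]; rfl
    unfold red
    rw [if_neg hI, hhd]
    constructor
    · intro h hE
      obtain ⟨n, y, hy, hy0⟩ := hamFun_start h hs
      obtain ⟨x, c, h1, h2⟩ := ham_to_cycle hy
      rw [hy0, HamFun.card hy] at h1
      rw [HamFun.card hy] at h2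
      have h3 := hE _ x c h1 h2
      rw [Nat.even_iff] at h3
      omega
    · intro h
      unfold EvenNearlyConservative at h
      push Not at h
      obtain ⟨m, x, c, h1, h2, h3⟩ := h
      obtain ⟨y, hy⟩ := cycle_to_ham hs rfl h1 h2 (by simpa using h3)
      exact of_hamFun I _ y hy

theorem ec_ne_zero (a b : ℕ) : ec a b ≠ 0 := by unfold ec; omega

theorem red_wf (I : List ℕ × List (ℕ × ℕ)) :
    WellFormed (red I) ∧ SymmetricWeights (red I) ∧ NearlyUniform (red I) := by
  by_cases hI : I.1 = []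
  · unfold red
    rw [if_pos hI]
    refine ⟨⟨by simp, ?_, ?_⟩, ?_, ?_⟩
    · intro a ha
      simp only [List.mem_cons, List.not_mem_nil, or_false] at ha
      rcases ha with rfl | rfl <;> simp
    · intro a ha b hb h1 h2
      simp only [List.mem_cons, List.not_mem_nil, or_false] at ha hb
      rcases ha with rfl | rfl <;> rcases hb with rfl | rfl <;> simp at h1 h2 ⊢
    · intro u v c h
      simp only [List.mem_cons, Prod.mk.injEq, List.not_mem_nil, or_false] at h ⊢
      tauto
    · refine ⟨0, 1, 0, fun _ => true, by simp, by simp, ?_⟩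
      intro u v c h
      simp only [List.mem_cons, Prod.mk.injEq, List.not_mem_nil, or_false] at h
      tauto
  · obtain ⟨s, l, hl⟩ := List.exists_cons_of_ne_nil hI
    have hs : s ∈ I.1 := by rw [hl]; simp
    have hhd : I.1.head?.getD 0 = s := by rw [hl]; rfl
    unfold red
    rw [if_neg hI, hhd]
    set N := 2 * I.1.dedup.length - 1 with hN
    have hV : ∀ u, IsV I u → u ∈ verts I := by
      intro u hu
      unfold verts
      rcases hu with rfl | ⟨a, ha, rfl⟩
      · exact List.mem_cons_self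
      · refine List.mem_cons_of_mem _ (List.mem_append_left _ ?_)
        exact List.mem_map.2 ⟨a, List.mem_dedup.2 ha, rfl⟩
    have hE : ∀ e a, Inc I e a → e ∈ verts I := by
      rintro e a ⟨ha, b, hb, hab, rfl⟩
      unfold verts
      refine List.mem_cons_of_mem _ (List.mem_append_right _ (List.mem_dedup.2 ?_))
      exact List.mem_map.2 ⟨(a, b), (mem_nb I a b).2 ⟨ha, hb, hab⟩, rfl⟩
    have hVs : IsV I (2 * s + 2) := Or.inr ⟨s, hs, rfl⟩
    have hV0 : IsV I 0 := Or.inl rfl
    refine ⟨⟨?_, ?_, ?_⟩, ?_, ?_⟩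
    · -- no repetition
      unfold verts
      rw [List.nodup_cons]
      constructor
      · intro h
        rw [List.mem_append, List.mem_map, List.mem_dedup, List.mem_map] at h
        rcases h with ⟨a, -, h⟩ | ⟨p, -, h⟩
        · omega
        · exact ec_ne_zero _ _ h
      · rw [List.nodup_append]
        refine ⟨?_, List.nodup_dedup _, ?_⟩
        · refine (List.nodup_dedup _).map ?_
          intro a b h
          simp only at h
          omega
        · intro a ha b hb
          rw [List.mem_map] at ha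
          rw [List.mem_dedup, List.mem_map] at hb
          obtain ⟨v, -, rfl⟩ := ha
          obtain ⟨p, -, rfl⟩ := hb
          unfold ec
          omega
    · rintro ⟨u, v, c⟩ h
      simp only at h ⊢
      rcases (mem_arcs hs u v c).1 h with ⟨-, h1, h2⟩ | ⟨-, h1, h2⟩ | ⟨-, ⟨h1, h2⟩ | ⟨h1, h2⟩⟩
      · refine ⟨hV _ h1, hE _ _ h2, ?_⟩
        have := h1.even
        have := h2.odd
        omega
      · refine ⟨hE _ _ h2, hV _ h1, ?_⟩
        have := h1.even
        have := h2.odd
        omega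
      · rw [h1, h2]
        exact ⟨hV _ hVs, hV _ hV0, by omega⟩
      · rw [h1, h2]
        exact ⟨hV _ hV0, hV _ hVs, by omega⟩
    · rintro ⟨u, v, c⟩ h ⟨u', v', c'⟩ h' h1 h2
      simp only at h h' h1 h2
      subst h1 h2
      have hc : c = c' := by
        rcases (mem_arcs hs u v c).1 h with ⟨h1, h3, h4⟩ | ⟨h1, h3, h4⟩ | ⟨h1, h3⟩ <;>
          rcases (mem_arcs hs u v c').1 h' with ⟨h1', h3', h4'⟩ | ⟨h1', h3', h4'⟩ | ⟨h1', h3'⟩
        · rw [h1, h1']
        · rw [h1, h1']
        · have := h4.odd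
          omega
        · rw [h1, h1']
        · rw [h1, h1']
        · have := h4.odd
          omega
        · have := h4'.odd
          omega
        · have := h4'.odd
          omega
        · rw [h1, h1']
      rw [hc]
    · intro u v c h
      simp only at h ⊢
      rw [mem_arcs hs] at h ⊢
      tauto
    · refine ⟨2 * s + 2, 0, N, fun u => decide (u % 2 = 0), ?_, ?_, ?_⟩
      · have : (verts I).length = I.1.dedup.length +
            ((nb I).map (fun p => ec p.1 p.2)).dedup.length + 1 := by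
          simp [verts]
        simp only
        omega
      · exact (mem_arcs hs _ _ _).2 (Or.inr (Or.inr ⟨rfl, Or.inl ⟨rfl, rfl⟩⟩))
      · intro u v c h
        simp only at h
        rcases (mem_arcs hs u v c).1 h with ⟨h1, h3, h4⟩ | ⟨h1, h3, h4⟩ | ⟨h1, h3⟩
        · have := h3.even
          have := h4.odd
          refine Or.inr (Or.inr ⟨?_, h1⟩)
          rw [Ne, decide_eq_decide]
          omega
        · have := h3.even
          have := h4.odd
          refine Or.inr (Or.inr ⟨?_, h1⟩)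
          rw [Ne, decide_eq_decide]
          omega
        · rcases h3 with h3 | h3
          · exact Or.inl h3
          · exact Or.inr (Or.inl h3)

/-! ### Polynomial time -/

theorem poly_intCast {α : Type} [TEnc α] {f : α → ℤ} (hf : Poly f) :
    Poly (fun a => ((f a : ℤ) : ℚ)) :=
  NPC.Poly.of_toT ((NPC.Poly.toT' (NPC.Poly.pair hf (NPC.Poly.const (1 : ℕ)))).congr fun a => by
    change toT (f a, 1) = toT (((f a : ℤ) : ℚ).num, ((f a : ℤ) : ℚ).den)
    rw [Rat.num_intCast, Rat.den_intCast])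

theorem poly_natPair {α : Type} [TEnc α] {f g : α → ℕ} (hf : Poly f) (hg : Poly g) :
    Poly (fun a => Nat.pair (f a) (g a)) := by
  unfold Nat.pair
  fun_prop

attribute [local fun_prop] poly_intCast poly_natPair

theorem poly_ec {α : Type} [TEnc α] {f g : α → ℕ} (hf : Poly f) (hg : Poly g) :
    Poly (fun a => ec (f a) (g a)) := by
  unfold ec
  fun_prop

theorem poly_dedup {α β : Type} [TEnc α] [TEnc β] [DecidableEq β] {l : α → List β}
    (hl : Poly l) : Poly (fun a => (l a).dedup) := H820R2.MS.T7.poly_dedup hl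

attribute [local fun_prop] poly_ec poly_dedup adjb_poly

theorem poly_nb : Poly nb := by
  unfold nb
  fun_prop

attribute [local fun_prop] poly_nb

theorem poly_arcs {α : Type} [TEnc α] {I : α → List ℕ × List (ℕ × ℕ)} {s N : α → ℕ}
    (hI : Poly I) (hs : Poly s) (hN : Poly N) : Poly (fun a => arcs (I a) (s a) (N a)) := by
  have h1 : Poly (fun a => nb (I a)) := poly_nb.comp hI
  unfold arcs
  fun_prop

theorem poly_red : Poly red := by
  have h1 : Poly (fun I : List ℕ × List (ℕ × ℕ) =>
      arcs I (I.1.head?.getD 0) (2 * I.1.dedup.length - 1)) :=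
    poly_arcs (by fun_prop) (by fun_prop) (by fun_prop)
  have h2 : Poly (fun I : List ℕ × List (ℕ × ℕ) => verts I) := by
    unfold verts
    fun_prop
  have h3 : Poly (fun I : List ℕ × List (ℕ × ℕ) => decide (I.1 = [])) := by fun_prop
  exact NPC.Poly.ite h3 (NPC.Poly.const _) (NPC.Poly.pair h2 h1)

/-- Reduction from any language in `coNP`. -/
theorem hard (L : Set (List Bool)) (hL : InCoNP L) :
    ∃ f : List Bool → List Bool, PolyTime f ∧ ∀ x, ∃ D : WDigraph, f x = bits D ∧
      WellFormed D ∧ SymmetricWeights D ∧ NearlyUniform D ∧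
      (x ∈ L ↔ EvenNearlyConservative D) := by
  have h := (hardPr_ham 6 le_rfl).toHardI.trans (Q := fun D => ¬ EvenNearlyConservative D)
    poly_red red_iff
  obtain ⟨f, hf, hfL⟩ := (hardPr_ham 6 le_rfl) Lᶜ hL
  refine ⟨fun x => bits (red (f x)), PC.toPolyTime_bits poly_red f hf, fun x =>
    ⟨red (f x), rfl, (red_wf _).1, (red_wf _).2.1, (red_wf _).2.2, ?_⟩⟩
  have h1 := hfL.2 x
  rw [Set.mem_compl_iff, red_iff] at h1
  tauto

end Pool.Agent.X239.ENC
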