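import Pool.Agent.H679R2.Oct.Pol
import Pool.Agent.H679R2.Oct.Mem

/-!
# Hamiltonian cycles as functions
-/

namespace Pool.Agent.X239

open Pool.Agent.NPC Pool.Agent.H679R2 Pool.Agent.NPC.H679

/-- Adjacency in the presented graph. -/
def GAdj (I : List ℕ × List (ℕ × ℕ)) (u v : ℕ) : Prop :=
  u ≠ v ∧ ((u, v) ∈ I.2 ∨ (v, u) ∈ I.2)

theorem adjb_iff' (I : List ℕ × List (ℕ × ℕ)) (u v : ℕ) : adjb I u v = true ↔ GAdj I u v := by
  simp [adjb, GAdj]

/-- A Hamiltonian cycle of length `n` given by a function. -/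
def HamFun (I : List ℕ × List (ℕ × ℕ)) (n : ℕ) (y : ℕ → ℕ) : Prop :=
  3 ≤ n ∧ y n = y 0 ∧ (∀ i < n, ∀ j < n, y i = y j → i = j) ∧ (∀ i < n, y i ∈ I.1) ∧
    (∀ v ∈ I.1, ∃ i < n, y i = v) ∧ ∀ i < n, GAdj I (y i) (y (i + 1))

theorem cyb_iff (I : List ℕ × List (ℕ × ℕ)) (w : List ℕ) :
    cyb I w = true ↔ w.IsChain (GAdj I) ∧ 4 ≤ w.length ∧ w.head? = w.reverse.head? ∧
      w.tail.Nodup ∧ (∀ v ∈ I.1, v ∈ w) ∧ ∀ v ∈ w, v ∈ I.1 := by
  simp only [cyb, Bool.and_eq_true, decide_eq_true_eq, List.all_eq_true, chb_iff, ndb_iff]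
  have : (fun u v => adjb I u v = true) = GAdj I := by
    funext u v
    exact propext (adjb_iff' I u v)
  rw [this]

theorem hamFun_of (I : List ℕ × List (ℕ × ℕ)) (h : HasHamCycle I) :
    ∃ n y, HamFun I n y := by
  obtain ⟨w, -, hw⟩ := (ham_iff I).1 h
  rw [cyb_iff] at hw
  obtain ⟨h1, h2, h3, h4, h5, h6⟩ := hw
  have hn : w.length = (w.length - 1) + 1 := by omega
  have h0 : w.getD 0 0 = w.getD (w.length - 1) 0 := by
    have e1 : w.head? = some (w.getD 0 0) := by
      cases w with
      | nil => simp at h2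
      | cons a w => simp
    have e2 : w.reverse.head? = some (w.getD (w.length - 1) 0) := by
      rw [List.head?_reverse, List.getLast?_eq_getElem?]
      rw [List.getD_eq_getElem?_getD, List.getElem?_eq_getElem (by omega)]
      rfl
    rw [e1, e2] at h3
    exact Option.some.inj h3
  have hinj : ∀ i, 1 ≤ i → ∀ j, 1 ≤ j → i < w.length → j < w.length →
      w.getD i 0 = w.getD j 0 → i = j := by
    intro i hi j hj hi' hj' he
    rw [List.getD_eq_getElem _ _ hi', List.getD_eq_getElem _ _ hj'] at he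
    obtain ⟨i, rfl⟩ : ∃ k, i = k + 1 := ⟨i - 1, by omega⟩
    obtain ⟨j, rfl⟩ : ∃ k, j = k + 1 := ⟨j - 1, by omega⟩
    have e : w.tail[i]'(by rw [List.length_tail]; omega) =
        w.tail[j]'(by rw [List.length_tail]; omega) := by
      rw [List.getElem_tail, List.getElem_tail]
      exact he
    have := (List.Nodup.getElem_inj_iff h4).1 e
    omega
  refine ⟨w.length - 1, fun i => w.getD i 0, by omega, h0.symm, ?_, ?_, ?_, ?_⟩
  · intro i hi j hj he
    simp only at he
    rcases Nat.eq_zero_or_pos i with rfl | hi0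
    · rcases Nat.eq_zero_or_pos j with rfl | hj0
      · rfl
      · rw [h0] at he
        have := hinj _ (by omega) _ hj0 (by omega) (by omega) he
        omega
    · rcases Nat.eq_zero_or_pos j with rfl | hj0
      · rw [h0] at he
        have := hinj _ hi0 _ (by omega) (by omega) (by omega) he
        omega
      · exact hinj _ hi0 _ hj0 (by omega) (by omega) he
  · intro i hi
    simp only
    rw [List.getD_eq_getElem _ _ (by omega)]
    exact h6 _ (List.getElem_mem _)
  · intro v hv
    obtain ⟨i, hi, hiv⟩ := List.getElem_of_mem (h5 v hv)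
    by_cases hi' : i = w.length - 1
    · refine ⟨0, by omega, ?_⟩
      simp only
      rw [h0, ← hi', List.getD_eq_getElem _ _ hi, hiv]
    · refine ⟨i, by omega, ?_⟩
      simp only
      rw [List.getD_eq_getElem _ _ hi, hiv]
  · intro i hi
    simp only
    rw [List.getD_eq_getElem _ _ (by omega), List.getD_eq_getElem _ _ (by omega)]
    exact List.isChain_iff_getElem.1 h1 i (by omega)

theorem of_hamFun (I : List ℕ × List (ℕ × ℕ)) (n : ℕ) (y : ℕ → ℕ) (h : HamFun I n y) :
    HasHamCycle I := by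
  obtain ⟨h1, h2, h3, h4, h5, h6⟩ := h
  -- sequence of vertices
  have hmem : ∀ i, i ≤ n → y i ∈ I.1 := by
    intro i hi
    rcases Nat.lt_or_eq_of_le hi with h | h
    · exact h4 i h
    · rw [h, h2]
      exact h4 0 (by omega)
  set w : List ℕ := (List.range (n + 1)).map y with hw
  have hlen : w.length = n + 1 := by simp [hw]
  have hget : ∀ i (hi : i < w.length), w[i] = y i := by
    intro i hi
    simp [hw]
  have hc : cyb I w = true := by
    rw [cyb_iff]
    refine ⟨?_, by omega, ?_, ?_, ?_, ?_⟩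
    · rw [List.isChain_iff_getElem]
      intro i hi
      rw [hget, hget]
      exact h6 i (by omega)
    · rw [hw, ← List.map_reverse, List.head?_map, List.head?_map, List.head?_reverse,
        List.getLast?_range, List.head?_range]
      simp [h2]
    · rw [List.nodup_iff_getElem?_ne_getElem?]
      intro i j hij hj
      rw [List.length_tail, hlen] at hj
      rw [List.getElem?_tail, List.getElem?_tail, List.getElem?_eq_getElem (by omega),
        List.getElem?_eq_getElem (by omega), hget, hget]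
      intro he
      have he := Option.some.inj he
      by_cases hjn : j + 1 = n
      · rw [hjn, h2] at he
        have := h3 _ (by omega) _ (by omega) he
        omega
      · have := h3 _ (by omega) _ (by omega) he
        omega
    · intro v hv
      obtain ⟨i, hi, rfl⟩ := h5 v hv
      rw [hw, List.mem_map]
      exact ⟨i, by rw [List.mem_range]; omega, rfl⟩
    · intro v hv
      rw [hw, List.mem_map] at hv
      obtain ⟨i, hi, rfl⟩ := hv
      rw [List.mem_range] at hi
      exact hmem i (by omega)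
  -- the bound on the size
  by_contra hno
  have h7 := (ham_iff I).not.1 hno
  apply h7
  refine ⟨w, ?_, hc⟩
  have hcard : w.tail.length ≤ I.1.length := by
    rw [cyb_iff] at hc
    have h8 : w.tail.toFinset ⊆ I.1.toFinset := by
      intro v hv
      rw [List.mem_toFinset] at hv ⊢
      exact hc.2.2.2.2.2 v (List.mem_of_mem_tail hv)
    have h9 := Finset.card_le_card h8
    rw [List.toFinset_card_of_nodup hc.2.2.2.1] at h9
    exact h9.trans (List.toFinset_card_le _)
  have h10 := sz_le_length_mul w (sz I) (fun v hv => by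
    rw [cyb_iff] at hc
    have h5 := sz_le_of_mem (hc.2.2.2.2.2 v hv)
    have h6 : sz I = sz I.1 + sz I.2 + 1 := sz_pair I.1 I.2
    omega)
  have h11 := length_lt_sz I.1
  have h12 : sz I = sz I.1 + sz I.2 + 1 := sz_pair I.1 I.2
  have h13 : w.length ≤ sz I + 2 := by
    rw [List.length_tail] at hcard
    omega
  simp only [Polynomial.eval_add, Polynomial.eval_mul, Polynomial.eval_X,
    Polynomial.eval_ofNat, Polynomial.eval_one]
  exact h10.trans (Nat.add_le_add_right (Nat.mul_le_mul_right _ h13) 1)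

/-- Rotation of a Hamiltonian cycle. -/
theorem HamFun.rotate {I : List ℕ × List (ℕ × ℕ)} {n : ℕ} {y : ℕ → ℕ} (h : HamFun I n y)
    (k : ℕ) : HamFun I n (fun i => y ((i + k) % n)) := by
  obtain ⟨h1, h2, h3, h4, h5, h6⟩ := h
  have hn : 0 < n := by omega
  refine ⟨h1, by simp, ?_, fun i hi => h4 _ (Nat.mod_lt _ hn), ?_, ?_⟩
  · intro i hi j hj he
    have := h3 _ (Nat.mod_lt _ hn) _ (Nat.mod_lt _ hn) he
    have h7 : (i + k) ≡ (j + k) [MOD n] := this
    have h8 : i ≡ j [MOD n] := Nat.ModEq.add_right_cancel' k h7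
    rwa [Nat.ModEq, Nat.mod_eq_of_lt hi, Nat.mod_eq_of_lt hj] at h8
  · intro v hv
    obtain ⟨i, hi, rfl⟩ := h5 v hv
    have hk := Nat.mod_lt k hn
    refine ⟨(i + (n - k % n)) % n, Nat.mod_lt _ hn, ?_⟩
    simp only
    congr 1
    rw [Nat.mod_add_mod]
    have : i + (n - k % n) + k = i + n * (1 + k / n) := by
      have := Nat.mod_add_div k n
      rw [Nat.mul_add, Nat.mul_one]
      omega
    rw [this, Nat.add_mul_mod_self_left, Nat.mod_eq_of_lt hi]
  · intro i hi
    have h7 := h6 ((i + k) % n) (Nat.mod_lt _ hn)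
    have h8 : y ((i + k) % n + 1) = y ((i + 1 + k) % n) := by
      by_cases hc : (i + k) % n + 1 = n
      · rw [hc, h2]
        congr 1
        have h9 := Nat.mod_add_mod (i + k) n 1
        rw [hc, Nat.mod_self] at h9
        rw [show i + 1 + k = i + k + 1 by ring]
        exact h9
      · congr 1
        have h10 := Nat.mod_lt (i + k) hn
        have h9 := Nat.mod_add_mod (i + k) n 1
        rw [Nat.mod_eq_of_lt (by omega)] at h9
        rw [show i + 1 + k = i + k + 1 by ring]
        exact h9
    rw [h8] at h7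
    exact h7

/-- A Hamiltonian cycle starting at a given vertex. -/
theorem hamFun_start {I : List ℕ × List (ℕ × ℕ)} (h : HasHamCycle I) {s : ℕ} (hs : s ∈ I.1) :
    ∃ n y, HamFun I n y ∧ y 0 = s := by
  obtain ⟨n, y, hy⟩ := hamFun_of I h
  obtain ⟨k, hk, hks⟩ := hy.2.2.2.2.1 s hs
  refine ⟨n, _, hy.rotate k, ?_⟩
  simp only [Nat.zero_add]
  rw [Nat.mod_eq_of_lt hk, hks]

end Pool.Agent.X239
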