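import Pool.Agent.NPC.Classes

/-!
# Homogeneous partial edge drawings: definitions
-/

namespace Pool.Agent.X239.PED

open Pool.Agent.NPC

/-- The data of a straight-line drawing: the list of the points of the vertices (rational
coordinates) and the list of the edges (pairs of vertices). -/
abbrev Drw : Type := List (ℚ × ℚ) × List (ℕ × ℕ)

/-- The point of the vertex `i`. -/
noncomputable def pos (Γ : Drw) (i : ℕ) : ℝ × ℝ :=
  (((Γ.1.getD i (0, 0)).1 : ℝ), ((Γ.1.getD i (0, 0)).2 : ℝ))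

/-- Euclidean distance in the plane. -/
noncomputable def eDist (p q : ℝ × ℝ) : ℝ := √((p.1 - q.1) ^ 2 + (p.2 - q.2) ^ 2)

/-- A straight-line drawing of a simple graph: the points are distinct, the edges are different
pairs of different vertices (written with the smaller number first), and no edge passes through a
vertex other than its endpoints. -/
structure IsDrawing (Γ : Drw) : Prop where
  points : Γ.1.Nodup
  edges : Γ.2.Nodup
  ends : ∀ e ∈ Γ.2, e.1 < e.2 ∧ e.2 < Γ.1.length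
  free : ∀ e ∈ Γ.2, ∀ i < Γ.1.length, pos Γ i ∈ segment ℝ (pos Γ e.1) (pos Γ e.2) →
    i = e.1 ∨ i = e.2

/-- The union of the two (closed) stubs of the edge `e`, of length `a` at the first endpoint and of
length `b` at the second one. -/
def stubs (Γ : Drw) (e : ℕ × ℕ) (a b : ℝ) : Set (ℝ × ℝ) :=
  {p | p ∈ segment ℝ (pos Γ e.1) (pos Γ e.2) ∧
    (eDist (pos Γ e.1) p ≤ a ∨ eDist (pos Γ e.2) p ≤ b)}

/-- `Γ` admits a `δ`-HPED: for every edge there are stub lengths `a, b ≥ 0` with sum `2 δ` times the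
length of the edge, such that stubs of different edges share at most a common endpoint. -/
def HasHPED (δ : ℝ) (Γ : Drw) : Prop :=
  ∃ a b : ℕ × ℕ → ℝ,
    (∀ e ∈ Γ.2, 0 ≤ a e ∧ 0 ≤ b e ∧ a e + b e = 2 * δ * eDist (pos Γ e.1) (pos Γ e.2)) ∧
    ∀ e ∈ Γ.2, ∀ f ∈ Γ.2, e ≠ f → ∀ p, p ∈ stubs Γ e (a e) (b e) → p ∈ stubs Γ f (a f) (b f) →
      ∃ w, (w = e.1 ∨ w = e.2) ∧ (w = f.1 ∨ w = f.2) ∧ p = pos Γ w

/-- Comparison of rational numbers with the constant `δ`: given an integer `n` and a natural number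
`m`, is `n / m ≤ δ`? -/
def Below (δ : ℝ) (q : ℤ × ℕ) : Prop := 0 < q.2 ∧ (q.1 : ℝ) / q.2 ≤ δ

end Pool.Agent.X239.PED
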