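import Pool.Agent.X239.PEDDefs

/-!
# Homogeneous partial edge drawings: geometry
-/

namespace Pool.Agent.X239.PED

/-- First coordinate. -/
def qx (Γ : Drw) (i : ℕ) : ℚ := (Γ.1.getD i (0, 0)).1

/-- Second coordinate. -/
def qy (Γ : Drw) (i : ℕ) : ℚ := (Γ.1.getD i (0, 0)).2

/-- The determinant of the directions of two edges. -/
def det (Γ : Drw) (e f : ℕ × ℕ) : ℚ :=
  (qx Γ e.2 - qx Γ e.1) * (qy Γ f.2 - qy Γ f.1) - (qy Γ e.2 - qy Γ e.1) * (qx Γ f.2 - qx Γ f.1)

/-- The numerator of the parameter. -/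
def num (Γ : Drw) (e f : ℕ × ℕ) : ℚ :=
  (qx Γ f.1 - qx Γ e.1) * (qy Γ f.2 - qy Γ f.1) - (qy Γ f.1 - qy Γ e.1) * (qx Γ f.2 - qx Γ f.1)

/-- The parameter on `e` of the intersection with the line of `f`. -/
def par (Γ : Drw) (e f : ℕ × ℕ) : ℚ := num Γ e f / det Γ e f

/-- `e` and `f` cross. -/
def Cr (Γ : Drw) (e f : ℕ × ℕ) : Prop :=
  det Γ e f ≠ 0 ∧ 0 < par Γ e f ∧ par Γ e f < 1 ∧ 0 < par Γ f e ∧ par Γ f e < 1

/-- The point with parameter `t` between `p` and `q`. -/
def pt (p q : ℝ × ℝ) (t : ℝ) : ℝ × ℝ := (p.1 + t * (q.1 - p.1), p.2 + t * (q.2 - p.2))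

theorem mem_seg {p q x : ℝ × ℝ} : x ∈ segment ℝ p q ↔ ∃ t : ℝ, 0 ≤ t ∧ t ≤ 1 ∧ x = pt p q t := by
  constructor
  · rintro ⟨a, b, ha, hb, hab, rfl⟩
    refine ⟨b, hb, by linarith, ?_⟩
    have : a = 1 - b := by linarith
    subst this
    unfold pt
    ext
    · simp only [Prod.fst_add, Prod.smul_fst, smul_eq_mul]; ring
    · simp only [Prod.snd_add, Prod.smul_snd, smul_eq_mul]; ring
  · rintro ⟨t, h0, h1, rfl⟩
    refine ⟨1 - t, t, by linarith, h0, by ring, ?_⟩
    unfold pt
    ext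
    · simp only [Prod.fst_add, Prod.smul_fst, smul_eq_mul]; ring
    · simp only [Prod.snd_add, Prod.smul_snd, smul_eq_mul]; ring

theorem eDist_left (p q : ℝ × ℝ) {t : ℝ} (ht : 0 ≤ t) : eDist p (pt p q t) = t * eDist p q := by
  unfold eDist pt
  have : (p.1 - (p.1 + t * (q.1 - p.1))) ^ 2 + (p.2 - (p.2 + t * (q.2 - p.2))) ^ 2 =
      t ^ 2 * ((p.1 - q.1) ^ 2 + (p.2 - q.2) ^ 2) := by ring
  simp only
  rw [this, Real.sqrt_mul (sq_nonneg t), Real.sqrt_sq ht]

theorem eDist_right (p q : ℝ × ℝ) {t : ℝ} (ht : t ≤ 1) :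
    eDist q (pt p q t) = (1 - t) * eDist p q := by
  unfold eDist pt
  have : (q.1 - (p.1 + t * (q.1 - p.1))) ^ 2 + (q.2 - (p.2 + t * (q.2 - p.2))) ^ 2 =
      (1 - t) ^ 2 * ((p.1 - q.1) ^ 2 + (p.2 - q.2) ^ 2) := by ring
  simp only
  rw [this, Real.sqrt_mul (sq_nonneg _), Real.sqrt_sq (by linarith)]

theorem eDist_pos {p q : ℝ × ℝ} (h : p ≠ q) : 0 < eDist p q := by
  unfold eDist
  apply Real.sqrt_pos.2
  by_contra hc
  push Not at hc
  have h1 := sq_nonneg (p.1 - q.1)
  have h2 := sq_nonneg (p.2 - q.2)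
  have h3 : p.1 - q.1 = 0 := by
    have : (p.1 - q.1) ^ 2 = 0 := by linarith
    exact pow_eq_zero_iff (two_ne_zero) |>.1 this
  have h4 : p.2 - q.2 = 0 := by
    have : (p.2 - q.2) ^ 2 = 0 := by linarith
    exact pow_eq_zero_iff (two_ne_zero) |>.1 this
  exact h (Prod.ext (by linarith) (by linarith))

theorem pt_zero (p q : ℝ × ℝ) : pt p q 0 = p := by
  unfold pt; ext <;> simp

theorem pt_one (p q : ℝ × ℝ) : pt p q 1 = q := by
  unfold pt; ext <;> simp

theorem pt_inj {p q : ℝ × ℝ} (h : p ≠ q) {s t : ℝ} (hst : pt p q s = pt p q t) : s = t := by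
  unfold pt at hst
  rw [Prod.mk.injEq] at hst
  by_contra hne
  apply h
  have h0 : s - t ≠ 0 := sub_ne_zero.2 hne
  have h1 : (s - t) * (q.1 - p.1) = 0 := by linarith [hst.1]
  have h2 : (s - t) * (q.2 - p.2) = 0 := by linarith [hst.2]
  ext
  · have := (mul_eq_zero.1 h1).resolve_left h0; linarith
  · have := (mul_eq_zero.1 h2).resolve_left h0; linarith

theorem pt_rev (p q : ℝ × ℝ) (t : ℝ) : pt q p (1 - t) = pt p q t := by
  unfold pt
  ext <;> simp only <;> ring

/-- Parallel edges which share a point share an endpoint there, or coincide; same direction. -/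
theorem parallel_pos {P : ℕ → ℝ × ℝ} {u v u' v' : ℕ} (huv : P u ≠ P v)
    (h1 : ∀ x, x = u' ∨ x = v' → P x ∈ segment ℝ (P u) (P v) → x = u ∨ x = v)
    (h2 : ∀ x, x = u ∨ x = v → P x ∈ segment ℝ (P u') (P v') → x = u' ∨ x = v')
    {c t s : ℝ} (hc : 0 < c) (ht0 : 0 ≤ t) (ht1 : t ≤ 1) (hs0 : 0 ≤ s) (hs1 : s ≤ 1)
    (hu' : P u' = pt (P u) (P v) (t - s * c)) (hv' : P v' = pt (P u) (P v) (t + (1 - s) * c)) :
    (∃ w, (w = u ∨ w = v) ∧ (w = u' ∨ w = v') ∧ pt (P u) (P v) t = P w) ∨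
      (u = u' ∧ v = v') := by
  have hsc : 0 ≤ s * c := mul_nonneg hs0 hc.le
  have hsc' : 0 ≤ (1 - s) * c := mul_nonneg (by linarith) hc.le
  -- the parameter of a point of `e` with respect to `f`
  have hpar : ∀ r : ℝ, pt (P u') (P v') r = pt (P u) (P v) (t - s * c + r * c) := by
    intro r
    rw [hu', hv']
    unfold pt
    ext <;> simp only <;> ring
  by_cases ha : 0 ≤ t - s * c
  · have hm : P u' ∈ segment ℝ (P u) (P v) := mem_seg.2 ⟨_, ha, by linarith, hu'⟩
    rcases h1 u' (Or.inl rfl) hm with h | h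
    · -- `u' = u`
      have ha0 : t - s * c = 0 := by
        apply pt_inj huv
        rw [← hu', h, pt_zero]
      right
      refine ⟨h.symm, ?_⟩
      by_cases hb : t + (1 - s) * c ≤ 1
      · have hm' : P v' ∈ segment ℝ (P u) (P v) := mem_seg.2 ⟨_, by linarith, hb, hv'⟩
        rcases h1 v' (Or.inr rfl) hm' with h' | h'
        · exfalso
          have hb0 : t + (1 - s) * c = 0 := by
            apply pt_inj huv
            rw [← hv', h', pt_zero]
          nlinarith
        · exact h'.symm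
      · push Not at hb
        have hm' : P v ∈ segment ℝ (P u') (P v') := by
          refine mem_seg.2 ⟨1 / c, by positivity, ?_, ?_⟩
          · rw [div_le_one hc]; nlinarith
          · rw [hpar, ha0, zero_add, one_div_mul_cancel hc.ne', pt_one]
        rcases h2 v (Or.inr rfl) hm' with h' | h'
        · exfalso
          apply huv
          rw [h', h]
        · exact h'
    · -- `u' = v`
      have ha1 : t - s * c = 1 := by
        apply pt_inj huv
        rw [← hu', h, pt_one]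
      left
      have ht : t = 1 := by linarith
      refine ⟨v, Or.inr rfl, Or.inl h.symm, ?_⟩
      rw [ht, pt_one]
  · push Not at ha
    have hm' : P u ∈ segment ℝ (P u') (P v') := by
      refine mem_seg.2 ⟨(s * c - t) / c, by apply div_nonneg <;> linarith, ?_, ?_⟩
      · rw [div_le_one hc]; nlinarith
      · rw [hpar, div_mul_cancel₀ _ hc.ne']
        have : t - s * c + (s * c - t) = 0 := by ring
        rw [this, pt_zero]
    rcases h2 u (Or.inl rfl) hm' with h' | h'
    · exfalso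
      have : t - s * c = 0 := by
        apply pt_inj huv
        rw [← hu', ← h', pt_zero]
      linarith
    · have hb0 : t + (1 - s) * c = 0 := by
        apply pt_inj huv
        rw [← hv', ← h', pt_zero]
      left
      have ht : t = 0 := by linarith
      refine ⟨u, Or.inl rfl, Or.inr h', ?_⟩
      rw [ht, pt_zero]

/-- Parallel edges which share a point share an endpoint there, or coincide. -/
theorem parallel {P : ℕ → ℝ × ℝ} {u v u' v' : ℕ} (huv : P u ≠ P v) (huv' : P u' ≠ P v')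
    (h1 : ∀ x, x = u' ∨ x = v' → P x ∈ segment ℝ (P u) (P v) → x = u ∨ x = v)
    (h2 : ∀ x, x = u ∨ x = v → P x ∈ segment ℝ (P u') (P v') → x = u' ∨ x = v')
    (hdet : ((P v).1 - (P u).1) * ((P v').2 - (P u').2) -
      ((P v).2 - (P u).2) * ((P v').1 - (P u').1) = 0)
    {t s : ℝ} (ht0 : 0 ≤ t) (ht1 : t ≤ 1) (hs0 : 0 ≤ s) (hs1 : s ≤ 1)
    (he : pt (P u) (P v) t = pt (P u') (P v') s) :
    (∃ w, (w = u ∨ w = v) ∧ (w = u' ∨ w = v') ∧ pt (P u) (P v) t = P w) ∨
      (u = u' ∧ v = v') ∨ (u = v' ∧ v = u') := by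
  -- the factor
  obtain ⟨c, hc1, hc2⟩ : ∃ c : ℝ, (P v').1 - (P u').1 = c * ((P v).1 - (P u).1) ∧
      (P v').2 - (P u').2 = c * ((P v).2 - (P u).2) := by
    by_cases hx : (P v).1 - (P u).1 = 0
    · have hy : (P v).2 - (P u).2 ≠ 0 := by
        intro hy
        exact huv (Prod.ext (by linarith) (by linarith))
      refine ⟨((P v').2 - (P u').2) / ((P v).2 - (P u).2), ?_, by field_simp⟩
      rw [hx, zero_mul, zero_sub, neg_eq_zero] at hdet
      rw [hx, mul_zero]
      exact (mul_eq_zero.1 hdet).resolve_left hy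
    · refine ⟨((P v').1 - (P u').1) / ((P v).1 - (P u).1), by field_simp, ?_⟩
      rw [div_mul_eq_mul_div, eq_div_iff hx]
      linarith
  have hc0 : c ≠ 0 := by
    intro hc
    rw [hc, zero_mul] at hc1 hc2
    exact huv' (Prod.ext (by linarith) (by linarith))
  have hu' : P u' = pt (P u) (P v) (t - s * c) := by
    unfold pt at he ⊢
    rw [Prod.mk.injEq] at he
    ext
    · simp only; rw [hc1] at he; linarith [he.1]
    · simp only; rw [hc2] at he; linarith [he.2]
  have hv' : P v' = pt (P u) (P v) (t + (1 - s) * c) := by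
    have e1 : (P v').1 = (P u').1 + c * ((P v).1 - (P u).1) := by linarith
    have e2 : (P v').2 = (P u').2 + c * ((P v).2 - (P u).2) := by linarith
    rw [hu'] at e1 e2
    unfold pt at e1 e2 ⊢
    simp only at e1 e2
    ext
    · simp only; rw [e1]; ring
    · simp only; rw [e2]; ring
  rcases lt_or_gt_of_ne hc0 with hc | hc
  · rcases parallel_pos (P := P) (u := u) (v := v) (u' := v') (v' := u') huv
      (fun x hx => h1 x hx.symm) (fun x hx hm => (h2 x hx (by rwa [segment_symm])).symm)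
      (c := -c) (t := t) (s := 1 - s) (by linarith) ht0 ht1 (by linarith) (by linarith)
      (by rw [hv']; congr 1; ring) (by rw [hu']; congr 1; ring) with ⟨w, hw1, hw2, hw3⟩ | h
    · exact Or.inl ⟨w, hw1, hw2.symm, hw3⟩
    · exact Or.inr (Or.inr h)
  · rcases parallel_pos huv h1 h2 hc ht0 ht1 hs0 hs1 hu' hv' with h | h
    · exact Or.inl h
    · exact Or.inr (Or.inl h)

end Pool.Agent.X239.PED
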