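import Pool.Agent.H614R2.DPO.TP1
import Pool.Agent.H614R2.DPO.TG2

/-!
# 2-SAT in polynomial time
-/

namespace Pool.Agent.X239.TwoSat

open Relation Pool.Agent.NPC Pool.Agent.H614R2.DPO

variable {X : Type}

/-- The complementary literal. -/
def neg (l : X × Bool) : X × Bool := (l.1, !l.2)

theorem neg_neg (l : X × Bool) : neg (neg l) = l := by
  obtain ⟨x, b⟩ := l
  simp [neg]

/-- The implications given by the clauses. -/
def imp (C : X × Bool → X × Bool → Bool) (l l' : X × Bool) : Bool := C (neg l) l' || C l' (neg l)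

theorem imp_neg (C : X × Bool → X × Bool → Bool) (l l' : X × Bool) :
    imp C (neg l') (neg l) = imp C l l' := by
  unfold imp
  rw [neg_neg, Bool.or_comm]

/-- All literals of the variables in `S`. -/
def lits (S : List X) : List (X × Bool) := S.flatMap fun x => [(x, true), (x, false)]

theorem mem_lits {S : List X} {l : X × Bool} : l ∈ lits S ↔ l.1 ∈ S := by
  unfold lits
  rw [List.mem_flatMap]
  constructor
  · rintro ⟨x, hx, h⟩
    simp only [List.mem_cons, List.not_mem_nil, or_false] at h
    rcases h with rfl | rfl <;> exact hx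
  · intro h
    obtain ⟨x, b⟩ := l
    refine ⟨x, h, ?_⟩
    cases b <;> simp

/-- Satisfiability of the set of clauses with at most two literals. -/
def Sat (S : List X) (C : X × Bool → X × Bool → Bool) : Prop :=
  ∃ v : X → Bool, ∀ x ∈ S, ∀ y ∈ S, ∀ b c, C (x, b) (y, c) = true → v x = b ∨ v y = c

variable [DecidableEq X]

/-- The decision procedure. -/
def dec (S : List X) (C : X × Bool → X × Bool → Bool) : Bool :=
  S.all fun x => !(decide ((x, false) ∈ reachG (imp C) (lits S) (x, true)) &&
    decide ((x, true) ∈ reachG (imp C) (lits S) (x, false)))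

/-- One step. -/
def Stp (S : List X) (C : X × Bool → X × Bool → Bool) (a b : X × Bool) : Prop :=
  imp C a b = true ∧ b ∈ lits S

theorem rev {S : List X} {C : X × Bool → X × Bool → Bool} {l l' : X × Bool} (hl : l ∈ lits S)
    (h : ReflTransGen (Stp S C) l l') : ReflTransGen (Stp S C) (neg l') (neg l) := by
  induction h with
  | refl => exact .refl
  | @tail b c hb hbc ih =>
    refine ReflTransGen.head ⟨?_, ?_⟩ ih
    · rw [imp_neg]; exact hbc.1
    · have hb' : b ∈ lits S := by
        rcases ReflTransGen.cases_tail hb with h | ⟨d, _, hd⟩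
        · rw [h]; exact hl
        · exact hd.2
      rw [mem_lits] at hb' ⊢
      exact hb'

theorem mem_of_reach {S : List X} {C : X × Bool → X × Bool → Bool} {l l' : X × Bool}
    (hl : l ∈ lits S) (h : ReflTransGen (Stp S C) l l') : l' ∈ lits S := by
  rcases ReflTransGen.cases_tail h with h | ⟨d, _, hd⟩
  · rw [h]; exact hl
  · exact hd.2

theorem sat_of {S : List X} {C : X × Bool → X × Bool → Bool}
    (h : ∀ x ∈ S, ¬ (ReflTransGen (Stp S C) (x, true) (x, false) ∧
      ReflTransGen (Stp S C) (x, false) (x, true))) : Sat S C := by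
  classical
  -- a maximal consistent closed set of literals
  let P : Finset (X × Bool) → Prop := fun T => (∀ l ∈ T, l ∈ lits S) ∧
    (∀ l ∈ T, ∀ l' ∈ lits S, imp C l l' = true → l' ∈ T) ∧ (∀ l ∈ T, neg l ∉ T)
  obtain ⟨T, hT, hmax⟩ := Finset.exists_max_image
    ((lits S).toFinset.powerset.filter P) Finset.card ⟨∅, by simp [P]⟩
  rw [Finset.mem_filter, Finset.mem_powerset] at hT
  obtain ⟨hTsub, hT1, hT2, hT3⟩ := hT
  have hclosed : ∀ l ∈ T, ∀ l', ReflTransGen (Stp S C) l l' → l' ∈ T := by
    intro l hl l' h
    induction h with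
    | refl => exact hl
    | tail _ hbc ih => exact hT2 _ ih _ hbc.2 hbc.1
  have htot : ∀ x ∈ S, ∀ b, (x, b) ∉ T → (x, !b) ∈ T := by
    intro x hx b hb
    by_contra hb'
    -- a literal of `x` that does not imply its complement
    obtain ⟨c, hc⟩ : ∃ c, ¬ ReflTransGen (Stp S C) (x, c) (x, !c) := by
      by_contra hall
      push Not at hall
      exact h x hx ⟨hall true, hall false⟩
    have hcT : (x, c) ∉ T := by
      rcases Bool.eq_or_eq_not c b with rfl | rfl
      · exact hb
      · exact hb'
    have hcT' : (x, !c) ∉ T := by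
      rcases Bool.eq_or_eq_not c b with rfl | rfl
      · exact hb'
      · simpa using hb
    have hxl : (x, c) ∈ lits S := mem_lits.2 hx
    let T' := T ∪ (lits S).toFinset.filter fun l => ReflTransGen (Stp S C) (x, c) l
    have hmem : ∀ l, l ∈ T' ↔ l ∈ T ∨ (l ∈ lits S ∧ ReflTransGen (Stp S C) (x, c) l) := by
      intro l
      simp only [T', Finset.mem_union, Finset.mem_filter, List.mem_toFinset]
    have hT' : T' ∈ (lits S).toFinset.powerset.filter P := by
      rw [Finset.mem_filter, Finset.mem_powerset]
      refine ⟨?_, ?_, ?_, ?_⟩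
      · intro l hl
        rw [List.mem_toFinset]
        rcases (hmem l).1 hl with h | h
        · exact hT1 l h
        · exact h.1
      · intro l hl
        rcases (hmem l).1 hl with h | h
        · exact hT1 l h
        · exact h.1
      · intro l hl l' hl' hi
        rw [hmem]
        rcases (hmem l).1 hl with h | h
        · exact Or.inl (hT2 l h l' hl' hi)
        · exact Or.inr ⟨hl', h.2.tail ⟨hi, hl'⟩⟩
      · intro l hl hn
        rcases (hmem l).1 hl with h | h <;> rcases (hmem _).1 hn with h' | h'
        · exact hT3 l h h'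
        · -- `l ∈ T`, and `x ⇝ neg l`, so `l ⇝ neg x`
          have h1 := rev hxl h'.2
          rw [neg_neg] at h1
          exact hcT' (hclosed l h _ h1)
        · have h1 := rev hxl h.2
          exact hcT' (hclosed _ h' _ h1)
        · have h1 := rev hxl h'.2
          rw [neg_neg] at h1
          exact hc (h.2.trans h1)
    have hlt : T.card < T'.card := by
      apply Finset.card_lt_card
      rw [Finset.ssubset_iff_of_subset Finset.subset_union_left]
      exact ⟨(x, c), (hmem _).2 (Or.inr ⟨hxl, .refl⟩), hcT⟩
    exact absurd (hmax T' hT') (by omega)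
  refine ⟨fun x => decide ((x, true) ∈ T), ?_⟩
  have hv : ∀ x ∈ S, ∀ b, (x, b) ∈ T → decide ((x, true) ∈ T) = b := by
    intro x hx b hb
    cases b with
    | true => simpa using hb
    | false =>
      have := hT3 _ hb
      simp only [neg, Bool.not_false] at this
      simpa using this
  intro x hx y hy b c hC
  by_cases hb : (x, b) ∈ T
  · exact Or.inl (hv x hx b hb)
  · have h1 := htot x hx b hb
    refine Or.inr (hv y hy c (hT2 _ h1 _ (mem_lits.2 hy) ?_))
    unfold imp
    have e : neg (x, !b) = (x, b) := by simp [neg]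
    rw [e, hC, Bool.true_or]

theorem of_sat {S : List X} {C : X × Bool → X × Bool → Bool} (h : Sat S C) :
    ∀ x ∈ S, ¬ (ReflTransGen (Stp S C) (x, true) (x, false) ∧
      ReflTransGen (Stp S C) (x, false) (x, true)) := by
  obtain ⟨v, hv⟩ := h
  have key : ∀ l l', l ∈ lits S → ReflTransGen (Stp S C) l l' → v l.1 = l.2 → v l'.1 = l'.2 := by
    intro l l' hl h hl0
    induction h with
    | refl => exact hl0
    | @tail b c hb hbc ih =>
      have hbS := mem_of_reach hl hb
      have hi := hbc.1
      have hcS := hbc.2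
      rw [mem_lits] at hbS hcS
      obtain ⟨bx, bb⟩ := b
      obtain ⟨cx, cb⟩ := c
      simp only at ih hbS hcS ⊢
      unfold imp at hi
      rw [Bool.or_eq_true] at hi
      simp only [neg] at hi
      rcases hi with hi | hi
      · rcases hv bx hbS cx hcS _ _ hi with h | h
        · rw [ih] at h; simp at h
        · exact h
      · rcases hv cx hcS bx hbS _ _ hi with h | h
        · exact h
        · rw [ih] at h; simp at h
  rintro x hx ⟨h1, h2⟩
  cases hvx : v x with
  | true =>
    have := key _ _ (mem_lits.2 hx) h1 hvx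
    simp only at this
    rw [hvx] at this
    exact absurd this (by simp)
  | false =>
    have := key _ _ (mem_lits.2 hx) h2 hvx
    simp only at this
    rw [hvx] at this
    exact absurd this (by simp)

theorem dec_iff {S : List X} {C : X × Bool → X × Bool → Bool} : dec S C = true ↔ Sat S C := by
  have e : dec S C = true ↔ ∀ x ∈ S, ¬ (ReflTransGen (Stp S C) (x, true) (x, false) ∧
      ReflTransGen (Stp S C) (x, false) (x, true)) := by
    unfold dec
    rw [List.all_eq_true]
    refine forall₂_congr fun x hx => ?_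
    rw [Bool.not_eq_true', Bool.and_eq_false_iff, decide_eq_false_iff_not,
      decide_eq_false_iff_not, mem_reachG, mem_reachG, ← not_and_or]
    refine not_congr ?_
    have hl : ∀ b, ((x, b) : X × Bool) ∈ lits S := fun b => mem_lits.2 hx
    exact ⟨fun h => ⟨h.1.2, h.2.2⟩, fun h => ⟨⟨hl _, h.1⟩, ⟨hl _, h.2⟩⟩⟩
  rw [e]
  exact ⟨sat_of, of_sat⟩

section poly

variable {α : Type} [TEnc α] [TEnc X]

theorem poly_dec {S : α → List X} {C : α → X × Bool → X × Bool → Bool} (hS : Poly S)
    (hC : Poly fun p : α × (X × Bool) × (X × Bool) => C p.1 p.2.1 p.2.2) :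
    Poly fun a => dec (S a) (C a) := by
  have himp : Poly fun p : α × (X × Bool) × (X × Bool) => imp (C p.1) p.2.1 p.2.2 := by
    unfold imp neg
    have h1 : Poly fun p : α × (X × Bool) × (X × Bool) => C p.1 (p.2.1.1, !p.2.1.2) p.2.2 :=
      Poly.comp hC (f := fun p : α × (X × Bool) × (X × Bool) => (p.1, (p.2.1.1, !p.2.1.2), p.2.2))
        (by fun_prop)
    have h2 : Poly fun p : α × (X × Bool) × (X × Bool) => C p.1 p.2.2 (p.2.1.1, !p.2.1.2) :=
      Poly.comp hC (f := fun p : α × (X × Bool) × (X × Bool) => (p.1, p.2.2, (p.2.1.1, !p.2.1.2)))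
        (by fun_prop)
    fun_prop
  have hl : Poly fun a => lits (S a) := by
    unfold lits
    fun_prop
  have hr : ∀ b : Bool, Poly fun p : α × X => reachG (imp (C p.1)) (lits (S p.1)) (p.2, b) := by
    intro b
    refine poly_reachG (α := α × X) (R := fun p => imp (C p.1)) (S := fun p => lits (S p.1))
      (x := fun p => (p.2, b)) ?_ ?_ ?_
    · exact Poly.comp himp (f := fun p : (α × X) × (X × Bool) × (X × Bool) => (p.1.1, p.2.1, p.2.2))
        (by fun_prop)
    · exact Poly.comp hl (f := fun p : α × X => p.1) (by fun_prop)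
    · fun_prop
  have h1 := hr true
  have h2 := hr false
  unfold dec
  have h3 : Poly fun p : α × X => !(decide ((p.2, false) ∈ reachG (imp (C p.1)) (lits (S p.1))
      (p.2, true)) && decide ((p.2, true) ∈ reachG (imp (C p.1)) (lits (S p.1)) (p.2, false))) := by
    fun_prop
  fun_prop

end poly

end Pool.Agent.X239.TwoSat
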