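import Pool.Agent.X239.PEDGeo
import Pool.Agent.X239.TwoSat

/-!
# Homogeneous partial edge drawings as 2-SAT
-/

namespace Pool.Agent.X239.PED

open Pool.Agent.X239.TwoSat

variable {Γ : Drw}

theorem pos_fst (i : ℕ) : (pos Γ i).1 = (qx Γ i : ℝ) := rfl

theorem pos_snd (i : ℕ) : (pos Γ i).2 = (qy Γ i : ℝ) := rfl

theorem pos_inj (hΓ : IsDrawing Γ) {i j : ℕ} (hi : i < Γ.1.length) (hj : j < Γ.1.length)
    (h : pos Γ i = pos Γ j) : i = j := by
  unfold pos at h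
  rw [Prod.mk.injEq] at h
  obtain ⟨h1, h2⟩ := h
  have h1' := Rat.cast_injective h1
  have h2' := Rat.cast_injective h2
  rw [List.getD_eq_getElem _ _ hi, List.getD_eq_getElem _ _ hj] at h1' h2'
  exact (List.Nodup.getElem_inj_iff hΓ.points).1 (Prod.ext h1' h2')

theorem pos_ne (hΓ : IsDrawing Γ) {e : ℕ × ℕ} (he : e ∈ Γ.2) : pos Γ e.1 ≠ pos Γ e.2 := by
  intro h
  obtain ⟨h1, h2⟩ := hΓ.ends e he
  have := pos_inj hΓ (h1.trans h2) h2 h
  omega

theorem det_symm (e f : ℕ × ℕ) : det Γ f e = -det Γ e f := by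
  unfold det; ring

/-- The parameters of a common point. -/
theorem par_eq {e f : ℕ × ℕ} (hdet : det Γ e f ≠ 0) {t s : ℝ}
    (h : pt (pos Γ e.1) (pos Γ e.2) t = pt (pos Γ f.1) (pos Γ f.2) s) : t = (par Γ e f : ℝ) := by
  unfold par
  have hd : ((det Γ e f : ℚ) : ℝ) ≠ 0 := by exact_mod_cast hdet
  rw [Rat.cast_div, eq_div_iff hd]
  unfold det num
  push_cast
  unfold pt at h
  rw [Prod.mk.injEq] at h
  simp only [pos_fst, pos_snd] at h
  obtain ⟨h1, h2⟩ := h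
  linear_combination ((qy Γ f.2 : ℝ) - qy Γ f.1) * h1 - ((qx Γ f.2 : ℝ) - qx Γ f.1) * h2

theorem pt_par {e f : ℕ × ℕ} (hdet : det Γ e f ≠ 0) :
    pt (pos Γ e.1) (pos Γ e.2) (par Γ e f) = pt (pos Γ f.1) (pos Γ f.2) (par Γ f e) := by
  have hd : ((det Γ e f : ℚ) : ℝ) ≠ 0 := by exact_mod_cast hdet
  unfold par
  rw [det_symm e f]
  unfold pt
  simp only [pos_fst, pos_snd]
  push_cast
  have hd2 : (-(det Γ e f : ℚ) : ℝ) ≠ 0 := neg_ne_zero.2 hd
  ext
  · simp only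
    rw [div_mul_eq_mul_div, div_neg, neg_mul, div_mul_eq_mul_div, ← sub_eq_zero]
    have : (qx Γ e.1 : ℝ) + (num Γ e f : ℝ) * ((qx Γ e.2 : ℝ) - qx Γ e.1) / (det Γ e f : ℝ) -
        ((qx Γ f.1 : ℝ) + -((num Γ f e : ℝ) * ((qx Γ f.2 : ℝ) - qx Γ f.1) / (det Γ e f : ℝ))) =
        (((qx Γ e.1 : ℝ) - qx Γ f.1) * (det Γ e f : ℝ) +
          (num Γ e f : ℝ) * ((qx Γ e.2 : ℝ) - qx Γ e.1) +
          (num Γ f e : ℝ) * ((qx Γ f.2 : ℝ) - qx Γ f.1)) / (det Γ e f : ℝ) := by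
      field_simp
      ring
    rw [this]
    have h0 : ((qx Γ e.1 : ℝ) - qx Γ f.1) * (det Γ e f : ℝ) +
          (num Γ e f : ℝ) * ((qx Γ e.2 : ℝ) - qx Γ e.1) +
          (num Γ f e : ℝ) * ((qx Γ f.2 : ℝ) - qx Γ f.1) = 0 := by
      unfold num det
      push_cast
      ring
    rw [h0, zero_div]
  · simp only
    rw [div_mul_eq_mul_div, div_neg, neg_mul, div_mul_eq_mul_div, ← sub_eq_zero]
    have : (qy Γ e.1 : ℝ) + (num Γ e f : ℝ) * ((qy Γ e.2 : ℝ) - qy Γ e.1) / (det Γ e f : ℝ) -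
        ((qy Γ f.1 : ℝ) + -((num Γ f e : ℝ) * ((qy Γ f.2 : ℝ) - qy Γ f.1) / (det Γ e f : ℝ))) =
        (((qy Γ e.1 : ℝ) - qy Γ f.1) * (det Γ e f : ℝ) +
          (num Γ e f : ℝ) * ((qy Γ e.2 : ℝ) - qy Γ e.1) +
          (num Γ f e : ℝ) * ((qy Γ f.2 : ℝ) - qy Γ f.1)) / (det Γ e f : ℝ) := by
      field_simp
      ring
    rw [this]
    have h0 : ((qy Γ e.1 : ℝ) - qy Γ f.1) * (det Γ e f : ℝ) +
          (num Γ e f : ℝ) * ((qy Γ e.2 : ℝ) - qy Γ e.1) +
          (num Γ f e : ℝ) * ((qy Γ f.2 : ℝ) - qy Γ f.1) = 0 := by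
      unfold num det
      push_cast
      ring
    rw [h0, zero_div]

theorem Cr.symm {e f : ℕ × ℕ} (h : Cr Γ e f) : Cr Γ f e := by
  obtain ⟨h1, h2, h3, h4, h5⟩ := h
  refine ⟨?_, h4, h5, h2, h3⟩
  rw [det_symm]
  exact neg_ne_zero.2 h1

/-- The condition in terms of the parameters of the gaps. -/
def Gaps (δ : ℝ) (Γ : Drw) : Prop :=
  ∃ s : ℕ × ℕ → ℝ, (∀ e ∈ Γ.2, 0 ≤ s e ∧ s e ≤ 2 * δ) ∧
    ∀ e ∈ Γ.2, ∀ f ∈ Γ.2, Cr Γ e f →
      (s e < par Γ e f ∧ (par Γ e f : ℝ) - (1 - 2 * δ) < s e) ∨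
      (s f < par Γ f e ∧ (par Γ f e : ℝ) - (1 - 2 * δ) < s f)

theorem gaps_of_hasHPED {δ : ℝ} (hΓ : IsDrawing Γ) (h : HasHPED δ Γ) : Gaps δ Γ := by
  obtain ⟨a, b, hab, hst⟩ := h
  refine ⟨fun e => a e / eDist (pos Γ e.1) (pos Γ e.2), fun e he => ?_, fun e he f hf hcr => ?_⟩
  · have hL := eDist_pos (pos_ne hΓ he)
    obtain ⟨h1, h2, h3⟩ := hab e he
    refine ⟨div_nonneg h1 hL.le, ?_⟩
    rw [div_le_iff₀ hL]
    linarith
  · by_contra hcon
    rw [not_or] at hcon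
    obtain ⟨hce, hcf⟩ := hcon
    have key : ∀ e ∈ Γ.2, ∀ f, Cr Γ e f → ¬ (a e / eDist (pos Γ e.1) (pos Γ e.2) < par Γ e f ∧
        (par Γ e f : ℝ) - (1 - 2 * δ) < a e / eDist (pos Γ e.1) (pos Γ e.2)) →
        pt (pos Γ e.1) (pos Γ e.2) (par Γ e f) ∈ stubs Γ e (a e) (b e) := by
      intro e he f hcr hn
      have hL := eDist_pos (pos_ne hΓ he)
      obtain ⟨h1, h2, h3⟩ := hab e he
      obtain ⟨_, h4, h5, _, _⟩ := hcr
      have h4' : (0 : ℝ) < par Γ e f := by exact_mod_cast h4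
      have h5' : (par Γ e f : ℝ) < 1 := by exact_mod_cast h5
      refine ⟨mem_seg.2 ⟨_, h4'.le, h5'.le, rfl⟩, ?_⟩
      rw [eDist_left _ _ h4'.le, eDist_right _ _ h5'.le]
      by_cases hlt : a e / eDist (pos Γ e.1) (pos Γ e.2) < par Γ e f
      · right
        have h6 : a e / eDist (pos Γ e.1) (pos Γ e.2) ≤ (par Γ e f : ℝ) - (1 - 2 * δ) := by
          by_contra hh
          exact hn ⟨hlt, not_le.1 hh⟩
        rw [div_le_iff₀ hL] at h6
        nlinarith
      · left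
        push Not at hlt
        rwa [le_div_iff₀ hL] at hlt
    have hne : e ≠ f := by
      rintro rfl
      apply hcr.1
      unfold det
      ring
    obtain ⟨w, hw1, -, hw3⟩ := hst e he f hf hne _ (key e he f hcr hce)
      (by rw [pt_par hcr.1]; exact key f hf e hcr.symm hcf)
    obtain ⟨_, h4, h5, _, _⟩ := hcr
    have h4' : (0 : ℝ) < par Γ e f := by exact_mod_cast h4
    have h5' : (par Γ e f : ℝ) < 1 := by exact_mod_cast h5
    rcases hw1 with rfl | rfl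
    · have := pt_inj (pos_ne hΓ he) (hw3.trans (pt_zero (pos Γ e.1) (pos Γ e.2)).symm)
      linarith
    · have := pt_inj (pos_ne hΓ he) (hw3.trans (pt_one (pos Γ e.1) (pos Γ e.2)).symm)
      linarith

theorem hasHPED_of_gaps {δ : ℝ} (hΓ : IsDrawing Γ) (h : Gaps δ Γ) : HasHPED δ Γ := by
  obtain ⟨s, hs, hg⟩ := h
  refine ⟨fun e => s e * eDist (pos Γ e.1) (pos Γ e.2),
    fun e => (2 * δ - s e) * eDist (pos Γ e.1) (pos Γ e.2), fun e he => ?_, ?_⟩
  · have hL := eDist_pos (pos_ne hΓ he)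
    obtain ⟨h1, h2⟩ := hs e he
    exact ⟨mul_nonneg h1 hL.le, mul_nonneg (by linarith) hL.le, by ring⟩
  · intro e he f hf hne p hpe hpf
    obtain ⟨hse, hpe⟩ := hpe
    obtain ⟨hsf, hpf⟩ := hpf
    obtain ⟨t, ht0, ht1, htp⟩ := mem_seg.1 hse
    obtain ⟨r, hr0, hr1, hrp⟩ := mem_seg.1 hsf
    have hee := hΓ.ends e he
    have hff := hΓ.ends f hf
    have hfree1 : ∀ x, x = f.1 ∨ x = f.2 → pos Γ x ∈ segment ℝ (pos Γ e.1) (pos Γ e.2) →
        x = e.1 ∨ x = e.2 := by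
      intro x hx hm
      refine hΓ.free e he x ?_ hm
      rcases hx with rfl | rfl <;> omega
    have hfree2 : ∀ x, x = e.1 ∨ x = e.2 → pos Γ x ∈ segment ℝ (pos Γ f.1) (pos Γ f.2) →
        x = f.1 ∨ x = f.2 := by
      intro x hx hm
      refine hΓ.free f hf x ?_ hm
      rcases hx with rfl | rfl <;> omega
    by_cases hdet : det Γ e f = 0
    · rcases parallel (P := pos Γ) (pos_ne hΓ he) (pos_ne hΓ hf) hfree1 hfree2 (by
        simp only [pos_fst, pos_snd]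
        have : ((det Γ e f : ℚ) : ℝ) = 0 := by exact_mod_cast hdet
        unfold det at this
        push_cast at this
        linarith) ht0 ht1 hr0 hr1 (htp.symm.trans hrp) with ⟨w, h1, h2, h3⟩ | ⟨h1, h2⟩ | ⟨h1, h2⟩
      · exact ⟨w, h1, h2, htp.trans h3⟩
      · exact absurd (Prod.ext h1 h2) hne
      · omega
    · have hte := par_eq hdet (htp.symm.trans hrp)
      have hdet' : det Γ f e ≠ 0 := by rw [det_symm]; exact neg_ne_zero.2 hdet
      have hrf := par_eq hdet' (hrp.symm.trans htp)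
      rcases eq_or_lt_of_le ht0 with h0 | h0
      · -- `p` is the first endpoint of `e`
        have hp : p = pos Γ e.1 := by rw [htp, ← h0, pt_zero]
        have := hfree2 e.1 (Or.inl rfl) (by rw [← hp]; exact hsf)
        exact ⟨e.1, Or.inl rfl, this, hp⟩
      rcases eq_or_lt_of_le ht1 with h1 | h1
      · have hp : p = pos Γ e.2 := by rw [htp, h1, pt_one]
        have := hfree2 e.2 (Or.inr rfl) (by rw [← hp]; exact hsf)
        exact ⟨e.2, Or.inr rfl, this, hp⟩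
      rcases eq_or_lt_of_le hr0 with h2 | h2
      · have hp : p = pos Γ f.1 := by rw [hrp, ← h2, pt_zero]
        have := hfree1 f.1 (Or.inl rfl) (by rw [← hp]; exact hse)
        exact ⟨f.1, this, Or.inl rfl, hp⟩
      rcases eq_or_lt_of_le hr1 with h3 | h3
      · have hp : p = pos Γ f.2 := by rw [hrp, h3, pt_one]
        have := hfree1 f.2 (Or.inr rfl) (by rw [← hp]; exact hse)
        exact ⟨f.2, this, Or.inr rfl, hp⟩
      exfalso
      have hcr : Cr Γ e f := by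
        refine ⟨hdet, ?_, ?_, ?_, ?_⟩
        · have : (0 : ℝ) < par Γ e f := by rw [← hte]; exact h0
          exact_mod_cast this
        · have : (par Γ e f : ℝ) < 1 := by rw [← hte]; exact h1
          exact_mod_cast this
        · have : (0 : ℝ) < par Γ f e := by rw [← hrf]; exact h2
          exact_mod_cast this
        · have : (par Γ f e : ℝ) < 1 := by rw [← hrf]; exact h3
          exact_mod_cast this
      have key : ∀ e ∈ Γ.2, ∀ t : ℝ, 0 ≤ t → t ≤ 1 →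
          (s e < t ∧ t - (1 - 2 * δ) < s e) →
          (eDist (pos Γ e.1) (pt (pos Γ e.1) (pos Γ e.2) t) ≤
              s e * eDist (pos Γ e.1) (pos Γ e.2) ∨
            eDist (pos Γ e.2) (pt (pos Γ e.1) (pos Γ e.2) t) ≤
              (2 * δ - s e) * eDist (pos Γ e.1) (pos Γ e.2)) → False := by
        intro e he t ht0 ht1 h5 h6
        have hL := eDist_pos (pos_ne hΓ he)
        rw [eDist_left _ _ ht0, eDist_right _ _ ht1] at h6
        rcases h6 with h6 | h6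
        · have := le_of_mul_le_mul_right h6 hL
          linarith [h5.1]
        · have := le_of_mul_le_mul_right h6 hL
          linarith [h5.2]
      rcases hg e he f hf hcr with h5 | h5
      · rw [← hte] at h5
        exact key e he t ht0 ht1 h5 (by rw [← htp]; exact hpe)
      · rw [← hrf] at h5
        exact key f hf r hr0 hr1 h5 (by rw [← hrp]; exact hpf)

/-- The conflict of two events on the same edge. -/
def Cf (δ : ℝ) (Γ : Drw) (e f f' : ℕ × ℕ) : Prop :=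
  Cr Γ e f ∧ Cr Γ e f' ∧ ((1 - (par Γ e f' - par Γ e f)) / 2 : ℚ) ≤ δ

/-- The clauses. -/
def Cl (δ : ℝ) (Γ : Drw) (l l' : (((ℕ × ℕ) × (ℕ × ℕ)) × Bool) × Bool) : Prop :=
  (l.2 = true ∧ l'.2 = true ∧ l.1.1.1 = l'.1.1.2 ∧ l.1.1.2 = l'.1.1.1 ∧
      Cr Γ l.1.1.1 l.1.1.2) ∨
    (l.2 = false ∧ l'.2 = false ∧ l.1.1.1 = l'.1.1.1 ∧ l.1.2 = true ∧ l'.1.2 = false ∧
      Cf δ Γ l.1.1.1 l.1.1.2 l'.1.1.2)

/-- The variables. -/
def vars (Γ : Drw) : List (((ℕ × ℕ) × (ℕ × ℕ)) × Bool) :=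
  Γ.2.flatMap fun e => Γ.2.flatMap fun f => [((e, f), true), ((e, f), false)]

theorem mem_vars {x : ((ℕ × ℕ) × (ℕ × ℕ)) × Bool} :
    x ∈ vars Γ ↔ x.1.1 ∈ Γ.2 ∧ x.1.2 ∈ Γ.2 := by
  unfold vars
  simp only [List.mem_flatMap, List.mem_cons, List.not_mem_nil, or_false]
  constructor
  · rintro ⟨e, he, f, hf, h | h⟩ <;> · rw [h]; exact ⟨he, hf⟩
  · intro h
    obtain ⟨⟨e, f⟩, b⟩ := x
    refine ⟨e, h.1, f, h.2, ?_⟩
    cases b <;> simp

open scoped Classical in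
theorem gaps_iff {δ : ℝ} (h0 : 0 < δ) (C : (((ℕ × ℕ) × (ℕ × ℕ)) × Bool) × Bool →
    (((ℕ × ℕ) × (ℕ × ℕ)) × Bool) × Bool → Bool)
    (hC : ∀ x ∈ vars Γ, ∀ y ∈ vars Γ, ∀ b c, C (x, b) (y, c) = true ↔ Cl δ Γ (x, b) (y, c)) :
    Gaps δ Γ ↔ Sat (vars Γ) C := by
  constructor
  · rintro ⟨s, hs, hg⟩
    refine ⟨fun x => if x.2 = true then decide (s x.1.1 < par Γ x.1.1 x.1.2)
      else decide ((par Γ x.1.1 x.1.2 : ℝ) - (1 - 2 * δ) < s x.1.1), ?_⟩
    intro x hx y hy b c hxy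
    rw [hC x hx y hy] at hxy
    obtain ⟨⟨e, f⟩, d⟩ := x
    obtain ⟨⟨e', f'⟩, d'⟩ := y
    have hx' := mem_vars.1 hx
    have hy' := mem_vars.1 hy
    simp only at hx' hy'
    rcases hxy with ⟨h1, h2, h3, h4, h5⟩ | ⟨h1, h2, h3, h4, h5, h6⟩
    · simp only at h1 h2 h3 h4 h5
      subst h1 h2 h3 h4
      rcases hg _ hx'.1 _ hx'.2 h5 with h | h
      · left
        cases d <;> simp [h.1, h.2]
      · right
        cases d' <;> simp [h.1, h.2]
    · simp only at h1 h2 h3 h4 h5 h6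
      subst h1 h2 h3 h4 h5
      by_contra hcon
      rw [not_or] at hcon
      obtain ⟨h7, h8⟩ := hcon
      simp only [↓reduceIte, Bool.not_eq_false, decide_eq_true_eq, Bool.false_eq_true] at h7 h8
      obtain ⟨_, _, h9⟩ := h6
      push_cast at h9
      linarith
  · rintro ⟨v, hv⟩
    have hex : ∀ e ∈ Γ.2, ∃ r : ℝ, (∀ x ∈ insert (0 : ℝ) ((Γ.2.toFinset.filter fun f =>
        Cr Γ e f ∧ v ((e, f), false) = true).image fun f => (par Γ e f : ℝ) - (1 - 2 * δ)), x < r) ∧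
        ∀ y ∈ insert (2 * δ) ((Γ.2.toFinset.filter fun f =>
        Cr Γ e f ∧ v ((e, f), true) = true).image fun f => (par Γ e f : ℝ)), r < y := by
      intro e he
      refine Order.exists_between_finsets _ _ ?_
      intro x hx y hy
      rw [Finset.mem_insert, Finset.mem_image] at hx hy
      rcases hx with rfl | ⟨f, hf, rfl⟩ <;> rcases hy with rfl | ⟨f', hf', rfl⟩
      · linarith
      · rw [Finset.mem_filter] at hf'
        exact_mod_cast hf'.2.1.2.1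
      · rw [Finset.mem_filter] at hf
        have : (par Γ e f : ℝ) < 1 := by exact_mod_cast hf.2.1.2.2.1
        linarith
      · rw [Finset.mem_filter, List.mem_toFinset] at hf hf'
        by_contra hcon
        push Not at hcon
        have hm1 : ((e, f'), true) ∈ vars Γ := mem_vars.2 ⟨he, hf'.1⟩
        have hm2 : ((e, f), false) ∈ vars Γ := mem_vars.2 ⟨he, hf.1⟩
        have := hv _ hm1 _ hm2 false false ((hC _ hm1 _ hm2 _ _).2 (Or.inr
          ⟨rfl, rfl, rfl, rfl, rfl, hf'.2.1, hf.2.1, by push_cast; linarith⟩))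
        rw [hf.2.2, hf'.2.2] at this
        simp at this
    choose! s hs1 hs2 using hex
    refine ⟨s, fun e he => ?_, fun e he f hf hcr => ?_⟩
    · exact ⟨(hs1 e he 0 (Finset.mem_insert_self _ _)).le,
        (hs2 e he (2 * δ) (Finset.mem_insert_self _ _)).le⟩
    · have hlt : ∀ e ∈ Γ.2, ∀ f ∈ Γ.2, Cr Γ e f → v ((e, f), true) = true →
          s e < par Γ e f := by
        intro e he f hf hcr h
        refine hs2 e he _ (Finset.mem_insert_of_mem (Finset.mem_image.2 ⟨f, ?_, rfl⟩))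
        rw [Finset.mem_filter, List.mem_toFinset]
        exact ⟨hf, hcr, h⟩
      have hgt : ∀ e ∈ Γ.2, ∀ f ∈ Γ.2, Cr Γ e f → v ((e, f), false) = true →
          (par Γ e f : ℝ) - (1 - 2 * δ) < s e := by
        intro e he f hf hcr h
        refine hs1 e he _ (Finset.mem_insert_of_mem (Finset.mem_image.2 ⟨f, ?_, rfl⟩))
        rw [Finset.mem_filter, List.mem_toFinset]
        exact ⟨hf, hcr, h⟩
      have hcl : ∀ d d' : Bool, v ((e, f), d) = true ∨ v ((f, e), d') = true := by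
        intro d d'
        have hm1 : ((e, f), d) ∈ vars Γ := mem_vars.2 ⟨he, hf⟩
        have hm2 : ((f, e), d') ∈ vars Γ := mem_vars.2 ⟨hf, he⟩
        exact hv _ hm1 _ hm2 true true ((hC _ hm1 _ hm2 _ _).2 (Or.inl ⟨rfl, rfl, rfl, rfl, hcr⟩))
      by_cases hcase : v ((e, f), true) = true ∧ v ((e, f), false) = true
      · exact Or.inl ⟨hlt e he f hf hcr hcase.1, hgt e he f hf hcr hcase.2⟩
      · right
        have h2 : ∀ d', v ((f, e), d') = true := by
          intro d'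
          rcases not_and_or.1 hcase with h | h
          · exact (hcl true d').resolve_left h
          · exact (hcl false d').resolve_left h
        exact ⟨hlt f hf e he hcr.symm (h2 true), hgt f hf e he hcr.symm (h2 false)⟩

end Pool.Agent.X239.PED
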