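import Pool.Agent.X239.PEDIff
import Pool.Agent.H687R2.IntPoly
import Pool.Agent.H671R2.PolyAuto
import Pool.Agent.NPC.Dec

/-!
# Homogeneous partial edge drawings: polynomial time
-/

namespace Pool.Agent.X239.PED

open Pool.Agent.NPC Pool.Agent.X239.TwoSat

attribute [local fun_prop] Poly.iadd Poly.isub Poly.imul Poly.ineg Poly.ilt Poly.ile Poly.natAbs
  Poly.natCast

/-- `x` is a fraction for `q`. -/
def Rep (x : ℤ × ℕ) (q : ℚ) : Prop := 0 < x.2 ∧ (x.1 : ℚ) / x.2 = q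

/-- Difference of fractions. -/
def fsub (x y : ℤ × ℕ) : ℤ × ℕ := (x.1 * (y.2 : ℤ) - y.1 * (x.2 : ℤ), x.2 * y.2)

/-- Product of fractions. -/
def fmul (x y : ℤ × ℕ) : ℤ × ℕ := (x.1 * y.1, x.2 * y.2)

/-- Quotient of fractions. -/
def fdiv (x y : ℤ × ℕ) : ℤ × ℕ :=
  (bif decide (y.1 < 0) then -(x.1 * (y.2 : ℤ)) else x.1 * (y.2 : ℤ), x.2 * y.1.natAbs)

theorem Rep.sub {x y : ℤ × ℕ} {p q : ℚ} (hx : Rep x p) (hy : Rep y q) :
    Rep (fsub x y) (p - q) := by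
  obtain ⟨h1, h2⟩ := hx
  obtain ⟨h3, h4⟩ := hy
  refine ⟨Nat.mul_pos h1 h3, ?_⟩
  have h1' : (x.2 : ℚ) ≠ 0 := by exact_mod_cast h1.ne'
  have h3' : (y.2 : ℚ) ≠ 0 := by exact_mod_cast h3.ne'
  rw [← h2, ← h4, div_sub_div _ _ h1' h3']
  unfold fsub
  push_cast
  congr 1
  ring

theorem Rep.mul {x y : ℤ × ℕ} {p q : ℚ} (hx : Rep x p) (hy : Rep y q) :
    Rep (fmul x y) (p * q) := by
  obtain ⟨h1, h2⟩ := hx
  obtain ⟨h3, h4⟩ := hy
  refine ⟨Nat.mul_pos h1 h3, ?_⟩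
  rw [← h2, ← h4, div_mul_div_comm]
  unfold fmul
  push_cast
  rfl

theorem Rep.div {x y : ℤ × ℕ} {p q : ℚ} (hx : Rep x p) (hy : Rep y q) (hq : q ≠ 0) :
    Rep (fdiv x y) (p / q) := by
  obtain ⟨h1, h2⟩ := hx
  obtain ⟨h3, h4⟩ := hy
  have h0 : y.1 ≠ 0 := by
    intro h
    rw [h, Int.cast_zero, zero_div] at h4
    exact hq h4.symm
  have h1' : (x.2 : ℚ) ≠ 0 := by exact_mod_cast h1.ne'
  have h3' : (y.2 : ℚ) ≠ 0 := by exact_mod_cast h3.ne'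
  have h0' : (y.1 : ℚ) ≠ 0 := by exact_mod_cast h0
  refine ⟨Nat.mul_pos h1 (Int.natAbs_pos.2 h0), ?_⟩
  rw [← h2, ← h4]
  unfold fdiv
  simp only
  by_cases h : y.1 < 0
  · have e : ((y.1.natAbs : ℕ) : ℚ) = -(y.1 : ℚ) := by
      have h1 : ((y.1.natAbs : ℕ) : ℤ) = -y.1 := by omega
      have h2 := congrArg (Int.cast : ℤ → ℚ) h1
      rwa [Int.cast_natCast, Int.cast_neg] at h2
    simp only [h, decide_true, cond_true]
    push_cast
    rw [e]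
    field_simp
  · have e : ((y.1.natAbs : ℕ) : ℚ) = (y.1 : ℚ) := by
      have h1 : ((y.1.natAbs : ℕ) : ℤ) = y.1 := by omega
      have h2 := congrArg (Int.cast : ℤ → ℚ) h1
      rwa [Int.cast_natCast] at h2
    simp only [h, decide_false, cond_false]
    push_cast
    rw [e]
    field_simp

theorem Rep.pos {x : ℤ × ℕ} {p : ℚ} (hx : Rep x p) : 0 < x.1 ↔ 0 < p := by
  obtain ⟨h1, rfl⟩ := hx
  have h1' : (0 : ℚ) < x.2 := by exact_mod_cast h1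
  rw [lt_div_iff₀ h1', zero_mul]
  exact_mod_cast Iff.rfl

theorem Rep.lt_one {x : ℤ × ℕ} {p : ℚ} (hx : Rep x p) : x.1 < (x.2 : ℤ) ↔ p < 1 := by
  obtain ⟨h1, rfl⟩ := hx
  have h1' : (0 : ℚ) < x.2 := by exact_mod_cast h1
  rw [div_lt_one h1']
  exact_mod_cast Iff.rfl

theorem Rep.eq_zero {x : ℤ × ℕ} {p : ℚ} (hx : Rep x p) : x.1 = 0 ↔ p = 0 := by
  obtain ⟨h1, rfl⟩ := hx
  have h1' : (x.2 : ℚ) ≠ 0 := by exact_mod_cast h1.ne'
  rw [div_eq_zero_iff, or_iff_left h1']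
  exact_mod_cast Iff.rfl

/-- The fraction of a rational number. -/
def ofQ (q : ℚ) : ℤ × ℕ := (q.num, q.den)

theorem rep_ofQ (q : ℚ) : Rep (ofQ q) q := ⟨q.den_pos, Rat.num_div_den q⟩

/-- First coordinate, as a fraction. -/
def fx (Γ : Drw) (i : ℕ) : ℤ × ℕ := ofQ (Γ.1.getD i (0, 0)).1

/-- Second coordinate, as a fraction. -/
def fy (Γ : Drw) (i : ℕ) : ℤ × ℕ := ofQ (Γ.1.getD i (0, 0)).2

/-- The determinant, as a fraction. -/
def fdet (Γ : Drw) (e f : ℕ × ℕ) : ℤ × ℕ :=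
  fsub (fmul (fsub (fx Γ e.2) (fx Γ e.1)) (fsub (fy Γ f.2) (fy Γ f.1)))
    (fmul (fsub (fy Γ e.2) (fy Γ e.1)) (fsub (fx Γ f.2) (fx Γ f.1)))

/-- The numerator of the parameter, as a fraction. -/
def fnum (Γ : Drw) (e f : ℕ × ℕ) : ℤ × ℕ :=
  fsub (fmul (fsub (fx Γ f.1) (fx Γ e.1)) (fsub (fy Γ f.2) (fy Γ f.1)))
    (fmul (fsub (fy Γ f.1) (fy Γ e.1)) (fsub (fx Γ f.2) (fx Γ f.1)))

/-- The parameter, as a fraction. -/
def fpar (Γ : Drw) (e f : ℕ × ℕ) : ℤ × ℕ := fdiv (fnum Γ e f) (fdet Γ e f)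

theorem rep_fx (Γ : Drw) (i : ℕ) : Rep (fx Γ i) (qx Γ i) := rep_ofQ _

theorem rep_fy (Γ : Drw) (i : ℕ) : Rep (fy Γ i) (qy Γ i) := rep_ofQ _

theorem rep_fdet (Γ : Drw) (e f : ℕ × ℕ) : Rep (fdet Γ e f) (det Γ e f) :=
  (((rep_fx Γ _).sub (rep_fx Γ _)).mul ((rep_fy Γ _).sub (rep_fy Γ _))).sub
    (((rep_fy Γ _).sub (rep_fy Γ _)).mul ((rep_fx Γ _).sub (rep_fx Γ _)))

theorem rep_fnum (Γ : Drw) (e f : ℕ × ℕ) : Rep (fnum Γ e f) (num Γ e f) :=
  (((rep_fx Γ _).sub (rep_fx Γ _)).mul ((rep_fy Γ _).sub (rep_fy Γ _))).sub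
    (((rep_fy Γ _).sub (rep_fy Γ _)).mul ((rep_fx Γ _).sub (rep_fx Γ _)))

theorem rep_fpar {Γ : Drw} {e f : ℕ × ℕ} (h : det Γ e f ≠ 0) : Rep (fpar Γ e f) (par Γ e f) :=
  (rep_fnum Γ e f).div (rep_fdet Γ e f) h

/-- Test for zero. -/
def eqZ (x : ℤ × ℕ) : Bool := decide (x.1 = 0)

/-- Test for being between zero and one. -/
def btw (x : ℤ × ℕ) : Bool := decide (0 < x.1) && decide (x.1 < (x.2 : ℤ))

/-- The crossing test. -/
def crB (Γ : Drw) (e f : ℕ × ℕ) : Bool :=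
  !eqZ (fdet Γ e f) && (btw (fpar Γ e f) && btw (fpar Γ f e))

theorem crB_iff {Γ : Drw} {e f : ℕ × ℕ} : crB Γ e f = true ↔ Cr Γ e f := by
  unfold crB Cr eqZ btw
  simp only [Bool.and_eq_true, Bool.not_eq_true', decide_eq_false_iff_not, decide_eq_true_eq]
  rw [(rep_fdet Γ e f).eq_zero]
  refine and_congr_right fun h => ?_
  have h' : det Γ f e ≠ 0 := by rw [det_symm]; exact neg_ne_zero.2 h
  rw [(rep_fpar h).pos, (rep_fpar h).lt_one, (rep_fpar h').pos, (rep_fpar h').lt_one, and_assoc]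

/-- The fraction which has to be compared with `δ`. -/
def fcmp (x y : ℤ × ℕ) : ℤ × ℕ :=
  (((fsub y x).2 : ℤ) - (fsub y x).1, 2 * (fsub y x).2)

theorem rep_fcmp {x y : ℤ × ℕ} {p q : ℚ} (hx : Rep x p) (hy : Rep y q) :
    Rep (fcmp x y) ((1 - (q - p)) / 2) := by
  obtain ⟨h1, h2⟩ := hy.sub hx
  have h1' : ((fsub y x).2 : ℚ) ≠ 0 := by exact_mod_cast h1.ne'
  refine ⟨Nat.mul_pos two_pos h1, ?_⟩
  rw [← h2]
  unfold fcmp
  push_cast
  field_simp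

/-- The clauses, computed with the help of the comparison `d`. -/
def clB (d : ℤ × ℕ → Bool) (Γ : Drw) (l l' : (((ℕ × ℕ) × (ℕ × ℕ)) × Bool) × Bool) : Bool :=
  (l.2 && (l'.2 && (decide (l.1.1.1 = l'.1.1.2) && (decide (l.1.1.2 = l'.1.1.1) &&
      crB Γ l.1.1.1 l.1.1.2)))) ||
    (!l.2 && (!l'.2 && (decide (l.1.1.1 = l'.1.1.1) && (l.1.2 && (!l'.1.2 &&
      (crB Γ l.1.1.1 l.1.1.2 && (crB Γ l.1.1.1 l'.1.1.2 &&
        d (fcmp (fpar Γ l.1.1.1 l.1.1.2) (fpar Γ l.1.1.1 l'.1.1.2)))))))))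

theorem clB_iff {δ : ℝ} {d : ℤ × ℕ → Bool} (hd : ∀ x, d x = true ↔ Below δ x) {Γ : Drw}
    (l l' : (((ℕ × ℕ) × (ℕ × ℕ)) × Bool) × Bool) : clB d Γ l l' = true ↔ Cl δ Γ l l' := by
  unfold clB Cl Cf
  simp only [Bool.and_eq_true, Bool.or_eq_true, Bool.not_eq_true', decide_eq_true_eq, crB_iff]
  refine or_congr Iff.rfl ?_
  refine and_congr_right fun _ => and_congr_right fun _ => and_congr_right fun _ =>
    and_congr_right fun _ => and_congr_right fun _ => and_congr_right fun h1 =>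
    and_congr_right fun h2 => ?_
  have hr := rep_fcmp (rep_fpar h1.1) (rep_fpar h2.1)
  rw [hd]
  unfold Below
  rw [and_iff_right hr.1]
  have e : (((fcmp (fpar Γ l.1.1.1 l.1.1.2) (fpar Γ l.1.1.1 l'.1.1.2)).1 : ℝ) /
      ((fcmp (fpar Γ l.1.1.1 l.1.1.2) (fpar Γ l.1.1.1 l'.1.1.2)).2 : ℝ)) =
      (((1 - (par Γ l.1.1.1 l'.1.1.2 - par Γ l.1.1.1 l.1.1.2)) / 2 : ℚ) : ℝ) := by
    rw [← hr.2]
    push_cast
    rfl
  rw [e]

/-! ### Polynomial time -/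

section poly

variable {α : Type} [TEnc α]

theorem poly_ofQ {f : α → ℚ} (h : Poly f) : Poly fun a => ofQ (f a) := h

@[local fun_prop]
theorem poly_fsub {f g : α → ℤ × ℕ} (hf : Poly f) (hg : Poly g) :
    Poly fun a => fsub (f a) (g a) := by
  unfold fsub
  fun_prop

@[local fun_prop]
theorem poly_fmul {f g : α → ℤ × ℕ} (hf : Poly f) (hg : Poly g) :
    Poly fun a => fmul (f a) (g a) := by
  unfold fmul
  fun_prop

@[local fun_prop]
theorem poly_fdiv {f g : α → ℤ × ℕ} (hf : Poly f) (hg : Poly g) :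
    Poly fun a => fdiv (f a) (g a) := by
  unfold fdiv
  fun_prop

@[local fun_prop]
theorem poly_fcmp {f g : α → ℤ × ℕ} (hf : Poly f) (hg : Poly g) :
    Poly fun a => fcmp (f a) (g a) := by
  unfold fcmp
  fun_prop

@[local fun_prop]
theorem poly_eqZ {f : α → ℤ × ℕ} (hf : Poly f) : Poly fun a => eqZ (f a) := by
  unfold eqZ
  fun_prop

@[local fun_prop]
theorem poly_btw {f : α → ℤ × ℕ} (hf : Poly f) : Poly fun a => btw (f a) := by
  unfold btw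
  fun_prop

@[local fun_prop]
theorem poly_fx {f : α → Drw} {g : α → ℕ} (hf : Poly f) (hg : Poly g) :
    Poly fun a => fx (f a) (g a) := by
  unfold fx
  refine poly_ofQ ?_
  fun_prop

@[local fun_prop]
theorem poly_fy {f : α → Drw} {g : α → ℕ} (hf : Poly f) (hg : Poly g) :
    Poly fun a => fy (f a) (g a) := by
  unfold fy
  refine poly_ofQ ?_
  fun_prop

@[local fun_prop]
theorem poly_fdet {f : α → Drw} {g h : α → ℕ × ℕ} (hf : Poly f) (hg : Poly g) (hh : Poly h) :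
    Poly fun a => fdet (f a) (g a) (h a) := by
  unfold fdet
  fun_prop

@[local fun_prop]
theorem poly_fnum {f : α → Drw} {g h : α → ℕ × ℕ} (hf : Poly f) (hg : Poly g) (hh : Poly h) :
    Poly fun a => fnum (f a) (g a) (h a) := by
  unfold fnum
  fun_prop

@[local fun_prop]
theorem poly_fpar {f : α → Drw} {g h : α → ℕ × ℕ} (hf : Poly f) (hg : Poly g) (hh : Poly h) :
    Poly fun a => fpar (f a) (g a) (h a) := by
  unfold fpar
  fun_prop

@[local fun_prop]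
theorem poly_crB {f : α → Drw} {g h : α → ℕ × ℕ} (hf : Poly f) (hg : Poly g) (hh : Poly h) :
    Poly fun a => crB (f a) (g a) (h a) := by
  unfold crB
  fun_prop

theorem poly_clB {d : ℤ × ℕ → Bool} (hd : Poly d) :
    Poly fun p : Drw × ((((ℕ × ℕ) × (ℕ × ℕ)) × Bool) × Bool) ×
      ((((ℕ × ℕ) × (ℕ × ℕ)) × Bool) × Bool) => clB d p.1 p.2.1 p.2.2 := by
  have h : Poly fun p : Drw × ((((ℕ × ℕ) × (ℕ × ℕ)) × Bool) × Bool) ×
      ((((ℕ × ℕ) × (ℕ × ℕ)) × Bool) × Bool) =>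
        d (fcmp (fpar p.1 p.2.1.1.1.1 p.2.1.1.1.2) (fpar p.1 p.2.1.1.1.1 p.2.2.1.1.2)) :=
    Poly.comp hd (f := fun p : Drw × ((((ℕ × ℕ) × (ℕ × ℕ)) × Bool) × Bool) ×
      ((((ℕ × ℕ) × (ℕ × ℕ)) × Bool) × Bool) =>
        fcmp (fpar p.1 p.2.1.1.1.1 p.2.1.1.1.2) (fpar p.1 p.2.1.1.1.1 p.2.2.1.1.2))
      (by fun_prop)
  unfold clB
  fun_prop

theorem poly_vars : Poly vars := by
  unfold vars
  fun_prop

end poly

/-- The decision procedure. -/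
def decide' (d : ℤ × ℕ → Bool) (Γ : Drw) : Bool := dec (vars Γ) (clB d Γ)

theorem decide'_iff {δ : ℝ} (h0 : 0 < δ) {d : ℤ × ℕ → Bool} (hd : ∀ x, d x = true ↔ Below δ x)
    {Γ : Drw} (hΓ : IsDrawing Γ) : decide' d Γ = true ↔ HasHPED δ Γ := by
  unfold decide'
  rw [dec_iff, ← gaps_iff h0 (clB d Γ) fun x _ y _ b c => clB_iff hd _ _]
  exact ⟨hasHPED_of_gaps hΓ, gaps_of_hasHPED hΓ⟩

theorem poly_decide' {d : ℤ × ℕ → Bool} (hd : Poly d) : Poly (decide' d) :=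
  poly_dec poly_vars (poly_clB hd)

/-- The decision function for comparisons with `δ`. -/
theorem exists_test {δ : ℝ} (h : InPP (Below δ)) :
    ∃ d : ℤ × ℕ → Bool, Poly d ∧ ∀ x, d x = true ↔ Below δ x := by
  obtain ⟨V, hV, hV'⟩ := h
  have h1 : PC (fun x : List Bool => x) (fun x : List Bool => x) V :=
    H642R2.TMSim.polyTime_toPC hV
  have h2 : PC (fun x : List Bool => x) (bits : List Bool → List Bool) V :=
    PC.comp (g := fun x => x) (f := V) PC.rawIn h1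
  have h3 : Poly (fun y : List Bool => decide (y = [true])) := by fun_prop
  have h4 : PC (fun x : List Bool => x) (bits : Bool → List Bool)
      (fun x => decide (V x = [true])) :=
    PC.comp (g := fun y : List Bool => decide (y = [true])) (f := V) h3 h2
  refine ⟨fun x => decide (V (bits x) = [true]), ?_, fun x => ?_⟩
  · obtain ⟨c, p, h⟩ := h4
    exact ⟨c, p, fun a => h (bits a)⟩
  · rw [decide_eq_true_eq, ← hV']
    unfold lang
    constructor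
    · rintro ⟨a, ha, h⟩
      rwa [← bits_injective ha]
    · intro h
      exact ⟨x, rfl, h⟩

end Pool.Agent.X239.PED
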