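import Pool.Agent.X239.PEDPoly
import Pool.Agent.ER.Rat
import Pool.Agent.H612.CollectPoly

/-!
# Recognising straight-line drawings, and the main theorem
-/

namespace Pool.Agent.X239.PED

open Pool.Agent.NPC Pool.Agent.X239.TwoSat

attribute [local fun_prop] Poly.iadd Poly.isub Poly.imul Poly.ineg Poly.ilt Poly.ile Poly.natAbs
  Poly.natCast

/-- Cross product of the directions to the vertex `i` and of the edge. -/
def crs (Γ : Drw) (e : ℕ × ℕ) (i : ℕ) : ℚ :=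
  (qx Γ i - qx Γ e.1) * (qy Γ e.2 - qy Γ e.1) - (qy Γ i - qy Γ e.1) * (qx Γ e.2 - qx Γ e.1)

/-- Scalar product of the directions to the vertex `i` and of the edge. -/
def dt (Γ : Drw) (e : ℕ × ℕ) (i : ℕ) : ℚ :=
  (qx Γ i - qx Γ e.1) * (qx Γ e.2 - qx Γ e.1) - (qy Γ i - qy Γ e.1) * (qy Γ e.1 - qy Γ e.2)

theorem mem_seg_iff {Γ : Drw} {e : ℕ × ℕ} (h : pos Γ e.1 ≠ pos Γ e.2) (i : ℕ) :
    pos Γ i ∈ segment ℝ (pos Γ e.1) (pos Γ e.2) ↔
      crs Γ e i = 0 ∧ ¬ dt Γ e i < 0 ∧ ¬ dt Γ e e.2 < dt Γ e i := by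
  have hln : (0 : ℝ) < ((qx Γ e.2 : ℝ) - qx Γ e.1) ^ 2 + ((qy Γ e.2 : ℝ) - qy Γ e.1) ^ 2 := by
    by_contra hc
    push Not at hc
    have h1 := sq_nonneg ((qx Γ e.2 : ℝ) - qx Γ e.1)
    have h2 := sq_nonneg ((qy Γ e.2 : ℝ) - qy Γ e.1)
    have h3 : (qx Γ e.2 : ℝ) - qx Γ e.1 = 0 := by
      have : ((qx Γ e.2 : ℝ) - qx Γ e.1) ^ 2 = 0 := by linarith
      exact pow_eq_zero_iff (two_ne_zero) |>.1 this
    have h4 : (qy Γ e.2 : ℝ) - qy Γ e.1 = 0 := by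
      have : ((qy Γ e.2 : ℝ) - qy Γ e.1) ^ 2 = 0 := by linarith
      exact pow_eq_zero_iff (two_ne_zero) |>.1 this
    exact h (Prod.ext (by simp only [pos_fst]; linarith) (by simp only [pos_snd]; linarith))
  have hcast : (crs Γ e i = 0 ∧ ¬ dt Γ e i < 0 ∧ ¬ dt Γ e e.2 < dt Γ e i) ↔
      (((qx Γ i : ℝ) - qx Γ e.1) * ((qy Γ e.2 : ℝ) - qy Γ e.1) -
        ((qy Γ i : ℝ) - qy Γ e.1) * ((qx Γ e.2 : ℝ) - qx Γ e.1) = 0 ∧
      0 ≤ ((qx Γ i : ℝ) - qx Γ e.1) * ((qx Γ e.2 : ℝ) - qx Γ e.1) +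
        ((qy Γ i : ℝ) - qy Γ e.1) * ((qy Γ e.2 : ℝ) - qy Γ e.1) ∧
      ((qx Γ i : ℝ) - qx Γ e.1) * ((qx Γ e.2 : ℝ) - qx Γ e.1) +
        ((qy Γ i : ℝ) - qy Γ e.1) * ((qy Γ e.2 : ℝ) - qy Γ e.1) ≤
        ((qx Γ e.2 : ℝ) - qx Γ e.1) ^ 2 + ((qy Γ e.2 : ℝ) - qy Γ e.1) ^ 2) := by
    rw [not_lt, not_lt]
    have e1 : ((crs Γ e i : ℚ) : ℝ) = ((qx Γ i : ℝ) - qx Γ e.1) * ((qy Γ e.2 : ℝ) - qy Γ e.1) -
        ((qy Γ i : ℝ) - qy Γ e.1) * ((qx Γ e.2 : ℝ) - qx Γ e.1) := by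
      unfold crs; push_cast; ring
    have e2 : ((dt Γ e i : ℚ) : ℝ) = ((qx Γ i : ℝ) - qx Γ e.1) * ((qx Γ e.2 : ℝ) - qx Γ e.1) +
        ((qy Γ i : ℝ) - qy Γ e.1) * ((qy Γ e.2 : ℝ) - qy Γ e.1) := by
      unfold dt; push_cast; ring
    have e3 : ((dt Γ e e.2 : ℚ) : ℝ) =
        ((qx Γ e.2 : ℝ) - qx Γ e.1) ^ 2 + ((qy Γ e.2 : ℝ) - qy Γ e.1) ^ 2 := by
      unfold dt; push_cast; ring
    rw [← e1, ← e2, ← e3]
    norm_cast
  rw [hcast, mem_seg]
  constructor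
  · rintro ⟨t, ht0, ht1, ht⟩
    unfold pt at ht
    rw [Prod.ext_iff] at ht
    simp only [pos_fst, pos_snd] at ht
    obtain ⟨hx, hy⟩ := ht
    have hx' : (qx Γ i : ℝ) - qx Γ e.1 = t * ((qx Γ e.2 : ℝ) - qx Γ e.1) := by linarith
    have hy' : (qy Γ i : ℝ) - qy Γ e.1 = t * ((qy Γ e.2 : ℝ) - qy Γ e.1) := by linarith
    rw [hx', hy']
    generalize (qx Γ e.2 : ℝ) - qx Γ e.1 = X at *
    generalize (qy Γ e.2 : ℝ) - qy Γ e.1 = Y at *
    refine ⟨by ring, ?_, ?_⟩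
    · have : t * X * X + t * Y * Y = t * (X ^ 2 + Y ^ 2) := by ring
      rw [this]
      exact mul_nonneg ht0 hln.le
    · have : t * X * X + t * Y * Y = t * (X ^ 2 + Y ^ 2) := by ring
      rw [this]
      nlinarith
  · rintro ⟨h1, h2, h3⟩
    refine ⟨(((qx Γ i : ℝ) - qx Γ e.1) * ((qx Γ e.2 : ℝ) - qx Γ e.1) +
        ((qy Γ i : ℝ) - qy Γ e.1) * ((qy Γ e.2 : ℝ) - qy Γ e.1)) /
        (((qx Γ e.2 : ℝ) - qx Γ e.1) ^ 2 + ((qy Γ e.2 : ℝ) - qy Γ e.1) ^ 2),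
        div_nonneg h2 hln.le, (div_le_one hln).2 h3, ?_⟩
    unfold pt
    rw [Prod.ext_iff]
    simp only [pos_fst, pos_snd]
    constructor
    · rw [div_mul_eq_mul_div, ← sub_eq_iff_eq_add', eq_div_iff hln.ne']
      linear_combination ((qy Γ e.2 : ℝ) - qy Γ e.1) * h1
    · rw [div_mul_eq_mul_div, ← sub_eq_iff_eq_add', eq_div_iff hln.ne']
      linear_combination -((qx Γ e.2 : ℝ) - qx Γ e.1) * h1

theorem pos_ne_of {Γ : Drw} (h1 : Γ.1.Nodup) {e : ℕ × ℕ} (he : e.1 < e.2 ∧ e.2 < Γ.1.length) :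
    pos Γ e.1 ≠ pos Γ e.2 := by
  intro h
  unfold pos at h
  rw [Prod.mk.injEq] at h
  obtain ⟨h2, h3⟩ := h
  have h2' := Rat.cast_injective h2
  have h3' := Rat.cast_injective h3
  rw [List.getD_eq_getElem _ _ (he.1.trans he.2), List.getD_eq_getElem _ _ he.2] at h2' h3'
  have := (List.Nodup.getElem_inj_iff h1).1 (Prod.ext h2' h3')
  omega

/-- `crs` as a fraction. -/
def fcrs (Γ : Drw) (e : ℕ × ℕ) (i : ℕ) : ℤ × ℕ :=
  fsub (fmul (fsub (fx Γ i) (fx Γ e.1)) (fsub (fy Γ e.2) (fy Γ e.1)))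
    (fmul (fsub (fy Γ i) (fy Γ e.1)) (fsub (fx Γ e.2) (fx Γ e.1)))

/-- `dt` as a fraction. -/
def fdt (Γ : Drw) (e : ℕ × ℕ) (i : ℕ) : ℤ × ℕ :=
  fsub (fmul (fsub (fx Γ i) (fx Γ e.1)) (fsub (fx Γ e.2) (fx Γ e.1)))
    (fmul (fsub (fy Γ i) (fy Γ e.1)) (fsub (fy Γ e.1) (fy Γ e.2)))

theorem rep_fcrs (Γ : Drw) (e : ℕ × ℕ) (i : ℕ) : Rep (fcrs Γ e i) (crs Γ e i) :=
  (((rep_fx Γ _).sub (rep_fx Γ _)).mul ((rep_fy Γ _).sub (rep_fy Γ _))).sub
    (((rep_fy Γ _).sub (rep_fy Γ _)).mul ((rep_fx Γ _).sub (rep_fx Γ _)))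

theorem rep_fdt (Γ : Drw) (e : ℕ × ℕ) (i : ℕ) : Rep (fdt Γ e i) (dt Γ e i) :=
  (((rep_fx Γ _).sub (rep_fx Γ _)).mul ((rep_fx Γ _).sub (rep_fx Γ _))).sub
    (((rep_fy Γ _).sub (rep_fy Γ _)).mul ((rep_fy Γ _).sub (rep_fy Γ _)))

/-- Comparison of fractions. -/
def flt (x y : ℤ × ℕ) : Bool := decide (0 < (fsub y x).1)

theorem flt_iff {x y : ℤ × ℕ} {p q : ℚ} (hx : Rep x p) (hy : Rep y q) :
    flt x y = true ↔ p < q := by
  unfold flt
  rw [decide_eq_true_eq, (hy.sub hx).pos, sub_pos]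

/-- Negativity of fractions. -/
def fneg (x : ℤ × ℕ) : Bool := decide (x.1 < 0)

theorem fneg_iff {x : ℤ × ℕ} {p : ℚ} (hx : Rep x p) : fneg x = true ↔ p < 0 := by
  unfold fneg
  obtain ⟨h1, rfl⟩ := hx
  have h1' : (0 : ℚ) < x.2 := by exact_mod_cast h1
  rw [decide_eq_true_eq, div_lt_iff₀ h1', zero_mul]
  exact_mod_cast Iff.rfl

/-- Incidence of the vertex `i` with the segment of `e`. -/
def onB (Γ : Drw) (e : ℕ × ℕ) (i : ℕ) : Bool :=
  eqZ (fcrs Γ e i) && (!fneg (fdt Γ e i) && !flt (fdt Γ e e.2) (fdt Γ e i))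

theorem onB_iff {Γ : Drw} {e : ℕ × ℕ} (h : pos Γ e.1 ≠ pos Γ e.2) (i : ℕ) :
    onB Γ e i = true ↔ pos Γ i ∈ segment ℝ (pos Γ e.1) (pos Γ e.2) := by
  rw [mem_seg_iff h]
  unfold onB
  rw [Bool.and_eq_true, Bool.and_eq_true, Bool.not_eq_true', Bool.not_eq_true',
    ← Bool.not_eq_true, ← Bool.not_eq_true, fneg_iff (rep_fdt _ _ _),
    flt_iff (rep_fdt _ _ _) (rep_fdt _ _ _)]
  unfold eqZ
  rw [decide_eq_true_eq, (rep_fcrs _ _ _).eq_zero]

/-- The test for straight-line drawings. -/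
def drB (Γ : Drw) : Bool :=
  decide (Γ.1.dedup = Γ.1) && (decide (Γ.2.dedup = Γ.2) &&
    ((Γ.2.all fun e => decide (e.1 < e.2) && decide (e.2 < Γ.1.length)) &&
      (Γ.2.all fun e => (List.range Γ.1.length).all fun i =>
        !onB Γ e i || (decide (i = e.1) || decide (i = e.2)))))

theorem drB_iff (Γ : Drw) : drB Γ = true ↔ IsDrawing Γ := by
  unfold drB
  rw [Bool.and_eq_true, Bool.and_eq_true, Bool.and_eq_true, decide_eq_true_eq, decide_eq_true_eq,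
    List.dedup_eq_self, List.dedup_eq_self, List.all_eq_true, List.all_eq_true]
  constructor
  · rintro ⟨h1, h2, h3, h4⟩
    have hpre : ∀ e ∈ Γ.2, e.1 < e.2 ∧ e.2 < Γ.1.length := by
      intro e he
      simpa using h3 e he
    refine ⟨h1, h2, hpre, ?_⟩
    intro e he i hi hm
    have hne : pos Γ e.1 ≠ pos Γ e.2 := pos_ne_of h1 (hpre e he)
    have h5 := h4 e he
    rw [List.all_eq_true] at h5
    have h6 := h5 i (List.mem_range.2 hi)
    rw [(onB_iff hne i).2 hm] at h6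
    simpa using h6
  · rintro ⟨h1, h2, h3, h4⟩
    refine ⟨h1, h2, ?_, ?_⟩
    · intro e he
      simpa using h3 e he
    · intro e he
      rw [List.all_eq_true]
      intro i hi
      have hne : pos Γ e.1 ≠ pos Γ e.2 := pos_ne ⟨h1, h2, h3, h4⟩ he
      by_cases hm : pos Γ i ∈ segment ℝ (pos Γ e.1) (pos Γ e.2)
      · rcases h4 e he i (List.mem_range.1 hi) hm with h | h <;> simp [h]
      · have : onB Γ e i = false := by
          rw [← Bool.not_eq_true, onB_iff hne]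
          exact hm
        simp [this]

section poly

variable {α : Type} [TEnc α]

theorem poly_ofQ' {f : α → ℚ} (h : Poly f) : Poly fun a => ofQ (f a) := h

@[local fun_prop]
theorem poly_fsub' {f g : α → ℤ × ℕ} (hf : Poly f) (hg : Poly g) :
    Poly fun a => fsub (f a) (g a) := poly_fsub hf hg

@[local fun_prop]
theorem poly_fmul' {f g : α → ℤ × ℕ} (hf : Poly f) (hg : Poly g) :
    Poly fun a => fmul (f a) (g a) := poly_fmul hf hg

@[local fun_prop]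
theorem poly_eqZ' {f : α → ℤ × ℕ} (hf : Poly f) : Poly fun a => eqZ (f a) := poly_eqZ hf

@[local fun_prop]
theorem poly_fx' {f : α → Drw} {g : α → ℕ} (hf : Poly f) (hg : Poly g) :
    Poly fun a => fx (f a) (g a) := poly_fx hf hg

@[local fun_prop]
theorem poly_fy' {f : α → Drw} {g : α → ℕ} (hf : Poly f) (hg : Poly g) :
    Poly fun a => fy (f a) (g a) := poly_fy hf hg

@[local fun_prop]
theorem poly_flt {f g : α → ℤ × ℕ} (hf : Poly f) (hg : Poly g) :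
    Poly fun a => flt (f a) (g a) := by
  unfold flt
  fun_prop

@[local fun_prop]
theorem poly_fneg {f : α → ℤ × ℕ} (hf : Poly f) :
    Poly fun a => fneg (f a) := by
  unfold fneg
  fun_prop

@[local fun_prop]
theorem poly_fcrs {f : α → Drw} {g : α → ℕ × ℕ} {h : α → ℕ} (hf : Poly f) (hg : Poly g)
    (hh : Poly h) : Poly fun a => fcrs (f a) (g a) (h a) := by
  unfold fcrs
  fun_prop

@[local fun_prop]
theorem poly_fdt {f : α → Drw} {g : α → ℕ × ℕ} {h : α → ℕ} (hf : Poly f) (hg : Poly g)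
    (hh : Poly h) : Poly fun a => fdt (f a) (g a) (h a) := by
  unfold fdt
  fun_prop

@[local fun_prop]
theorem poly_onB {f : α → Drw} {g : α → ℕ × ℕ} {h : α → ℕ} (hf : Poly f) (hg : Poly g)
    (hh : Poly h) : Poly fun a => onB (f a) (g a) (h a) := by
  unfold onB
  fun_prop

theorem poly_drB : Poly drB := by
  have h1 : Poly fun Γ : Drw => decide (Γ.1.dedup = Γ.1) :=
    Poly.decide_eq (H612.poly_dedup (Poly.fst Poly.id)) (Poly.fst Poly.id)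
  have h2 : Poly fun Γ : Drw => decide (Γ.2.dedup = Γ.2) :=
    Poly.decide_eq (H612.poly_dedup (Poly.snd Poly.id)) (Poly.snd Poly.id)
  have h3 : Poly fun Γ : Drw =>
      Γ.2.all fun e => decide (e.1 < e.2) && decide (e.2 < Γ.1.length) := by
    fun_prop
  have h4 : Poly fun Γ : Drw => Γ.2.all fun e => (List.range Γ.1.length).all fun i =>
        !onB Γ e i || (decide (i = e.1) || decide (i = e.2)) := by
    have hr : Poly fun Γ : Drw => List.range Γ.1.length :=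
      (UPoly.length (Poly.fst Poly.id)).range
    have hr' : Poly fun p : Drw × ℕ × ℕ => List.range p.1.1.length :=
      Poly.comp hr (f := fun p : Drw × ℕ × ℕ => p.1) (by fun_prop)
    have h5 : Poly fun p : (Drw × (ℕ × ℕ)) × ℕ =>
        !onB p.1.1 p.1.2 p.2 || (decide (p.2 = p.1.2.1) || decide (p.2 = p.1.2.2)) := by
      fun_prop
    exact Poly.all (Poly.snd Poly.id) (Poly.all hr' h5)
  unfold drB
  exact Poly.and h1 (Poly.and h2 (Poly.and h3 h4))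

end poly

/-- Comparison with a rational number is in `P`. -/
theorem below_rat (q : ℚ) : InPP (Below (q : ℝ)) := by
  refine inPP_of (d := fun x : ℤ × ℕ => decide (0 < x.2) &&
    decide (x.1 * (q.den : ℤ) ≤ q.num * (x.2 : ℤ))) (by fun_prop) fun x => ?_
  unfold Below
  rw [Bool.and_eq_true, decide_eq_true_eq, decide_eq_true_eq]
  refine and_congr_right fun h => ?_
  have h1 : (0 : ℝ) < x.2 := by exact_mod_cast h
  have h2 : (0 : ℝ) < q.den := by exact_mod_cast q.den_pos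
  have h3 : (q : ℝ) = (q.num : ℝ) / (q.den : ℝ) := by
    have := Rat.num_div_den q
    exact_mod_cast (congrArg (Rat.cast : ℚ → ℝ) this).symm
  rw [h3, div_le_div_iff₀ h1 h2]
  exact_mod_cast Iff.rfl

/-- The main theorem. -/
theorem main {δ : ℝ} (h0 : 0 < δ) (h : InPP (Below δ)) :
    InPP fun Γ : Drw => IsDrawing Γ ∧ HasHPED δ Γ := by
  obtain ⟨d, hd, hd'⟩ := exists_test h
  refine inPP_of (d := fun Γ => drB Γ && decide' d Γ) (Poly.and poly_drB (poly_decide' hd))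
    fun Γ => ?_
  rw [Bool.and_eq_true, drB_iff]
  exact and_congr_right fun hΓ => (decide'_iff h0 hd' hΓ).symm

end Pool.Agent.X239.PED
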